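import Pool.Agent.Y910.Z.Z3

/-!
Units of the rings generated by a parameter and finite sets, and the finiteness of the exceptional
parameters (helper file).
-/

set_option autoImplicit false

namespace Pool.Agent.Q57.ZP

open Pool.Agent.Y910.Z

/-- `z` is a unit of the ring generated by `S`. -/
def UnitOf (S : Set ℂ) (z : ℂ) : Prop :=
  z ≠ 0 ∧ z ∈ Subring.closure S ∧ z⁻¹ ∈ Subring.closure S

theorem UnitOf.mono {S S' : Set ℂ} (h : S ⊆ S') {z : ℂ} (hz : UnitOf S z) : UnitOf S' z :=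
  ⟨hz.1, Subring.closure_mono h hz.2.1, Subring.closure_mono h hz.2.2⟩

theorem UnitOf.val {S : Set ℂ} {z : ℂ} (hz : UnitOf S z) (V : ValuationSubring ℂ)
    (hV : ∀ x ∈ S, x ∈ V) : V.valuation z = 1 := by
  have h1 : Subring.closure S ≤ V.toSubring := Subring.closure_le.2 hV
  have h2 : V.valuation z ≤ 1 := (ValuationSubring.valuation_le_one_iff _ _).2 (h1 hz.2.1)
  have h3 : V.valuation z⁻¹ ≤ 1 := (ValuationSubring.valuation_le_one_iff _ _).2 (h1 hz.2.2)
  rw [map_inv₀] at h3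
  have h4 : V.valuation z ≠ 0 := (Valuation.ne_zero_iff _).2 hz.1
  exact le_antisymm h2 ((inv_le_one₀ (zero_lt_iff.2 h4)).1 h3)

/-- A point `b` different from a point to which `t` is near. -/
theorem inv_sub_mem (V : ValuationSubring ℂ) {t a b : ℂ} (h1 : V.valuation (t - a) < 1)
    (hab : a ≠ b) (h2 : a - b ∈ V) (h3 : (a - b)⁻¹ ∈ V) : (t - b)⁻¹ ∈ V := by
  have h4 : V.valuation (a - b) = 1 := by
    have e2 := (ValuationSubring.valuation_le_one_iff _ _).2 h2
    have e3 := (ValuationSubring.valuation_le_one_iff _ _).2 h3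
    rw [map_inv₀] at e3
    have h4 : V.valuation (a - b) ≠ 0 := (Valuation.ne_zero_iff _).2 (sub_ne_zero.2 hab)
    exact le_antisymm e2 ((inv_le_one₀ (zero_lt_iff.2 h4)).1 e3)
  have h5 : V.valuation (t - b) = 1 := by
    have h6 : t - b = (t - a) + (a - b) := by ring
    rw [h6, Valuation.map_add_eq_of_lt_right _ (by rw [h4]; exact h1), h4]
  rw [← ValuationSubring.valuation_le_one_iff, map_inv₀, h5, inv_one]

/-- The ring generated by `F`, by `t` and by the inverses of the `t - b`, `b ∈ B`: its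
generators. -/
def gens (F B : Finset ℂ) (t : ℂ) : Set ℂ :=
  insert t ((F : Set ℂ) ∪ (fun b => (t - b)⁻¹) '' (B : Set ℂ))

theorem gens_mono {F F' B : Finset ℂ} (h : F ⊆ F') (t : ℂ) : gens F B t ⊆ gens F' B t :=
  Set.insert_subset_insert (Set.union_subset_union_left _ (by exact_mod_cast h))

/-- From the criterion to finite sets: `E` contains the exceptional parameters, and the criterion
holds outside `E₀`. -/
theorem finite_of_bad' {M : ℕ} (N : ℕ) (W : Finset ℂ) (D : Fin M → Finset ℂ) (P : ℂ → Prop)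
    (hP : ∀ I : Finset (Fin M), M < I.card + N →
      {t : ℂ | P t ∧ ∀ l ∈ I, ∀ a ∈ D l, Bad (W : Set ℂ) t a}.Finite)
    (E : Set ℂ) (E₀ : Set ℂ) (hE₀ : {t : ℂ | P t ∧ t ∈ E₀}.Finite)
    (hE : ∀ t, t ∉ E₀ → (∃ f : Fin N → Fin M, Function.Injective f ∧
        ∀ l, ∃ a ∈ D (f l), ¬ Bad (W : Set ℂ) t a) → t ∉ E) :
    {t : ℂ | P t ∧ t ∈ E}.Finite := by
  classical
  rcases Nat.eq_zero_or_pos N with hN | hN
  · subst hN
    refine hE₀.subset ?_
    rintro t ⟨htP, ht⟩
    refine ⟨htP, ?_⟩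
    by_contra h
    exact hE t h ⟨Fin.elim0, fun a => a.elim0, fun l => l.elim0⟩ ht
  · obtain ⟨L, rfl⟩ : ∃ L, N = L + 1 := ⟨N - 1, by omega⟩
    refine (hE₀.union (Set.Finite.biUnion (Finset.finite_toSet
      (Finset.univ.filter fun I : Finset (Fin M) => M < I.card + (L + 1))) fun I hI =>
        hP I (Finset.mem_filter.1 hI).2)).subset ?_
    rintro t ⟨htP, ht⟩
    by_contra hcon
    rw [Set.mem_union, not_or] at hcon
    refine hE t (fun h => hcon.1 ⟨htP, h⟩)
      (exists_good (W : Set ℂ) D t fun I hI hbad => hcon.2 ?_) ht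
    exact Set.mem_biUnion (Finset.mem_coe.2 (Finset.mem_filter.2 ⟨Finset.mem_univ _, by omega⟩))
      ⟨htP, hbad⟩

/-- The same with a finite set `E₀`. -/
theorem finite_of_bad {M : ℕ} (N : ℕ) (W : Finset ℂ) (D : Fin M → Finset ℂ) (P : ℂ → Prop)
    (hP : ∀ I : Finset (Fin M), M < I.card + N →
      {t : ℂ | P t ∧ ∀ l ∈ I, ∀ a ∈ D l, Bad (W : Set ℂ) t a}.Finite)
    (E : Set ℂ) (E₀ : Set ℂ) (hE₀ : E₀.Finite)
    (hE : ∀ t, t ∉ E₀ → (∃ f : Fin N → Fin M, Function.Injective f ∧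
        ∀ l, ∃ a ∈ D (f l), ¬ Bad (W : Set ℂ) t a) → t ∉ E) :
    {t : ℂ | P t ∧ t ∈ E}.Finite :=
  finite_of_bad' N W D P hP E E₀ (hE₀.subset fun _ h => h.2) hE

/-- The elements of a field generated by algebraic elements are algebraic. -/
theorem alg_field {K : Subfield ℂ} {F : Finset ℂ} (hF : ∀ z ∈ F, IsAlgebraic K z) :
    {t : ℂ | t ∈ Subfield.closure (F : Set ℂ) ∧ t ∈ {t : ℂ | ¬ IsAlgebraic K t}}.Finite := by
  have h1 : Subfield.closure (F : Set ℂ) ≤ (algebraicClosure K ℂ).toSubfield := by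
    rw [Subfield.closure_le]
    intro z hz
    exact mem_algebraicClosure_iff'.2 (hF z hz).isIntegral
  refine Set.finite_empty.subset ?_
  rintro t ⟨h2, h3⟩
  exact h3 (mem_algebraicClosure_iff'.1 (h1 h2)).isAlgebraic

/-- The elements of a ring generated by algebraic elements are algebraic. -/
theorem alg_ring {K : Subfield ℂ} {F : Finset ℂ} (hF : ∀ z ∈ F, IsAlgebraic K z) :
    {t : ℂ | t ∈ Subring.closure (F : Set ℂ) ∧ t ∈ {t : ℂ | ¬ IsAlgebraic K t}}.Finite := by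
  refine (alg_field hF).subset ?_
  rintro t ⟨h2, h3⟩
  refine ⟨?_, h3⟩
  have h1 : Subring.closure (F : Set ℂ) ≤ (Subfield.closure (F : Set ℂ)).toSubring := by
    rw [Subring.closure_le]
    exact Subfield.subset_closure
  exact h1 h2

/-- Elements of a field that are exceptional for all the `a` in a set with three elements. -/
theorem fin_bad_field {M : ℕ} (W F : Finset ℂ) (D : Fin M → Finset ℂ) (I : Finset (Fin M))
    (h3 : 3 ≤ (I.biUnion D).card) :
    {t : ℂ | t ∈ Subfield.closure (F : Set ℂ) ∧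
      ∀ l ∈ I, ∀ a ∈ D l, Bad (W : Set ℂ) t a}.Finite := by
  classical
  obtain ⟨a, b, c, ha, hb, hc, hab, hac, hbc⟩ := Finset.two_lt_card_iff.1
    (show 2 < (I.biUnion D).card from h3)
  refine (fin_field W F hab hac hbc).subset ?_
  rintro t ⟨htF, hbad⟩
  have hB : ∀ z ∈ I.biUnion D, Bad (W : Set ℂ) t z := by
    intro z hz
    obtain ⟨l, hl, hz⟩ := Finset.mem_biUnion.1 hz
    exact hbad l hl z hz
  exact ⟨htF, hB a ha, hB b hb, hB c hc⟩

/-- Elements of a ring that are exceptional for all the `a` in a set with two elements. -/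
theorem fin_bad_ring {M : ℕ} (W F : Finset ℂ) (D : Fin M → Finset ℂ) (I : Finset (Fin M))
    (h2 : 2 ≤ (I.biUnion D).card) :
    {t : ℂ | t ∈ Subring.closure (F : Set ℂ) ∧
      ∀ l ∈ I, ∀ a ∈ D l, Bad (W : Set ℂ) t a}.Finite := by
  classical
  obtain ⟨a, b, ha, hb, hab⟩ := Finset.one_lt_card_iff.1
    (show 1 < (I.biUnion D).card from h2)
  refine (fin_ring W F hab).subset ?_
  rintro t ⟨htF, hbad⟩
  have hB : ∀ z ∈ I.biUnion D, Bad (W : Set ℂ) t z := by
    intro z hz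
    obtain ⟨l, hl, hz⟩ := Finset.mem_biUnion.1 hz
    exact hbad l hl z hz
  exact ⟨htF, hB a ha, hB b hb⟩

/-- Units of a ring that are exceptional for all the `a` in a set with a nonzero element. -/
theorem fin_bad_unit {M : ℕ} (W F : Finset ℂ) (hFW : F ⊆ W) (D : Fin M → Finset ℂ)
    (I : Finset (Fin M)) (h1 : ∃ a ∈ I.biUnion D, a ≠ 0) :
    {t : ℂ | UnitOf (F : Set ℂ) t ∧
      ∀ l ∈ I, ∀ a ∈ D l, Bad (W : Set ℂ) t a}.Finite := by
  classical
  obtain ⟨a, ha, ha0⟩ := h1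
  refine (fin_ring W F ha0).subset ?_
  rintro t ⟨htF, hbad⟩
  refine ⟨htF.2.1, ?_, ?_⟩
  · obtain ⟨l, hl, hz⟩ := Finset.mem_biUnion.1 ha
    exact hbad l hl a hz
  · refine ⟨htF.1, ?_⟩
    rw [sub_zero]
    refine Subring.closure_mono ?_ htF.2.2
    intro z hz
    exact Set.mem_insert_of_mem _ (hFW hz)

/-- Units of a ring generated by algebraic elements are algebraic. -/
theorem alg_unit {K : Subfield ℂ} {F : Finset ℂ} (hF : ∀ z ∈ F, IsAlgebraic K z) :
    {t : ℂ | UnitOf (F : Set ℂ) t ∧ t ∈ {t : ℂ | ¬ IsAlgebraic K t}}.Finite :=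
  (alg_ring hF).subset fun _ h => ⟨h.1.2.1, h.2⟩

end Pool.Agent.Q57.ZP
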