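import Pool.Agent.Y199.SG.ZPW
import Pool.Agent.Q57.ZP.Unit

/-!
Units of the integral closure of the ring generated by the coordinates of a point of an elliptic curve
and by inverses of values of functions, at places near to another point (helper file).
-/

set_option autoImplicit false

namespace Pool.Agent.Q57.ZP

open Pool.Agent.Y199.SG Pool.Agent.Y199.SG.ZPZ

/-- `z` is a unit of the integral closure in `ℂ` of the ring generated by `S`. -/
def IntUnit (S : Set ℂ) (z : ℂ) : Prop :=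
  z ≠ 0 ∧ IsIntegral (Algebra.adjoin ℤ S) z ∧ IsIntegral (Algebra.adjoin ℤ S) z⁻¹

theorem v_le_of_int' {S : Set ℂ} (V : ValuationSubring ℂ) (hV : ∀ x ∈ S, x ∈ V) {z : ℂ}
    (hz : IsIntegral (Algebra.adjoin ℤ S) z) : V.valuation z ≤ 1 := by
  have h4 : algebraMap ℂ ℂ '' S = S := Set.image_id _
  refine Pool.Agent.Y152.BD.v_le_of_int S V (fun x hx => hV x hx) ?_
  rw [h4]
  exact hz

theorem IntUnit.val {S : Set ℂ} {z : ℂ} (hz : IntUnit S z) (V : ValuationSubring ℂ)
    (hV : ∀ x ∈ S, x ∈ V) : V.valuation z = 1 := by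
  have h2 := v_le_of_int' V hV hz.2.1
  have h3 := v_le_of_int' V hV hz.2.2
  rw [map_inv₀] at h3
  have h4 : V.valuation z ≠ 0 := (Valuation.ne_zero_iff _).2 hz.1
  exact le_antisymm h2 ((inv_le_one₀ (zero_lt_iff.2 h4)).1 h3)

/-- The generators `F`, the coordinates of `P` and the inverses of the values at `P` of the functions
in `H`. -/
def gensE (F : Finset ℂ) (H : Finset (MvPolynomial (Fin 2) ℂ)) (P : Fin 2 → ℂ) : Set ℂ :=
  Set.range P ∪ ((F : Set ℂ) ∪ (fun h => (MvPolynomial.eval P h)⁻¹) '' (H : Set _))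

/-- The numbers which have to be integral at the place. -/
noncomputable def numsE (F : Finset ℂ) (H : Finset (MvPolynomial (Fin 2) ℂ)) (Q : Fin 2 → ℂ) :
    Finset ℂ :=
  open Classical in F ∪ {Q 0, Q 1} ∪
    H.biUnion fun h => (h.support.image fun d => h.coeff d) ∪ {(MvPolynomial.eval Q h)⁻¹}

theorem gens_near {F : Finset ℂ} {H : Finset (MvPolynomial (Fin 2) ℂ)} {P Q : Fin 2 → ℂ}
    (V : ValuationSubring ℂ) (hPQ : ∀ i, V.valuation (P i - Q i) < 1)
    (hnum : ∀ z ∈ numsE F H Q, z ∈ V) (hH : ∀ h ∈ H, MvPolynomial.eval Q h ≠ 0) :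
    ∀ x ∈ gensE F H P, x ∈ V := by
  classical
  have hQV : ∀ i, Q i ∈ V := by
    intro i
    refine hnum _ ?_
    simp only [numsE, Finset.mem_union]
    refine Or.inl (Or.inr ?_)
    fin_cases i
    · exact Finset.mem_insert_self _ _
    · exact Finset.mem_insert_of_mem (Finset.mem_singleton_self _)
  rintro x (⟨i, rfl⟩ | hx | ⟨h, hh, rfl⟩)
  · have h1 : P i = (P i - Q i) + Q i := by ring
    rw [h1]
    exact V.add_mem _ _ ((ValuationSubring.valuation_le_one_iff _ _).1 (hPQ i).le) (hQV i)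
  · refine hnum _ ?_
    simp only [numsE, Finset.mem_union]
    exact Or.inl (Or.inl hx)
  · have hmem : ∀ z ∈ (h.support.image fun d => h.coeff d) ∪ {(MvPolynomial.eval Q h)⁻¹},
        z ∈ V := fun z hz => hnum _ (by
      simp only [numsE]
      exact Finset.mem_union_right _ (Finset.mem_biUnion.2 ⟨h, hh, hz⟩))
    have hcoef : ∀ d, h.coeff d ∈ V := by
      intro d
      by_cases h2 : d ∈ h.support
      · exact hmem _ (Finset.mem_union_left _ (Finset.mem_image_of_mem _ h2))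
      · rw [MvPolynomial.notMem_support_iff.1 h2]
        exact zero_mem V
    have h3 := (v_unit V h P Q hcoef hQV hPQ (hH h hh) (hmem _ (Finset.mem_union_right _
      (Finset.mem_singleton_self _)))).1
    show (MvPolynomial.eval P h)⁻¹ ∈ V
    rw [← ValuationSubring.valuation_le_one_iff, map_inv₀, h3, inv_one]

/-- The values of a function at points near to `Q`. -/
theorem order_near {a b : ℂ} {P Q : Fin 2 → ℂ} (V : ValuationSubring ℂ)
    (hPQ : ∀ i, V.valuation (P i - Q i) < 1) (hQV : ∀ i, Q i ∈ V) (hP : P ∈ Curve a b)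
    (g h c : MvPolynomial (Fin 2) ℂ) (e : ℕ) (hg : ∀ d, g.coeff d ∈ V) (hh : ∀ d, h.coeff d ∈ V)
    (hg0 : MvPolynomial.eval Q g ≠ 0) (hh0 : MvPolynomial.eval Q h ≠ 0)
    (hg1 : (MvPolynomial.eval Q g)⁻¹ ∈ V) (hh1 : (MvPolynomial.eval Q h)⁻¹ ∈ V)
    (hgh : ∀ P ∈ Curve a b, MvPolynomial.eval P h * MvPolynomial.eval P c =
      loc Q P ^ e * MvPolynomial.eval P g) :
    V.valuation (MvPolynomial.eval P c) = V.valuation (loc Q P) ^ e := by
  have hG := (v_unit V g P Q hg hQV hPQ hg0 hg1).1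
  have hH := (v_unit V h P Q hh hQV hPQ hh0 hh1).1
  have h2 := congrArg V.valuation (hgh P hP)
  rw [map_mul, map_mul, map_pow, hG, hH, one_mul, mul_one] at h2
  exact h2

theorem loc_near {P Q : Fin 2 → ℂ} (V : ValuationSubring ℂ)
    (hPQ : ∀ i, V.valuation (P i - Q i) < 1) : V.valuation (loc Q P) < 1 := by
  by_cases h2 : Q 1 = 0
  · rw [loc, if_pos h2]
    have h3 := hPQ 1
    rw [h2, sub_zero] at h3
    exact h3
  · rw [loc, if_neg h2]
    exact hPQ 0

end Pool.Agent.Q57.ZP
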