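import Pool.Agent.Q57.ZP.Rid
import Pool.Agent.Q41.ZP.PolyFam

/-!
Large prime divisors of their own of the values of coprime polynomials with at least two roots, and of
coprime binary forms with at least three linear factors, with finitely many exceptions (helper file).
-/

set_option autoImplicit false

namespace Pool.Agent.Q57.ZP

open Polynomial Finset Pool.Agent.Y670.RD

theorem finite_eval_zero (f : ℤ[X]) (hf : f ≠ 0) : {t : ℤ | f.eval t = 0}.Finite := by
  classical
  refine (f.roots.toFinset.finite_toSet).subset ?_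
  intro t ht
  rw [Finset.mem_coe, Multiset.mem_toFinset, mem_roots hf]
  exact ht

/-- For all but finitely many integers `t` the values at `t` of pairwise coprime polynomials with at
least two different roots have large prime divisors of their own. -/
theorem family_int {ι : Type*} [Fintype ι] {L : ℕ} (f : Fin L → ℤ[X])
    (hf : ∀ l, 2 ≤ ((f l).rootSet ℂ).ncard)
    (hcop : ∀ l l', l ≠ l' →
      IsCoprime ((f l).map (Int.castRingHom ℚ)) ((f l').map (Int.castRingHom ℚ)))
    (g : ι → ℤ[X]) (hg : ∀ i, g i ≠ 0) (hfg : ∀ l i,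
      IsCoprime ((f l).map (Int.castRingHom ℚ)) ((g i).map (Int.castRingHom ℚ))) (D : ℕ) :
    {t : ℤ | ¬ ((∀ l, (f l).eval t ≠ 0) ∧ (∀ i, (g i).eval t ≠ 0) ∧ ∃ p : Fin L → ℕ,
      (∀ l, (p l).Prime ∧ D < p l ∧ p l ∣ ((f l).eval t).natAbs) ∧
      (∀ l l', l ≠ l' → ¬ p l ∣ ((f l').eval t).natAbs) ∧
      ∀ l i, ¬ p l ∣ ((g i).eval t).natAbs)}.Finite := by
  classical
  have hf0 : ∀ l, f l ≠ 0 := by
    intro l h
    have := hf l
    rw [h] at this
    simp at this
  choose! r hr0 hr using fun (l l' : Fin L) (h : l ≠ l') =>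
    Pool.Agent.Q41.ZP.bezout (hcop l l' h)
  choose s hs0 hs using fun l i => Pool.Agent.Q41.ZP.bezout (hfg l i)
  set E : ℕ := D + (∑ l, ∑ l', (r l l').natAbs) + ∑ l, ∑ i, (s l i).natAbs with hE
  refine (((Set.finite_iUnion fun l => finite_eval_zero (f l) (hf0 l)).union
    (Set.finite_iUnion fun l => siegel (f l) (hf l) E)).union
    (Set.finite_iUnion fun i => finite_eval_zero (g i) (hg i))).subset ?_
  intro t ht
  by_contra hcon
  simp only [Set.mem_union, Set.mem_iUnion, not_or, not_exists] at hcon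
  obtain ⟨⟨h1, h2⟩, h3⟩ := hcon
  apply ht
  have hp : ∀ l, ∃ p : ℕ, p.Prime ∧ E < p ∧ p ∣ ((f l).eval t).natAbs := by
    intro l
    by_contra hl
    apply h2 l
    refine ⟨h1 l, fun p hp hd => ?_⟩
    by_contra hlt
    exact hl ⟨p, hp, by omega, Int.natCast_dvd.1 hd⟩
  choose p hpp hpE hpd using hp
  refine ⟨h1, h3, p, fun l => ⟨hpp l, by have := hpE l; omega, hpd l⟩, ?_, ?_⟩
  · intro l l' hll h
    have h4 := hr l l' hll t (p l) (Int.natCast_dvd.2 (hpd l)) (Int.natCast_dvd.2 h)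
    have h5 := Nat.le_of_dvd (Int.natAbs_pos.2 (hr0 l l' hll)) (Int.natCast_dvd.1 h4)
    have h6 : (r l l').natAbs ≤ ∑ l, ∑ l', (r l l').natAbs :=
      (single_le_sum (f := fun l' => (r l l').natAbs) (fun _ _ => Nat.zero_le _)
        (mem_univ l')).trans
        (single_le_sum (f := fun l => ∑ l', (r l l').natAbs) (fun _ _ => Nat.zero_le _)
          (mem_univ l))
    have := hpE l
    omega
  · intro l i h
    have h4 := hs l i t (p l) (Int.natCast_dvd.2 (hpd l)) (Int.natCast_dvd.2 h)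
    have h5 := Nat.le_of_dvd (Int.natAbs_pos.2 (hs0 l i)) (Int.natCast_dvd.1 h4)
    have h6 : (s l i).natAbs ≤ ∑ l, ∑ i, (s l i).natAbs :=
      (single_le_sum (f := fun i => (s l i).natAbs) (fun _ _ => Nat.zero_le _)
        (mem_univ i)).trans
        (single_le_sum (f := fun l => ∑ i, (s l i).natAbs) (fun _ _ => Nat.zero_le _)
          (mem_univ l))
    have := hpE l
    omega

/-- the form modulo a prime which does not divide `t` -/
theorem dvd_eval_of_dvd_fv {N : ℕ} {f : ℤ[X]} (hf : f.natDegree ≤ N) {p : ℕ} (hp : p.Prime)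
    {s t x : ℤ} (ht : ¬ (p : ℤ) ∣ t) (hx : (p : ℤ) ∣ x * t - s) (h : (p : ℤ) ∣ fv N f s t) :
    (p : ℤ) ∣ f.eval x := by
  have h1 : (p : ℤ) ∣ fv N f (x * t) t := by
    have h2 : (p : ℤ) ∣ fv N f (x * t) t - fv N f s t := by
      unfold fv
      rw [← sum_sub_distrib]
      refine dvd_sum fun i _ => ?_
      have h3 : f.coeff i * (x * t) ^ i * t ^ (N - i) - f.coeff i * s ^ i * t ^ (N - i) =
          f.coeff i * t ^ (N - i) * ((x * t) ^ i - s ^ i) := by ring
      rw [h3]
      exact (hx.trans (sub_dvd_pow_sub_pow _ _ i)).mul_left _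
    have := dvd_add h2 h
    rwa [sub_add_cancel] at this
  have h4 : fv N f (x * t) t = t ^ N * f.eval x := by
    unfold fv
    rw [eval_eq_sum_range' (n := N + 1) (by omega), mul_sum]
    refine sum_congr rfl fun i hi => ?_
    have hi' : i ≤ N := by have := mem_range.1 hi; omega
    have h5 : t ^ N = t ^ (N - i) * t ^ i := by rw [← pow_add]; congr 1; omega
    rw [h5, mul_pow]
    ring
  rw [h4] at h1
  rcases (Nat.prime_iff_prime_int.1 hp).dvd_or_dvd h1 with h6 | h6
  · exact absurd ((Nat.prime_iff_prime_int.1 hp).dvd_of_dvd_pow h6) ht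
  · exact h6

theorem finite_fv_zero {N : ℕ} (f : ℤ[X]) (hf : f ≠ 0) (hN : f.natDegree ≤ N) :
    {z : ℤ × ℤ | IsCoprime z.1 z.2 ∧ fv N f z.1 z.2 = 0}.Finite := by
  classical
  -- the rational roots
  have hinj : Function.Injective (Int.castRingHom ℚ) := Int.cast_injective
  have hP : f.map (Int.castRingHom ℚ) ≠ 0 := (Polynomial.map_ne_zero_iff hinj).2 hf
  have hfin : {x : ℚ | aeval x f = 0}.Finite := by
    refine ((f.map (Int.castRingHom ℚ)).roots.toFinset.finite_toSet).subset ?_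
    intro x hx
    rw [Finset.mem_coe, Multiset.mem_toFinset, mem_roots hP, IsRoot, eval_map]
    exact hx
  have hfib : ∀ x : ℚ, {z : ℤ × ℤ | IsCoprime z.1 z.2 ∧ z.2 ≠ 0 ∧ (z.1 : ℚ) / z.2 = x}.Finite := by
    intro x
    refine (finite_box (max |(x.num : ℝ)| |(x.den : ℝ)|)).subset ?_
    rintro ⟨s, t⟩ ⟨hst, ht, hx⟩
    have ht' : (t : ℚ) ≠ 0 := by exact_mod_cast ht
    have h1 : s * x.den = x.num * t := by
      have h2 : (s : ℚ) * x.den = x.num * t := by
        have h4 : (x.den : ℚ) ≠ 0 := by exact_mod_cast x.den_ne_zero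
        have h3 : (x.num : ℚ) / x.den = (s : ℚ) / t := by
          rw [Rat.num_div_den]
          exact hx.symm
        rw [div_eq_div_iff h4 ht'] at h3
        exact h3.symm
      exact_mod_cast h2
    have hcop : IsCoprime x.num (x.den : ℤ) := Int.isCoprime_iff_gcd_eq_one.2 x.reduced
    have h5 : s ∣ x.num := by
      have : s ∣ x.num * t := ⟨_, h1.symm⟩
      exact hst.dvd_of_dvd_mul_right this
    have h6 : t ∣ (x.den : ℤ) := by
      have : t ∣ s * x.den := ⟨x.num, by rw [h1]; ring⟩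
      exact hst.symm.dvd_of_dvd_mul_left this
    constructor
    · refine le_trans ?_ (le_max_left _ _)
      by_cases hn : x.num = 0
      · have hs0 : s = 0 := by
          rw [hn, zero_mul] at h1
          rcases mul_eq_zero.1 h1 with h7 | h7
          · exact h7
          · exact absurd h7 (by exact_mod_cast x.den_ne_zero)
        simp [hs0]
      · have h7 := Int.le_of_dvd (abs_pos.2 hn) ((abs_dvd_abs s x.num).2 h5)
        exact_mod_cast h7
    · refine le_trans ?_ (le_max_right _ _)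
      have hd : (x.den : ℤ) ≠ 0 := by exact_mod_cast x.den_ne_zero
      have h7 := Int.le_of_dvd (abs_pos.2 hd) ((abs_dvd_abs t _).2 h6)
      exact_mod_cast h7
  refine ((hfin.biUnion fun x _ => hfib x).union (finite_box 1)).subset ?_
  rintro ⟨s, t⟩ ⟨hst, h0⟩
  by_cases ht : t = 0
  · right
    subst ht
    have hs1 : |s| = 1 := Int.isUnit_iff_abs_eq.1 (isCoprime_zero_right.1 hst)
    have hs2 : |(s : ℝ)| = 1 := by exact_mod_cast hs1
    exact ⟨hs2.le, by simp⟩
  · left
    rw [Set.mem_iUnion₂]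
    refine ⟨(s : ℚ) / t, ?_, hst, ht, rfl⟩
    have h1 := fvq hN (s := s) ht
    have h0' : fv N f s t = 0 := h0
    rw [h0', Int.cast_zero] at h1
    have ht' : (t : ℚ) ^ N ≠ 0 := pow_ne_zero _ (by exact_mod_cast ht)
    exact (mul_eq_zero.1 h1.symm).resolve_left ht'

/-- For all but finitely many pairs of coprime integers the values of pairwise coprime binary forms
with at least three different linear factors have large prime divisors of their own. -/
theorem family_pair {ι : Type*} [Fintype ι] {L : ℕ} (f : Fin L → ℤ[X])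
    (hf : ∀ l, 3 ≤ ((f l).rootSet ℂ).ncard)
    (hcop : ∀ l l', l ≠ l' →
      IsCoprime ((f l).map (Int.castRingHom ℚ)) ((f l').map (Int.castRingHom ℚ)))
    (g : ι → ℤ[X]) (hg : ∀ i, g i ≠ 0) (M : ι → ℕ) (hM : ∀ i, (g i).natDegree ≤ M i)
    (hfg : ∀ l i,
      IsCoprime ((f l).map (Int.castRingHom ℚ)) ((g i).map (Int.castRingHom ℚ))) (D : ℕ) :
    {z : ℤ × ℤ | IsCoprime z.1 z.2 ∧ ¬ ((∀ l, fv (f l).natDegree (f l) z.1 z.2 ≠ 0) ∧
      (∀ i, fv (M i) (g i) z.1 z.2 ≠ 0) ∧ ∃ p : Fin L → ℕ,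
      (∀ l, (p l).Prime ∧ D < p l ∧ p l ∣ (fv (f l).natDegree (f l) z.1 z.2).natAbs) ∧
      (∀ l l', l ≠ l' → ¬ p l ∣ (fv (f l').natDegree (f l') z.1 z.2).natAbs) ∧
      ∀ l i, ¬ p l ∣ (fv (M i) (g i) z.1 z.2).natAbs)}.Finite := by
  classical
  have hf0 : ∀ l, f l ≠ 0 := by
    intro l h
    have := hf l
    rw [h] at this
    simp at this
  choose! r hr0 hr using fun (l l' : Fin L) (h : l ≠ l') =>
    Pool.Agent.Q41.ZP.bezout (hcop l l' h)
  choose s hs0 hs using fun l i => Pool.Agent.Q41.ZP.bezout (hfg l i)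
  set E : ℕ := D + (∑ l, ∑ l', (r l l').natAbs) + (∑ l, ∑ i, (s l i).natAbs) +
    ∑ l, ((f l).leadingCoeff).natAbs with hE
  refine (((Set.finite_iUnion fun l => finite_fv_zero (f l) (hf0 l) le_rfl).union
    (Set.finite_iUnion fun l => mahler (f l) (hf l) E)).union
    (Set.finite_iUnion fun i => finite_fv_zero (g i) (hg i) (hM i))).subset ?_
  rintro ⟨u, v⟩ ⟨huv, ht⟩
  by_contra hcon
  simp only [Set.mem_union, Set.mem_iUnion, not_or, not_exists] at hcon
  obtain ⟨⟨h1, h2⟩, h3⟩ := hcon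
  have h1' : ∀ l, fv (f l).natDegree (f l) u v ≠ 0 := fun l h => h1 l ⟨huv, h⟩
  have h3' : ∀ i, fv (M i) (g i) u v ≠ 0 := fun i h => h3 i ⟨huv, h⟩
  apply ht
  have hp : ∀ l, ∃ p : ℕ, p.Prime ∧ E < p ∧ p ∣ (fv (f l).natDegree (f l) u v).natAbs := by
    intro l
    by_contra hl
    apply h2 l
    refine ⟨huv, h1' l, fun p hp hd => ?_⟩
    by_contra hlt
    exact hl ⟨p, hp, by omega, Int.natCast_dvd.1 hd⟩
  choose p hpp hpE hpd using hp
  -- the primes do not divide `v`
  have hpv : ∀ l, ¬ (p l : ℤ) ∣ v := by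
    intro l h
    have h4 : (p l : ℤ) ∣ (f l).coeff (f l).natDegree * u ^ (f l).natDegree := by
      have h5 := h.trans (fv_mod (f l).natDegree (f l) u v)
      have h6 := dvd_sub (Int.natCast_dvd.2 (hpd l)) h5
      rwa [sub_sub_cancel] at h6
    rcases (Nat.prime_iff_prime_int.1 (hpp l)).dvd_or_dvd h4 with h5 | h5
    · have h6 := Nat.le_of_dvd (Int.natAbs_pos.2 (leadingCoeff_ne_zero.2 (hf0 l)))
        (Int.natCast_dvd.1 h5)
      have h7 : ((f l).leadingCoeff).natAbs ≤ ∑ l, ((f l).leadingCoeff).natAbs :=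
        single_le_sum (f := fun l => ((f l).leadingCoeff).natAbs) (fun _ _ => Nat.zero_le _)
          (mem_univ l)
      have := hpE l
      change p l ≤ ((f l).leadingCoeff).natAbs at h6
      omega
    · have h6 := (Nat.prime_iff_prime_int.1 (hpp l)).dvd_of_dvd_pow h5
      exact (Nat.prime_iff_prime_int.1 (hpp l)).not_isUnit (huv.isUnit_of_dvd' h6 h)
  -- the quotient modulo the prime
  have hx : ∀ l, ∃ x : ℤ, (p l : ℤ) ∣ x * v - u := by
    intro l
    have hc : IsCoprime (p l : ℤ) v :=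
      (Nat.prime_iff_prime_int.1 (hpp l)).irreducible.coprime_iff_not_dvd.2 (hpv l)
    obtain ⟨a, b, hab⟩ := hc
    refine ⟨u * b, -(u * a), ?_⟩
    linear_combination u * hab
  choose x hx using hx
  refine ⟨h1', h3', p, fun l => ⟨hpp l, by have := hpE l; omega, hpd l⟩, ?_, ?_⟩
  · intro l l' hll h
    have e1 := dvd_eval_of_dvd_fv le_rfl (hpp l) (hpv l) (hx l) (Int.natCast_dvd.2 (hpd l))
    have e2 := dvd_eval_of_dvd_fv le_rfl (hpp l) (hpv l) (hx l) (Int.natCast_dvd.2 h)
    have h4 := hr l l' hll (x l) (p l) e1 e2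
    have h5 := Nat.le_of_dvd (Int.natAbs_pos.2 (hr0 l l' hll)) (Int.natCast_dvd.1 h4)
    have h6 : (r l l').natAbs ≤ ∑ l, ∑ l', (r l l').natAbs :=
      (single_le_sum (f := fun l' => (r l l').natAbs) (fun _ _ => Nat.zero_le _)
        (mem_univ l')).trans
        (single_le_sum (f := fun l => ∑ l', (r l l').natAbs) (fun _ _ => Nat.zero_le _)
          (mem_univ l))
    have := hpE l
    omega
  · intro l i h
    have e1 := dvd_eval_of_dvd_fv le_rfl (hpp l) (hpv l) (hx l) (Int.natCast_dvd.2 (hpd l))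
    have e2 := dvd_eval_of_dvd_fv (hM i) (hpp l) (hpv l) (hx l) (Int.natCast_dvd.2 h)
    have h4 := hs l i (x l) (p l) e1 e2
    have h5 := Nat.le_of_dvd (Int.natAbs_pos.2 (hs0 l i)) (Int.natCast_dvd.1 h4)
    have h6 : (s l i).natAbs ≤ ∑ l, ∑ i, (s l i).natAbs :=
      (single_le_sum (f := fun i => (s l i).natAbs) (fun _ _ => Nat.zero_le _)
        (mem_univ i)).trans
        (single_le_sum (f := fun l => ∑ i, (s l i).natAbs) (fun _ _ => Nat.zero_le _)
          (mem_univ l))
    have := hpE l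
    omega

end Pool.Agent.Q57.ZP
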