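import Pool.Agent.Q41.ZP.Basic
import Pool.Agent.Q41.ZP.Ind
import Pool.Agent.Results.MP_e573c6_ag.FourPlaces

/-!
Scaling vectors which are spread out at four primes (helper file for Zilber-Pink for curves).
-/

set_option autoImplicit false

namespace Pool.Agent.Q57.ZP

open Finset Pool.Agent.Results.MP_e573c6_ag.FourPlaces Pool.Agent.Q41.ZP

/-- A scaling vector whose factors have large prime divisors of their own is spread out at four
primes. -/
theorem spread4_of_primes {n T D : ℕ} (a : Fin 4 → Fin n → ℕ) (ha : IndependentExponents T a)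
    {u : Fin 4 → ℕ} (hu : ∀ l, u l ≠ 0) {b : Fin n → ℕ} (hb : ∀ i, b i ≠ 0)
    (p : Fin 4 → ℕ) (hp : ∀ l, (p l).Prime ∧ D < p l) (hdvd : ∀ l, p l ∣ u l)
    (h1 : ∀ l l', l ≠ l' → ¬ p l ∣ u l') (h2 : ∀ l i, ¬ p l ∣ b i) :
    Spread T D (fun i => b i * ∏ l, u l ^ a l i) := by
  have hfac := fac_prod hu hb a h1 h2
  have hpos : ∀ l : Fin 4, 0 < (u l).factorization (p l) := fun l =>
    (hp l).1.factorization_pos_of_dvd (hu l) (hdvd l)
  refine ⟨p, hp, ?_, ?_⟩
  · intro l i
    show 0 < (b i * ∏ l, u l ^ a l i).factorization (p l)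
    rw [hfac]
    exact Nat.mul_pos (ha.1 l i) (hpos l)
  · intro l l' hll i j hij q hq0 hq h
    simp only [hfac] at h
    refine ha.2 l l' hll i j hij q hq0 hq (Pool.Agent.W466.ZC.isSquare_of_mul_sq
      (m := (u l).factorization (p l) * (u l').factorization (p l'))
      (Nat.mul_pos (hpos l) (hpos l')) ?_)
    convert h using 1
    ring

end Pool.Agent.Q57.ZP
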