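import Pool.Agent.Q57.ZP.Mix

/-!
The local criterion for points of the total space of a family of correspondences between a projective
algebraic set and a product of modular curves and a torus (helper file).
-/

set_option autoImplicit false

open Function UpperHalfPlane H294ZP MvPolynomial Pool.Agent.W466.ZC

namespace Pool.Agent.Q57.ZP

open Pool.Agent.TH526.ZL (exists_place1 coreM good_place unit_of_int)
open Pool.Agent

/-- Scaling of algebraically independent numbers. -/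
theorem algInd_smul {F : Type} [Field F] [Algebra F ℂ] {ι : Type*} {z : ι → ℂ}
    (hz : AlgebraicIndependent F z) (u : ι → F) (hu : ∀ i, u i ≠ 0) :
    AlgebraicIndependent F (fun i => algebraMap F ℂ (u i) * z i) := by
  have key : (aeval (fun i => algebraMap F ℂ (u i) * z i) : MvPolynomial ι F →ₐ[F] ℂ) =
      (aeval z : MvPolynomial ι F →ₐ[F] ℂ).comp
        (aeval (fun i => C (u i) * X i) : MvPolynomial ι F →ₐ[F] MvPolynomial ι F) := by
    refine MvPolynomial.algHom_ext fun i => ?_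
    simp
  have hinv : ∀ p : MvPolynomial ι F,
      (aeval (fun i => C (u i)⁻¹ * X i) : MvPolynomial ι F →ₐ[F] MvPolynomial ι F)
        ((aeval (fun i => C (u i) * X i) : MvPolynomial ι F →ₐ[F] MvPolynomial ι F) p) = p := by
    intro p
    have h : ((aeval (fun i => C (u i)⁻¹ * X i) : MvPolynomial ι F →ₐ[F] MvPolynomial ι F).comp
        (aeval (fun i => C (u i) * X i) : MvPolynomial ι F →ₐ[F] MvPolynomial ι F)) =
        AlgHom.id F _ := by
      refine MvPolynomial.algHom_ext fun i => ?_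
      simp only [AlgHom.comp_apply, aeval_X, map_mul, AlgHom.id_apply]
      rw [← MvPolynomial.algebraMap_eq, AlgHom.commutes, MvPolynomial.algebraMap_eq, ← mul_assoc,
        ← C_mul, mul_inv_cancel₀ (hu i), C_1, one_mul]
    exact congrArg (fun f => f p) h
  rw [AlgebraicIndependent, key]
  intro p q hpq
  simp only [AlgHom.comp_apply] at hpq
  have h1 := hz hpq
  rw [← hinv p, ← hinv q, h1]

/-- The local criterion, for points of the total space. -/
theorem criterionH {Λ : Type} [CommRing Λ] [IsDomain Λ] [Algebra Λ ℂ] {F : Type} [Field F]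
    [Algebra F ℂ] {κ : Type*} {N n k m : ℕ} (G : κ → MvPolynomial (Fin (N + 1)) Λ)
    (hG : ∀ i, ∃ e, (G i).IsHomogeneous e)
    (A B : (Fin n ⊕ Fin k) ⊕ Fin (N + 1) → MvPolynomial (Fin (N + 1)) Λ)
    (hAX : ∀ a, A (Sum.inr a) = X a) (hBX : ∀ a, B (Sum.inr a) = 1)
    (d : Fin n ⊕ Fin k → ℕ) (hA : ∀ i, (A (Sum.inl i)).IsHomogeneous (d i))
    (hB : ∀ i, (B (Sum.inl i)).IsHomogeneous (d i))
    (R : Fin n → Polynomial (Polynomial Λ)) (hR : ∀ i, (R i).Monic) {T : ℕ}
    (hT : ∀ i u w, ((R i).coeff u).coeff w ≠ 0 → u ≤ T ∧ w ≤ T)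
    (c : Fin n ⊕ Fin k → Λ) (𝔭 : Fin (n.choose 2 + k * 2 ^ k + 1) → Ideal Λ)
    (h𝔭 : ∀ l, (𝔭 l).IsPrime)
    (hpos : ∀ l (F : Type) [Field F] (φ : Λ →+* F), RingHom.ker φ = 𝔭 l →
      ∀ I : Finset ((Fin n ⊕ Fin k) ⊕ Fin (N + 1)),
      I.card = m + 1 → ∀ y : Fin (N + 1) → F, y ≠ 0 → (∀ k, eval₂ φ y (G k) = 0) →
      ∃ i ∈ I, eval₂ φ y (A i) * eval₂ φ y (B i) ≠ 0)
    (hRu : ∀ l i u w, ((R i).coeff u).coeff w ≠ 0 → ((R i).coeff u).coeff w ∉ 𝔭 l)
    (π : Fin (n.choose 2 + k * 2 ^ k + 1) → Λ) (hπ : ∀ l, π l ∈ 𝔭 l)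
    (hπ0 : ∀ l, algebraMap Λ ℂ (π l) ≠ 0)
    (e : Fin (n.choose 2 + k * 2 ^ k + 1) → Fin n ⊕ Fin k → ℕ) (he : ∀ l i, 0 < e l i)
    (hc : ∀ l i, ∃ a b : Λ, a ∉ 𝔭 l ∧ b ∉ 𝔭 l ∧ a * c i = b * π l ^ e l i)
    (hsq : ∀ l l', l ≠ l' → ∀ i j : Fin n, i ≠ j → ∀ q, 0 < q → q ≤ T ^ 8 →
      ¬ IsSquare (q * (e l (Sum.inl i) * e l (Sum.inl j) *
        (e l' (Sum.inl i) * e l' (Sum.inl j)))))
    (hlin : ∀ (s : Finset (Fin (n.choose 2 + k * 2 ^ k + 1))) (b : Fin k → ℤ), k ≤ s.card →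
      (∀ l ∈ s, ∑ j, b j * (e l (Sum.inr j) : ℤ) = 0) → b = 0)
    {r : ℕ} (cls : Fin n → Option (Fin r)) (Q : Fin n → Fin n → ℕ) (x : Fin n ⊕ Fin k → ℂ)
    (s : Fin n → ℂ) (M : Submodule ℤ (Fin k → ℤ)) (η : Fin k → ℂ)
    (hQ : ∀ i j, 0 < Q i j)
    (hconst : ∀ i, cls i = none → IsIntegral Λ (x (Sum.inl i)))
    (hrel : ∀ i j l, cls i = some l → cls j = some l →
        IsIntegral (Algebra.adjoin ℤ {x (Sum.inl i)}) (x (Sum.inl j)) ∧
        Polynomial.eval₂ (Polynomial.aeval (x (Sum.inl i)) : Polynomial ℂ →ₐ[ℂ] ℂ).toRingHom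
          (x (Sum.inl j)) (W282.ZP.Psi (Q i j)) = 0)
    (hRs : ∀ i, Polynomial.eval₂
      (Polynomial.aeval (x (Sum.inl i)) : Polynomial Λ →ₐ[Λ] ℂ).toRingHom (s i) (R i) = 0)
    (hx0 : ∀ j, x (Sum.inr j) ≠ 0) (hηF : ∀ j, ∃ u : F, η j = algebraMap F ℂ u)
    (hη0 : ∀ j, η j ≠ 0) (hη1 : ∀ j, IsIntegral Λ (η j)) (hη2 : ∀ j, IsIntegral Λ (η j)⁻¹)
    (hM : ∀ a ∈ M, W282.ZP.chi (fun j => x (Sum.inr j)) a = W282.ZP.chi η a)
    (y : Fin (N + 1) → ℂ) (j0 : Fin (N + 1)) (hyj0 : y j0 = 1) (hyG : ∀ i, aeval y (G i) = 0)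
    (hxy1 : ∀ i, algebraMap Λ ℂ (c (Sum.inl i)) * aeval y (B (Sum.inl (Sum.inl i))) * s i =
      aeval y (A (Sum.inl (Sum.inl i))))
    (hxy2 : ∀ j, algebraMap Λ ℂ (c (Sum.inr j)) * aeval y (B (Sum.inl (Sum.inr j))) *
      x (Sum.inr j) = aeval y (A (Sum.inl (Sum.inr j))))
    (S : Finset (Fin n ⊕ Fin k)) (T1 : Finset (Fin (N + 1)))
    (hS : AlgebraicIndependent Λ (fun i : S => x i))
    (hST : ∀ l, AlgebraicIndependent Λ (Sum.elim (fun i : S => x i)
      (fun a : T1 => (algebraMap Λ ℂ (π l))⁻¹ * y a)))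
    (hSF : AlgebraicIndependent F (fun i : S => x i)) :
    S.card + T1.card + n + Module.finrank ℤ M ≤ r + m := by
  classical
  choose V hV1 hV2 hVx using fun l => exists_place1 (𝔭 l) _ (hST l)
  have hy0 : y ≠ 0 := by
    intro h
    rw [h] at hyj0
    exact zero_ne_one hyj0
  have hunit : ∀ l (a : Λ), a ∉ 𝔭 l → (V l).valuation (algebraMap Λ ℂ a) = 1 := by
    intro l a ha
    refine le_antisymm (hV1 l a) ?_
    by_contra h
    push Not at h
    exact ha ((hV2 l a).1 h)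
  have hVy : ∀ l, ∀ a ∈ T1, (V l).valuation (y a) < 1 := by
    intro l a ha
    have h1 := hVx l (Sum.inr ⟨a, ha⟩)
    simp only [Sum.elim_inr, map_mul, map_inv₀] at h1
    have h2 : (V l).valuation (algebraMap Λ ℂ (π l)) < 1 := (hV2 l _).2 (hπ l)
    have h3 : (V l).valuation (algebraMap Λ ℂ (π l)) ≠ 0 := (Valuation.ne_zero_iff _).2 (hπ0 l)
    have h4 : (V l).valuation (y a) = (V l).valuation (algebraMap Λ ℂ (π l)) := by
      have h5 := congrArg (fun z => (V l).valuation (algebraMap Λ ℂ (π l)) * z) h1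
      simp only [mul_one] at h5
      rwa [mul_inv_cancel_left₀ h3] at h5
    rw [h4]
    exact h2
  -- the bad indices at the place `l`
  have hplace : ∀ l, ∃ E : Finset (Fin n ⊕ Fin k), E.card + T1.card ≤ m ∧
      (∀ i, Sum.inl i ∉ E →
        (V l).valuation (s i) * (V l).valuation (algebraMap Λ ℂ (π l)) ^ e l (Sum.inl i) = 1) ∧
      ∀ j, Sum.inr j ∉ E → (V l).valuation (x (Sum.inr j)) *
        (V l).valuation (algebraMap Λ ℂ (π l)) ^ e l (Sum.inr j) = 1 := by
    intro l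
    obtain ⟨t, ht0, hAB, hI⟩ := good_place G hG A B (hpos l) (V l) (hV1 l) (hV2 l) y hy0 hyG
    have hsm : ∀ (P : MvPolynomial (Fin (N + 1)) Λ) (f : ℕ), P.IsHomogeneous f →
        aeval (t • y) P = t ^ f * aeval y P := by
      intro P f hP
      have h1 := eval_smul (hP.map (algebraMap Λ ℂ)) t y
      rwa [eval_map, eval_map, ← aeval_def, ← aeval_def] at h1
    have hval : ∀ i (z : ℂ), (V l).valuation (aeval (t • y) (A (Sum.inl i)) *
          aeval (t • y) (B (Sum.inl i))) = 1 →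
        algebraMap Λ ℂ (c i) * aeval y (B (Sum.inl i)) * z = aeval y (A (Sum.inl i)) →
        (V l).valuation z * (V l).valuation (algebraMap Λ ℂ (π l)) ^ e l i = 1 := by
      intro i z h1 hz
      have hA1 := (ValuationSubring.valuation_le_one_iff _ _).2 (hAB (Sum.inl i)).1
      have hB1 := (ValuationSubring.valuation_le_one_iff _ _).2 (hAB (Sum.inl i)).2
      rw [map_mul] at h1
      have hA2 : (V l).valuation (aeval (t • y) (A (Sum.inl i))) = 1 := by
        refine le_antisymm hA1 ?_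
        by_contra h
        push Not at h
        have h2 := (mul_le_of_le_one_right' hB1).trans_lt h
        rw [h1] at h2
        exact lt_irrefl _ h2
      have hB2 : (V l).valuation (aeval (t • y) (B (Sum.inl i))) = 1 := by
        rw [hA2, one_mul] at h1
        exact h1
      have h3 : algebraMap Λ ℂ (c i) * aeval (t • y) (B (Sum.inl i)) * z =
          aeval (t • y) (A (Sum.inl i)) := by
        rw [hsm _ _ (hA i), hsm _ _ (hB i), ← hz]
        ring
      have h4 := congrArg (V l).valuation h3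
      rw [map_mul, map_mul, hA2, hB2, mul_one] at h4
      obtain ⟨a, b, ha, hb, hab⟩ := hc l i
      have h5 := congrArg (fun z => (V l).valuation (algebraMap Λ ℂ z)) hab
      simp only [map_mul, map_pow, hunit l a ha, hunit l b hb, one_mul] at h5
      rw [← h5, mul_comm]
      exact h4
    let E₀ : Finset ((Fin n ⊕ Fin k) ⊕ Fin (N + 1)) := Finset.univ.filter fun i =>
      ¬ (V l).valuation (aeval (t • y) (A i) * aeval (t • y) (B i)) = 1
    have hE₀ : E₀.card ≤ m := by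
      by_contra h
      push Not at h
      obtain ⟨I, hIE, hIc⟩ := Finset.exists_subset_card_eq (Nat.succ_le_of_lt h)
      obtain ⟨i, hi, h1⟩ := hI I hIc
      exact (Finset.mem_filter.1 (hIE hi)).2 h1
    have ht1 : (V l).valuation t ≤ 1 := by
      have h1 := (hAB (Sum.inr j0)).1
      rw [hAX, aeval_X, Pi.smul_apply, smul_eq_mul, hyj0, mul_one] at h1
      exact (ValuationSubring.valuation_le_one_iff _ _).2 h1
    have hTE : T1 ⊆ E₀.toRight := by
      intro a ha
      rw [Finset.mem_toRight, Finset.mem_filter]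
      refine ⟨Finset.mem_univ _, fun h => ?_⟩
      rw [hAX, hBX, aeval_X, map_one, mul_one, Pi.smul_apply, smul_eq_mul, map_mul] at h
      have h1 : (V l).valuation t * (V l).valuation (y a) < 1 :=
        (mul_le_of_le_one_left' ht1).trans_lt (hVy l a ha)
      rw [h] at h1
      exact lt_irrefl _ h1
    refine ⟨E₀.toLeft, ?_, ?_, ?_⟩
    · have h1 := Finset.card_le_card hTE
      have h2 := E₀.card_toLeft_add_card_toRight
      omega
    · intro i hi
      rw [Finset.mem_toLeft, Finset.mem_filter] at hi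
      push Not at hi
      exact hval _ _ (hi (Finset.mem_univ _)) (hxy1 i)
    · intro j hj
      rw [Finset.mem_toLeft, Finset.mem_filter] at hj
      push Not at hj
      exact hval _ _ (hj (Finset.mem_univ _)) (hxy2 j)
  have hT1m : T1.card ≤ m := by
    obtain ⟨E, hE, -⟩ := hplace 0
    omega
  have hmain := coreM (m := m - T1.card) R hR hT e he hsq hlin cls Q x s M η hQ hconst hrel hRs hx0
    hηF hM S hS hSF V
    (fun l => (V l).valuation (algebraMap Λ ℂ (π l)))
    (fun l => (Valuation.ne_zero_iff _).2 (hπ0 l)) (fun l => (hV2 l (π l)).2 (hπ l)) hV1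
    (fun l i u w h0 => hunit l _ (hRu l i u w h0)) (fun l i => hVx l (Sum.inl i))
    (fun l j => unit_of_int (V l) (hV1 l) (hη0 j) (hη1 j) (hη2 j)) (by
      intro l
      obtain ⟨E, hE, h1, h2⟩ := hplace l
      exact ⟨E, by omega, h1, h2⟩)
  omega

end Pool.Agent.Q57.ZP
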