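import Pool.Agent.Q57.ZP.HodA

/-!
The local criterion for total spaces of families of correspondences between projective algebraic sets
and products of modular curves and tori, scaled by arbitrary units (helper file).
-/

set_option autoImplicit false

namespace Pool.Agent.Q57.ZP

open H294ZP UpperHalfPlane MvPolynomial Pool.Agent.W282.ZP Pool.Agent.Y910.Z
open Pool.Agent.TH526.ZL (spec)
open Pool.Agent.Results.MP_a325a5_ag.FinitelyGeneratedFields

/-- No point of `B_t` lies on `m + 1` of the divisors of the `A i / B i` and of the coordinate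
hyperplanes. -/
def GenPos {K : Subfield ℂ} (t : ℂ) {N n k : ℕ} {κ : Type} (m : ℕ)
    (G : κ → MvPolynomial (Fin (N + 1)) (Polynomial K))
    (A B : Fin n ⊕ Fin k → MvPolynomial (Fin (N + 1)) (Polynomial K)) : Prop :=
  ∀ I : Finset ((Fin n ⊕ Fin k) ⊕ Fin (N + 1)), I.card = m + 1 → ∀ y : Fin (N + 1) → ℂ, OnB t G y →
    ∃ i ∈ I, Sum.elim (fun i => eval₂ (evalAt K t) y (A i) * eval₂ (evalAt K t) y (B i)) y i ≠ 0

/-- The criterion. -/
theorem tot_crit (K : Subfield ℂ) (κ : Type) [Finite κ] (N n k m M T : ℕ)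
    (G : κ → MvPolynomial (Fin (N + 1)) (Polynomial K)) (hG : ∀ l, ∃ e, (G l).IsHomogeneous e)
    (A B : Fin n ⊕ Fin k → MvPolynomial (Fin (N + 1)) (Polynomial K)) (δ : Fin n ⊕ Fin k → ℕ)
    (hA : ∀ i, (A i).IsHomogeneous (δ i)) (hB : ∀ i, (B i).IsHomogeneous (δ i))
    (R : Fin n → Polynomial (Polynomial K)) (hR : ∀ i, (R i).Monic)
    (hT : ∀ i u w, ((R i).coeff u).coeff w ≠ 0 → u ≤ T ∧ w ≤ T)
    (c : Fin n ⊕ Fin k → Polynomial K) (hc : ∀ i, c i ≠ 0) (D : Fin M → Finset ℂ)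
    (hD : ∀ l, ∀ α ∈ D l, IsAlgebraic K α) (hind : IndependentOrders T c D)
    (hpos : ∀ l, ∀ α ∈ D l, GenPos α m G A B)
    (Γ : Finset ℂ) (hΓ : ∀ γ ∈ Γ, IsAlgebraic K γ) (F : Finset ℂ)
    (hF : ∀ z ∈ F, IsAlgebraic K z) (P : Finset ℂ) (hP : ∀ z ∈ P, IsAlgebraic K z)
    (hPD : ∀ l, ∀ α ∈ D l, α ∉ P) :
    ∃ W : Finset ℂ, F ⊆ W ∧ ∀ t : ℂ, IsAlgebraic K t → t ∉ Finset.univ.biUnion D →
      ∀ w : Fin n ⊕ Fin k → ℂ, (∀ i, UnitOf (gens W P t) (w i)) →
      (∃ f : Fin (n.choose 2 + k * 2 ^ k + 1) → Fin M, Function.Injective f ∧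
        ∀ l, ∃ a ∈ D (f l), ¬ Bad (W : Set ℂ) t a) →
      ∀ (r : ℕ) (Z : SpecialVariety (algebraMap (Algebra.adjoin ℤ (Γ : Set ℂ)) ℂ) n r)
        (Ms : Submodule ℤ (Fin k → ℤ)) (η : Fin k → ℂ),
        (∀ j, η j ≠ 0 ∧ (algebraMap (Algebra.adjoin ℤ (Γ : Set ℂ)) ℂ).IsIntegralElem (η j) ∧
          (algebraMap (Algebra.adjoin ℤ (Γ : Set ℂ)) ℂ).IsIntegralElem (η j)⁻¹) →
        ∀ (y : Fin (N + 1) → ℂ) (j0 : Fin (N + 1)), y j0 = 1 → OnB t G y →
        ∀ (x : Fin n ⊕ Fin k → ℂ) (s : Fin n → ℂ), (∀ j, x (Sum.inr j) ≠ 0) →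
        (∀ i, valueAt (R i) (s i) (x (Sum.inl i)) = 0 ∧
          w (Sum.inl i) * evalAt K t (c (Sum.inl i)) * eval₂ (evalAt K t) y (B (Sum.inl i)) * s i =
            eval₂ (evalAt K t) y (A (Sum.inl i))) →
        (∀ j, w (Sum.inr j) * evalAt K t (c (Sum.inr j)) * eval₂ (evalAt K t) y (B (Sum.inr j)) *
          x (Sum.inr j) = eval₂ (evalAt K t) y (A (Sum.inr j))) →
        (fun i => x (Sum.inl i)) ∈ Z.locus → (fun j => x (Sum.inr j)) ∈ coset Ms η →
        ∀ (S : Finset (Fin n ⊕ Fin k)) (T1 : Finset (Fin (N + 1))),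
        AlgebraicIndependent K (Sum.elim (fun i : S => x i) (fun a : T1 => y a)) →
        S.card + T1.card + n + Module.finrank ℤ Ms ≤ r + m := by
  classical
  let kk := algebraicClosure K ℂ
  have hcl : IsAlgClosure K kk := inferInstance
  have hac : IsAlgClosed kk := hcl.isAlgClosed
  have hc0k : CharZero kk := inferInstance
  let φ : Polynomial K →+* Polynomial kk := Polynomial.mapRingHom (algebraMap K kk)
  have hev : ∀ (t : kk), (algebraMap kk ℂ).comp ((Polynomial.evalRingHom t).comp φ) =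
      evalAt K (algebraMap kk ℂ t) := by
    intro t
    refine Polynomial.ringHom_ext (fun a => ?_) ?_
    · simp only [φ, evalAt, RingHom.comp_apply, Polynomial.coe_mapRingHom, Polynomial.map_C,
        Polynomial.coe_evalRingHom, Polynomial.eval_C, AlgHom.toRingHom_eq_coe, RingHom.coe_coe,
        Polynomial.aeval_C]
      rfl
    · simp only [φ, evalAt, RingHom.comp_apply, Polynomial.coe_mapRingHom, Polynomial.map_X,
        Polynomial.coe_evalRingHom, Polynomial.eval_X, AlgHom.toRingHom_eq_coe, RingHom.coe_coe,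
        Polynomial.aeval_X]
  have hspec : ∀ (t : kk) (P : MvPolynomial (Fin (N + 1)) (Polynomial K)) (y : Fin (N + 1) → ℂ),
      aeval y (spec t (MvPolynomial.map φ P)) =
        eval₂ (evalAt K (algebraMap kk ℂ t)) y P := by
    intro t P y
    rw [spec, MvPolynomial.map_map, aeval_def, eval₂_map, hev]
  have hmult : ∀ (α : kk) (i : Fin n ⊕ Fin k), (φ (c i)).rootMultiplicity α =
      order (c i) (algebraMap kk ℂ α) := by
    intro α i
    have h1 := Polynomial.eq_rootMultiplicity_map (p := φ (c i)) (f := algebraMap kk ℂ)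
      (algebraMap kk ℂ).injective α
    rw [h1]
    simp only [φ, order, Polynomial.coe_mapRingHom, Polynomial.map_map]
    rfl
  -- finite sets of algebraic numbers
  have hlift : ∀ S : Finset ℂ, (∀ z ∈ S, IsAlgebraic K z) → ∃ S' : Finset kk,
      (∀ z : kk, z ∈ S' ↔ algebraMap kk ℂ z ∈ S) ∧
      algebraMap kk ℂ '' (S' : Set kk) = (S : Set ℂ) := by
    intro S hS
    have hmem : ∀ z ∈ S, z ∈ algebraicClosure K ℂ := fun z hz =>
      mem_algebraicClosure_iff'.2 (hS z hz).isIntegral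
    have h1 : ∀ z : kk, z ∈ (S.attach.image fun z => (⟨z.1, hmem z.1 z.2⟩ : kk)) ↔
        algebraMap kk ℂ z ∈ S := by
      intro z
      constructor
      · intro hz
        obtain ⟨w, _, hw⟩ := Finset.mem_image.1 hz
        rw [← hw]
        exact w.2
      · intro hz
        exact Finset.mem_image.2 ⟨⟨z.1, hz⟩, Finset.mem_attach _ _, rfl⟩
    refine ⟨S.attach.image fun z => ⟨z.1, hmem z.1 z.2⟩, h1, ?_⟩
    ext z
    constructor
    · rintro ⟨w, hw, rfl⟩
      exact (h1 w).1 hw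
    · intro hz
      exact ⟨⟨z, hmem z hz⟩, (h1 _).2 hz, rfl⟩
  obtain ⟨Γf, -, hΓf⟩ := hlift Γ hΓ
  let Γ' : Set kk := (Γf : Set kk)
  have hΓ' : algebraMap kk ℂ '' Γ' = (Γ : Set ℂ) := hΓf
  obtain ⟨F', -, hF'⟩ := hlift F hF
  choose D' hD' hD'im using fun l => hlift (D l) (hD l)
  let Rt : Finset kk := Finset.univ.biUnion D'
  have hRt : ∀ α : kk, α ∈ Rt ↔ ∃ l, α ∈ D' l := by
    intro α
    simp only [Rt, Finset.mem_biUnion, Finset.mem_univ, true_and]
  let ρt : Fin Rt.card → kk := fun l => (Rt.equivFin.symm l : kk)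
  have hρ : ∀ α ∈ Rt, ∃ l, ρt l = α := by
    intro α hα
    refine ⟨Rt.equivFin ⟨α, hα⟩, ?_⟩
    simp [ρt]
  have hρ' : ∀ l, ρt l ∈ Rt := fun l => (Rt.equivFin.symm l).2
  have hc0 : ∀ i, φ (c i) ≠ 0 := fun i =>
    (Polynomial.map_ne_zero_iff (algebraMap K kk).injective).2 (hc i)
  let AX : (Fin n ⊕ Fin k) ⊕ Fin (N + 1) → MvPolynomial (Fin (N + 1)) (Polynomial kk) :=
    Sum.elim (fun i => MvPolynomial.map φ (A i)) (fun a => X a)
  let BX : (Fin n ⊕ Fin k) ⊕ Fin (N + 1) → MvPolynomial (Fin (N + 1)) (Polynomial kk) :=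
    Sum.elim (fun i => MvPolynomial.map φ (B i)) (fun _ => 1)
  let cX : (Fin n ⊕ Fin k) ⊕ Fin (N + 1) → Polynomial kk :=
    Sum.elim (fun i => φ (c i)) (fun _ => 1)
  obtain ⟨W₀, hW₀, hΓW₀, hρW₀, hnear⟩ := nearR (k := kk) (m := m) (M := Rt.card)
    (fun i => MvPolynomial.map φ (G i)) AX BX (fun i => (R i).map φ) cX ρt (by
      rintro (i | a)
      · exact hc0 i
      · exact one_ne_zero)
    (fun l I hI y h1 h2 => by
      by_contra h0
      obtain ⟨l', hl'⟩ := (hRt _).1 (hρ' l)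
      obtain ⟨i, hi, h3⟩ := hpos l' _ ((hD' _ _).1 hl') I hI y ⟨h0, fun i => by
        have h4 := h1 i
        rw [hspec] at h4
        exact h4⟩
      apply h3
      have h4 := h2 i hi
      rcases i with i | a
      · simp only [AX, BX, Sum.elim_inl] at h4
        rw [hspec, hspec] at h4
        exact h4
      · simp only [AX, BX, Sum.elim_inr, spec, MvPolynomial.map_X, map_one, mul_one,
          aeval_X] at h4
        exact h4)
    Γ' (Set.toFinite _)
  obtain ⟨P', hP', hP'im⟩ := hlift P hP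
  let Q : Finset kk := (Rt ×ˢ P').image fun q => (q.1 - q.2)⁻¹
  let W : Finset kk := (hW₀.toFinset ∪ F') ∪ (P' ∪ Q)
  have hW₀W : W₀ ⊆ (W : Set kk) := by
    intro z hz
    simp only [W, Finset.coe_union, Set.mem_union, Finset.mem_coe, Set.Finite.mem_toFinset]
    exact Or.inl (Or.inl hz)
  have hFW' : ∀ z ∈ F', z ∈ W := by
    intro z hz
    simp only [W, Finset.mem_union]
    exact Or.inl (Or.inr hz)
  have hPW' : ∀ z ∈ P', z ∈ W := by
    intro z hz
    simp only [W, Finset.mem_union]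
    exact Or.inr (Or.inl hz)
  have hQW' : ∀ a ∈ Rt, ∀ b ∈ P', (a - b)⁻¹ ∈ W := by
    intro a ha b hb
    simp only [W, Finset.mem_union]
    exact Or.inr (Or.inr (Finset.mem_image.2 ⟨(a, b), Finset.mem_product.2 ⟨ha, hb⟩, rfl⟩))
  let WC : Finset ℂ := W.image (algebraMap kk ℂ)
  -- the core
  have core : ∀ (t : kk), t ∉ Rt → ∀ w : Fin n ⊕ Fin k → ℂ,
      (∀ i, UnitOf (gens WC P (algebraMap kk ℂ t)) (w i)) →
      (∃ f : Fin (n.choose 2 + k * 2 ^ k + 1) → Fin M,
      Function.Injective f ∧ ∀ l, ∃ a ∈ D' (f l), ¬ Bad (W : Set kk) t a) →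
      ∀ (r : ℕ) (Z : SpecialVariety (algebraMap (Algebra.adjoin ℤ (Γ : Set ℂ)) ℂ) n r)
        (Ms : Submodule ℤ (Fin k → ℤ)) (η : Fin k → ℂ),
        (∀ j, η j ≠ 0 ∧ (algebraMap (Algebra.adjoin ℤ (Γ : Set ℂ)) ℂ).IsIntegralElem (η j) ∧
          (algebraMap (Algebra.adjoin ℤ (Γ : Set ℂ)) ℂ).IsIntegralElem (η j)⁻¹) →
        ∀ (y : Fin (N + 1) → ℂ) (j0 : Fin (N + 1)), y j0 = 1 → OnB (algebraMap kk ℂ t) G y →
        ∀ (x : Fin n ⊕ Fin k → ℂ) (s : Fin n → ℂ), (∀ j, x (Sum.inr j) ≠ 0) →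
        (∀ i, valueAt (R i) (s i) (x (Sum.inl i)) = 0 ∧
          w (Sum.inl i) * evalAt K (algebraMap kk ℂ t) (c (Sum.inl i)) *
            eval₂ (evalAt K (algebraMap kk ℂ t)) y (B (Sum.inl i)) * s i =
            eval₂ (evalAt K (algebraMap kk ℂ t)) y (A (Sum.inl i))) →
        (∀ j, w (Sum.inr j) * evalAt K (algebraMap kk ℂ t) (c (Sum.inr j)) *
          eval₂ (evalAt K (algebraMap kk ℂ t)) y (B (Sum.inr j)) *
          x (Sum.inr j) = eval₂ (evalAt K (algebraMap kk ℂ t)) y (A (Sum.inr j))) →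
        (fun i => x (Sum.inl i)) ∈ Z.locus → (fun j => x (Sum.inr j)) ∈ coset Ms η →
        ∀ (S : Finset (Fin n ⊕ Fin k)) (T1 : Finset (Fin (N + 1))),
        AlgebraicIndependent K (Sum.elim (fun i : S => x i) (fun a : T1 => y a)) →
        S.card + T1.card + n + Module.finrank ℤ Ms ≤ r + m := by
    rintro t htRt w hw ⟨f, hf, hp⟩ r Z Ms η hη y j0 hyj0 hy x s hx0 hxy hxy2 hxZ hC S T1 hST
    choose α hα hbad₀ using hp
    have hαRt : ∀ l, α l ∈ Rt := fun l => (hRt _).2 ⟨_, hα l⟩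
    have hαW : ∀ l, α l ∈ W₀ := by
      intro l
      obtain ⟨l', hl'⟩ := hρ _ (hαRt l)
      rw [← hl']
      exact hρW₀ l'
    have htα : ∀ l, t ≠ α l := by
      intro l h
      exact htRt (h ▸ hαRt l)
    obtain ⟨W₁, hW₁⟩ : ∃ W₁, W₁ = (W : Set kk) ∪ (fun b => (t - b)⁻¹) '' (P' : Set kk) := ⟨_, rfl⟩
    have hW₀₁ : W₀ ⊆ W₁ := by
      intro z hz
      rw [hW₁]
      exact Or.inl (hW₀W hz)
    have hbad : ∀ l, ¬ Bad W₁ t (α l) := by
      intro l
      rw [hW₁]
      refine bad_inv W P' (Finset.mem_coe.1 (hW₀W (hαW l))) hPW' (hQW' _ (hαRt l)) ?_ (hbad₀ l)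
      intro h
      exact hPD (f l) _ ((hD' _ _).1 (hα l)) ((hP' _).1 h)
    choose 𝔭 h𝔭 hmem𝔭 using fun l => exists_max W₁ (hW₀₁ (hαW l)) (htα l) (hbad l)
    obtain ⟨Λ, hΛ⟩ : ∃ Λ, Λ = Subring.closure (insert t W₁) := ⟨_, rfl⟩
    subst hΛ
    let Λ : Subring kk := Subring.closure (insert t W₁)
    have hWΛ : W₀ ⊆ (Λ : Set kk) := fun z hz =>
      Subring.subset_closure (Set.mem_insert_of_mem _ (hW₀₁ hz))
    let t' : Λ := ⟨t, Subring.subset_closure (Set.mem_insert _ _)⟩
    let r' : Fin (n.choose 2 + k * 2 ^ k + 1) → Λ := fun l => ⟨α l, hWΛ (hαW l)⟩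
    have hmem : ∀ l, t' - r' l ∈ 𝔭 l := fun l => hmem𝔭 l
    obtain ⟨G', A', B', R', c', hG', hA', hB', hR', hc', hunit, hN⟩ := hnear Λ hWΛ
    have hsub : Function.Injective Λ.subtype := Subtype.val_injective
    have hsub1 : Function.Injective (Polynomial.mapRingHom Λ.subtype) :=
      Polynomial.map_injective _ hsub
    have hsub2 : Function.Injective (MvPolynomial.map (σ := Fin (N + 1))
        (Polynomial.mapRingHom Λ.subtype)) := MvPolynomial.map_injective _ hsub1
    have hA'X : ∀ a, A' (Sum.inr a) = X a := by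
      intro a
      apply hsub2
      rw [hA', MvPolynomial.map_X]
      rfl
    have hB'X : ∀ a, B' (Sum.inr a) = 1 := by
      intro a
      apply hsub2
      rw [hB', map_one]
      rfl
    let i1 : Algebra Λ ℂ := ((algebraMap kk ℂ).comp Λ.subtype).toAlgebra
    have hmapΛ : ∀ z : Λ, algebraMap Λ ℂ z = algebraMap kk ℂ (z : kk) := fun z => rfl
    have htower : IsScalarTower Λ kk ℂ := IsScalarTower.of_algebraMap_eq fun z => rfl
    have hinjC : Function.Injective (algebraMap Λ ℂ) := by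
      intro a b h
      exact hsub ((algebraMap kk ℂ).injective h)
    -- values
    have hval : ∀ (P : MvPolynomial (Fin (N + 1)) (Polynomial K))
        (P' : MvPolynomial (Fin (N + 1)) (Polynomial Λ)),
        MvPolynomial.map (Polynomial.mapRingHom Λ.subtype) P' = MvPolynomial.map φ P →
        ∀ y : Fin (N + 1) → ℂ, aeval y (spec t' P') =
          eval₂ (evalAt K (algebraMap kk ℂ t)) y P := by
      intro P P' hP y
      rw [← hspec t P y, ← hP]
      have h1 := map_spec P' _ rfl t'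
      change _ = aeval y (spec (t' : kk) _)
      rw [← h1, aeval_def, aeval_def, eval₂_map]
      rfl
    have hcval : ∀ i, algebraMap Λ ℂ ((c' (Sum.inl i)).eval t') =
        evalAt K (algebraMap kk ℂ t) (c i) := by
      intro i
      have h1 : (((c' (Sum.inl i)).eval t' : Λ) : kk) = (φ (c i)).eval t := by
        have h2 : (c' (Sum.inl i)).map Λ.subtype = φ (c i) := hc' (Sum.inl i)
        rw [← h2, Polynomial.eval_map]
        exact (Polynomial.eval₂_at_apply Λ.subtype t').symm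
      rw [hmapΛ, h1, ← hev t]
      rfl
    -- the multipliers
    have hgen : ∀ z ∈ Subring.closure (gens WC P (algebraMap kk ℂ t)), ∃ z' : Λ,
        algebraMap Λ ℂ z' = z := by
      have h1 : Subring.closure (gens WC P (algebraMap kk ℂ t)) ≤ (algebraMap Λ ℂ).range := by
        rw [Subring.closure_le]
        intro z hz
        rcases Set.mem_insert_iff.1 hz with rfl | hz | ⟨b, hb, rfl⟩
        · exact ⟨t', rfl⟩
        · obtain ⟨z', hz', rfl⟩ := Finset.mem_image.1 (Finset.mem_coe.1 hz)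
          refine ⟨⟨z', Subring.subset_closure (Set.mem_insert_of_mem _ ?_)⟩, rfl⟩
          rw [hW₁]
          exact Or.inl hz'
        · have hb1 : b ∈ algebraMap kk ℂ '' (P' : Set kk) := by
            rw [hP'im]
            exact hb
          obtain ⟨b', hb', rfl⟩ := hb1
          refine ⟨⟨(t - b')⁻¹, Subring.subset_closure (Set.mem_insert_of_mem _ ?_)⟩, ?_⟩
          · rw [hW₁]
            exact Or.inr ⟨b', hb', rfl⟩
          · show algebraMap kk ℂ ((t - b')⁻¹) = _
            rw [map_inv₀, map_sub]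
      intro z hz
      exact h1 hz
    choose wv hwv using fun i => hgen (w i) (hw i).2.1
    choose wi hwi using fun i => hgen (w i)⁻¹ (hw i).2.2
    have hwu : ∀ i, wi i * wv i = 1 := by
      intro i
      apply hinjC
      rw [map_mul, hwv, hwi, map_one, inv_mul_cancel₀ (hw i).1]
    have hwp : ∀ i l, wi i ∉ 𝔭 l := by
      intro i l h
      apply (h𝔭 l).ne_top
      rw [Ideal.eq_top_iff_one, ← hwu i]
      exact Ideal.mul_mem_right _ _ h
    have hintΓ : ∀ z, (algebraMap (Algebra.adjoin ℤ (Γ : Set ℂ)) ℂ).IsIntegralElem z →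
        IsIntegral Λ z := by
      intro z hz
      refine int_up hinjC (Γ : Set ℂ) (fun g hg => ?_) hz
      rw [← hΓ'] at hg
      obtain ⟨g', hg', rfl⟩ := hg
      exact ⟨⟨g', hWΛ (hΓW₀ hg')⟩, rfl⟩
    have hSTk : AlgebraicIndependent kk (Sum.elim (fun i : S => x i) (fun a : T1 => y a)) :=
      hST.extendScalars kk
    have hSk : AlgebraicIndependent kk (fun i : S => x i) := by
      have h1 := hSTk.comp (Sum.inl : S → S ⊕ T1) Sum.inl_injective
      exact h1
    have hSΛ : AlgebraicIndependent Λ (fun i : S => x i) := hSk.restrictScalars hsub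
    have hπ0 : ∀ l, algebraMap Λ ℂ (t' - r' l) ≠ 0 := by
      intro l h0
      have h1 : t' - r' l = 0 := hinjC (h0.trans (map_zero _).symm)
      exact htα l (congrArg Subtype.val (sub_eq_zero.1 h1))
    refine criterionH (Λ := Λ) (F := kk) (m := m)
      (fun i => spec t' (G' i)) ?_ (fun i => spec t' (A' i)) (fun i => spec t' (B' i)) ?_ ?_ δ ?_ ?_
      R' ?_ (T := T) ?_ (fun i => wv i * (c' (Sum.inl i)).eval t') 𝔭 h𝔭 ?_ ?_
      (fun l => t' - r' l) hmem hπ0
      (fun l i => (φ (c i)).rootMultiplicity (α l)) ?_ ?_ ?_ ?_ Z.cls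
      (fun i i' => ((Z.mat i).det * (Z.mat i').det).toNat) x s Ms η ?_ ?_
      (fun i j l hi hj => rel_of_locus Z hxZ i j l hi hj) ?_ hx0 ?_ (fun j => (hη j).1)
      (fun j => hintΓ _ (hη j).2.1) (fun j => hintΓ _ (hη j).2.2) hC.2
      y j0 hyj0 ?_ ?_ ?_ S T1 hSΛ ?_ hSk
    · intro i
      obtain ⟨e, he⟩ := hG i
      exact ⟨e, (hom_lift _ (hG' i) hsub1 (he.map φ)).map _⟩
    · intro a
      simp only [hA'X, spec, MvPolynomial.map_X]
    · intro a
      simp only [hB'X, spec, map_one]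
    · intro i
      exact (hom_lift _ (hA' (Sum.inl i)) hsub1 ((hA i).map φ)).map _
    · intro i
      exact (hom_lift _ (hB' (Sum.inl i)) hsub1 ((hB i).map φ)).map _
    · intro i
      refine Polynomial.monic_of_injective hsub1 ?_
      rw [hR' i]
      exact (hR i).map _
    · intro i u w h0
      refine hT i u w fun h1 => h0 ?_
      apply hsub
      have h2 := congrArg (fun P => (P.coeff u).coeff w) (hR' i)
      simp only [Polynomial.coeff_map, Polynomial.coe_mapRingHom, φ] at h2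
      rw [h2, h1, map_zero, map_zero]
    · intro l F₁ _ φ₁ hker I hI y' hy0 hyG
      obtain ⟨l', hl'⟩ := hρ _ (hαRt l)
      refine (hN l' (r' l) t' hl'.symm).1 F₁ φ₁ ?_ I hI y' hy0 hyG
      have h1 := hmem l
      rw [← hker, RingHom.mem_ker] at h1
      exact h1
    · intro l i u w h0 h1
      exact (h𝔭 l).ne_top (Ideal.eq_top_of_isUnit_mem _ h1 (hunit i u w h0))
    · intro l i
      rw [hmult]
      exact hind.1 (f l) _ ((hD' _ _).1 (hα l)) i
    · intro l i
      obtain ⟨l', hl'⟩ := hρ _ (hαRt l)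
      obtain ⟨b, hb1, hb2⟩ := (hN l' (r' l) t' hl'.symm).2 (𝔭 l) (h𝔭 l) (hmem l) (Sum.inl i)
      have hb2' : (c' (Sum.inl i)).eval t' = b * (t' - r' l) ^ (φ (c i)).rootMultiplicity (ρt l') :=
        hb2
      refine ⟨wi i, b, hwp i l, hb1, ?_⟩
      rw [← mul_assoc, hwu i, one_mul, hb2', hl']
    · intro l l' hll i j hij q hq hqT
      rw [hmult, hmult, hmult, hmult]
      exact hind.2.1 (f l) (f l') (fun h => hll (hf h)) _ ((hD' _ _).1 (hα l)) _
        ((hD' _ _).1 (hα l')) i j hij q hq hqT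
    · intro s' b hs' hb
      let α' : Fin M → ℂ := fun l =>
        if h : ∃ l', f l' = l then algebraMap kk ℂ (α h.choose) else 0
      have hα' : ∀ l, α' (f l) = algebraMap kk ℂ (α l) := by
        intro l
        have h : ∃ l', f l' = f l := ⟨l, rfl⟩
        have h1 : h.choose = l := hf h.choose_spec
        simp only [α', dif_pos h, h1]
      refine hind.2.2 (s'.map ⟨f, hf⟩) α' ?_ (by rwa [Finset.card_map]) b ?_
      · intro l hl
        obtain ⟨l', -, rfl⟩ := Finset.mem_map.1 hl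
        change α' (f l') ∈ D (f l')
        rw [hα' l']
        exact (hD' _ _).1 (hα l')
      · intro l hl
        obtain ⟨l', hl', rfl⟩ := Finset.mem_map.1 hl
        change ∑ j, b j * (order (c (Sum.inr j)) (α' (f l')) : ℤ) = 0
        rw [hα' l', ← hb l' hl']
        refine Finset.sum_congr rfl fun j _ => ?_
        rw [hmult]
    · intro i i'
      have := mul_pos (Z.det_pos i) (Z.det_pos i')
      omega
    · intro i hi
      obtain ⟨z, hz⟩ := hxZ
      have e3 : x (Sum.inl i) = Z.const i := (hz i).1 hi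
      rw [e3]
      rcases Z.allowed i with ⟨τ, hτ, hc⟩ | h
      · rw [hc]
        exact (singular_modulus_integral τ hτ).tower_top
      · exact hintΓ _ h
    · intro i
      have h1 := (hxy i).1
      rw [valueAt] at h1
      have h2 : (R' i).map (Polynomial.mapRingHom Λ.subtype) = (R i).map φ := hR' i
      have h3 : ((Polynomial.aeval (x (Sum.inl i)) : Polynomial kk →ₐ[kk] ℂ).toRingHom).comp φ =
          (Polynomial.aeval (x (Sum.inl i)) : Polynomial K →ₐ[K] ℂ).toRingHom := by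
        ext z
        · simp [φ]
        · simp [φ]
      have h4 : ((Polynomial.aeval (x (Sum.inl i)) : Polynomial kk →ₐ[kk] ℂ).toRingHom).comp
          (Polynomial.mapRingHom Λ.subtype) =
          (Polynomial.aeval (x (Sum.inl i)) : Polynomial Λ →ₐ[Λ] ℂ).toRingHom := by
        refine Polynomial.ringHom_ext (fun a => ?_) ?_
        · simp only [RingHom.comp_apply, Polynomial.coe_mapRingHom, Polynomial.map_C,
            AlgHom.toRingHom_eq_coe, RingHom.coe_coe, Polynomial.aeval_C]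
          rfl
        · simp
      rw [← h3, ← Polynomial.eval₂_map, ← h2, Polynomial.eval₂_map, h4] at h1
      exact h1
    · intro j
      have h1 : IsIntegral Λ (η j) := hintΓ _ (hη j).2.1
      have h2 : IsIntegral kk (η j) := h1.tower_top
      have h3 : IsAlgebraic K (η j) := h2.isAlgebraic.restrictScalars K
      exact ⟨⟨η j, mem_algebraicClosure_iff.2 h3⟩, rfl⟩
    · intro i
      rw [hval _ _ (hG' i)]
      exact hy.2 i
    · intro i
      rw [hval _ _ (hA' (Sum.inl (Sum.inl i))), hval _ _ (hB' (Sum.inl (Sum.inl i))), map_mul, hwv,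
        hcval]
      exact (hxy i).2
    · intro j
      rw [hval _ _ (hA' (Sum.inl (Sum.inr j))), hval _ _ (hB' (Sum.inl (Sum.inr j))), map_mul, hwv,
        hcval]
      exact hxy2 j
    · intro l
      have h0 : (t - α l : kk) ≠ 0 := sub_ne_zero.2 (htα l)
      have h1 := algInd_smul hSTk (Sum.elim (fun _ : S => (1 : kk)) (fun _ : T1 => (t - α l)⁻¹)) (by
        rintro (i | a)
        · exact one_ne_zero
        · exact inv_ne_zero h0)
      have h2 := h1.restrictScalars hsub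
      convert h2 using 1
      funext i
      rcases i with i | a
      · simp only [Sum.elim_inl, map_one, one_mul]
      · simp only [Sum.elim_inr, map_inv₀]
        rfl
  -- descent to the algebraic closure
  have hbadC : ∀ (t a : kk), Bad (W : Set kk) t a →
      Bad (WC : Set ℂ) (algebraMap kk ℂ t) (algebraMap kk ℂ a) := by
    rintro t a ⟨h1, h2⟩
    refine ⟨fun h => h1 ((algebraMap kk ℂ).injective h), ?_⟩
    have h3 : (algebraMap kk ℂ) (t - a)⁻¹ ∈
        (Subring.closure (insert t (W : Set kk))).map (algebraMap kk ℂ) := ⟨_, h2, rfl⟩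
    rw [RingHom.map_closure, Set.image_insert_eq, map_inv₀, map_sub] at h3
    have h4 : (algebraMap kk ℂ) '' (W : Set kk) = (WC : Set ℂ) := by
      rw [Finset.coe_image]
    rw [h4] at h3
    exact h3
  refine ⟨WC, ?_, fun t ht htD w hw hf => ?_⟩
  · intro z hz
    have h1 : z ∈ algebraMap kk ℂ '' (F' : Set kk) := by
      rw [hF']
      exact hz
    obtain ⟨z', hz', rfl⟩ := h1
    exact Finset.mem_image.2 ⟨z', hFW' z' hz', rfl⟩
  · obtain ⟨t', rfl⟩ : ∃ t' : kk, algebraMap kk ℂ t' = t :=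
      ⟨⟨t, mem_algebraicClosure_iff'.2 ht.isIntegral⟩, rfl⟩
    refine core t' ?_ w hw ?_
    · intro h
      obtain ⟨l, hl⟩ := (hRt t').1 h
      exact htD (Finset.mem_biUnion.2 ⟨l, Finset.mem_univ _, (hD' _ _).1 hl⟩)
    · obtain ⟨f, hf1, hf2⟩ := hf
      refine ⟨f, hf1, fun l => ?_⟩
      obtain ⟨a, ha, hb⟩ := hf2 l
      have h2 : a ∈ algebraMap kk ℂ '' (D' (f l) : Set kk) := by
        rw [hD'im]
        exact ha
      obtain ⟨a', ha', rfl⟩ := h2
      exact ⟨a', ha', fun h3 => hb (hbadC _ _ h3)⟩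

end Pool.Agent.Q57.ZP
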