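import Pool.Agent.Q57.ZP.HodB
import Pool.Agent.W282.LF.Top

/-!
From transcendence degrees to dimensions; the pure case of the local criterion for total spaces
(helper file).
-/

set_option autoImplicit false

namespace Pool.Agent.Q57.ZP

open H294ZP UpperHalfPlane MvPolynomial Pool.Agent.W282.ZP Pool.Agent.Y910.Z
open Pool.Agent.Results.MP_a325a5_ag.FinitelyGeneratedFields

/-- From transcendence degrees to dimensions. -/
theorem dim_of_trdeg (K : Subfield ℂ) [Countable K] {ι Q : Type} {m ρ : ℕ} (val : Q → ι → ℂ)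
    (Good : Q → Prop)
    (hkey : ∀ q, Good q → ∀ S : Finset ι, AlgebraicIndependent K (fun i : S => val q i) →
      S.card + ρ ≤ m)
    {s : ℕ} (σ : Fin s ≃ ι) (W : Set (Fin s → ℂ)) (p : MvPolynomial (Fin s) ℂ)
    (hW : ∀ w ∈ W, eval w p ≠ 0 → ∃ q, Good q ∧ ∀ i, w i = val q (σ i)) (hcl : zcl W ⊆ W)
    (hprime : (idealOf W).IsPrime) (hp : p ∉ idealOf W) :
    zdim W + (ρ : Cardinal) ≤ (m : Cardinal) := by
  classical
  obtain ⟨v, hvW, hpv, T, hT, hdimW⟩ :=
    Pool.Agent.W282.LF.generic_dim_open K W hprime hcl p hp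
  obtain ⟨q, hq, hv⟩ := hW v hvW hpv
  have hTT : ∀ j, j ∈ T.map σ.toEmbedding → σ.symm j ∈ T := by
    intro j hj
    obtain ⟨t, ht, h⟩ := Finset.mem_map.1 hj
    rw [← h]
    simpa using ht
  have h3 := hkey q hq (T.map σ.toEmbedding) (by
    have hg : Function.Injective (fun j : (T.map σ.toEmbedding : Finset ι) =>
        (⟨σ.symm j, hTT _ j.2⟩ : T)) := by
      intro x y h
      have h1 := congrArg Subtype.val h
      exact Subtype.ext (σ.symm.injective h1)
    have h5 := hT.comp _ hg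
    convert h5 using 1
    funext j
    change val q j = v (σ.symm j)
    rw [hv, Equiv.apply_symm_apply])
  rw [Finset.card_map] at h3
  calc zdim W + (ρ : Cardinal) ≤ (T.card : Cardinal) + (ρ : Cardinal) := by gcongr
    _ = ((T.card + ρ : ℕ) : Cardinal) := by push_cast; rfl
    _ ≤ (m : Cardinal) := by exact_mod_cast h3

/-- Splitting of a finite set of indices. -/
theorem split_ind {K : Type} [CommRing K] [Algebra K ℂ] {ι₁ ι₂ : Type} (y : ι₁ → ℂ) (x : ι₂ → ℂ)
    (S : Finset (ι₁ ⊕ ι₂)) (hS : AlgebraicIndependent K (fun i : S => (Sum.elim y x) i)) :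
    AlgebraicIndependent K (Sum.elim (fun i : S.toRight => x i) (fun a : S.toLeft => y a)) := by
  let g' : S.toRight ⊕ S.toLeft → S := Sum.elim
    (fun j => ⟨Sum.inr j, Finset.mem_toRight.1 j.2⟩)
    (fun j => ⟨Sum.inl j, Finset.mem_toLeft.1 j.2⟩)
  have hg : Function.Injective g' := by
    rintro (x | x) (y | y) h
    · have h1 := congrArg Subtype.val h
      have h2 := Sum.inr_injective h1
      rw [Subtype.ext h2]
    · have h1 := congrArg Subtype.val h
      exact absurd h1 Sum.inr_ne_inl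
    · have h1 := congrArg Subtype.val h
      exact absurd h1 Sum.inl_ne_inr
    · have h1 := congrArg Subtype.val h
      have h2 := Sum.inl_injective h1
      rw [Subtype.ext h2]
  have h5 := hS.comp g' hg
  convert h5 using 1
  funext j
  rcases j with j | j <;> rfl

/-- Adding an empty set of coordinates. -/
theorem empty_ind {K : Type} [CommRing K] [Algebra K ℂ] {ι₁ ι₂ : Type} (y : ι₁ → ℂ) (x : ι₂ → ℂ)
    (S : Finset ι₂) (hS : AlgebraicIndependent K (fun i : S => x i)) :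
    AlgebraicIndependent K (Sum.elim (fun i : S => x i)
      (fun a : (∅ : Finset ι₁) => y a)) := by
  let g' : S ⊕ (∅ : Finset ι₁) → S := Sum.elim id (fun j => absurd j.2 (Finset.notMem_empty _))
  have hg : Function.Injective g' := by
    rintro (x | x) (y | y) h
    · exact congrArg Sum.inl h
    · exact absurd y.2 (Finset.notMem_empty _)
    · exact absurd x.2 (Finset.notMem_empty _)
    · exact absurd x.2 (Finset.notMem_empty _)
  have h5 := hS.comp g' hg
  convert h5 using 1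
  funext j
  rcases j with j | j
  · rfl
  · exact absurd j.2 (Finset.notMem_empty _)

/-- The pure case of the criterion. -/
theorem tot_crit_pure (K : Subfield ℂ) (κ : Type) [Finite κ] (N n m M T : ℕ)
    (G : κ → MvPolynomial (Fin (N + 1)) (Polynomial K)) (hG : ∀ l, ∃ e, (G l).IsHomogeneous e)
    (A B : Fin n → MvPolynomial (Fin (N + 1)) (Polynomial K)) (δ : Fin n → ℕ)
    (hA : ∀ i, (A i).IsHomogeneous (δ i)) (hB : ∀ i, (B i).IsHomogeneous (δ i))
    (R : Fin n → Polynomial (Polynomial K)) (hR : ∀ i, (R i).Monic)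
    (hT : ∀ i u w, ((R i).coeff u).coeff w ≠ 0 → u ≤ T ∧ w ≤ T)
    (c : Fin n → Polynomial K) (hc : ∀ i, c i ≠ 0) (D : Fin M → Finset ℂ)
    (hD : ∀ l, ∀ α ∈ D l, IsAlgebraic K α)
    (hind : (∀ l, ∀ α ∈ D l, ∀ i, 0 < order (c i) α) ∧
      ∀ l l', l ≠ l' → ∀ α ∈ D l, ∀ α' ∈ D l', ∀ i j : Fin n, i ≠ j → ∀ q, 0 < q → q ≤ T ^ 8 →
        ¬ IsSquare (q * (order (c i) α * order (c j) α * (order (c i) α' * order (c j) α'))))
    (hpos : ∀ l, ∀ α ∈ D l, ∀ I : Finset (Fin n ⊕ Fin (N + 1)), I.card = m + 1 →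
      ∀ y : Fin (N + 1) → ℂ, OnB α G y →
      ∃ i ∈ I, Sum.elim (fun i => eval₂ (evalAt K α) y (A i) * eval₂ (evalAt K α) y (B i)) y i ≠ 0)
    (Γ : Finset ℂ) (hΓ : ∀ γ ∈ Γ, IsAlgebraic K γ) (F : Finset ℂ)
    (hF : ∀ z ∈ F, IsAlgebraic K z) (P : Finset ℂ) (hP : ∀ z ∈ P, IsAlgebraic K z)
    (hPD : ∀ l, ∀ α ∈ D l, α ∉ P) :
    ∃ W : Finset ℂ, F ⊆ W ∧ ∀ t : ℂ, IsAlgebraic K t → t ∉ Finset.univ.biUnion D →
      ∀ w : Fin n → ℂ, (∀ i, UnitOf (gens W P t) (w i)) →
      (∃ f : Fin (n.choose 2 + 1) → Fin M, Function.Injective f ∧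
        ∀ l, ∃ a ∈ D (f l), ¬ Bad (W : Set ℂ) t a) →
      ∀ (r : ℕ) (Z : SpecialVariety (algebraMap (Algebra.adjoin ℤ (Γ : Set ℂ)) ℂ) n r)
        (y : Fin (N + 1) → ℂ) (j0 : Fin (N + 1)), y j0 = 1 → OnB t G y →
        ∀ (x : Fin n → ℂ) (s : Fin n → ℂ),
        (∀ i, valueAt (R i) (s i) (x i) = 0 ∧
          w i * evalAt K t (c i) * eval₂ (evalAt K t) y (B i) * s i =
            eval₂ (evalAt K t) y (A i)) →
        x ∈ Z.locus →
        ∀ (S : Finset (Fin n)) (T1 : Finset (Fin (N + 1))),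
        AlgebraicIndependent K (Sum.elim (fun i : S => x i) (fun a : T1 => y a)) →
        S.card + T1.card + n ≤ r + m := by
  classical
  let f0 : ∀ {β : Sort 1}, Fin 0 → β := fun {β} i => i.elim0
  let A' : Fin n ⊕ Fin 0 → MvPolynomial (Fin (N + 1)) (Polynomial K) := Sum.elim A f0
  let B' : Fin n ⊕ Fin 0 → MvPolynomial (Fin (N + 1)) (Polynomial K) := Sum.elim B f0
  let c' : Fin n ⊕ Fin 0 → Polynomial K := Sum.elim c f0
  let δ' : Fin n ⊕ Fin 0 → ℕ := Sum.elim δ f0
  have hsum : ∀ {Q : Fin n ⊕ Fin 0 → Prop}, (∀ i, Q (Sum.inl i)) → ∀ i, Q i := by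
    intro Q h i
    rcases i with i | i
    · exact h i
    · exact i.elim0
  obtain ⟨W, hFW, hcrit⟩ := tot_crit K κ N n 0 m M T G hG A' B' δ' (hsum hA) (hsum hB) R hR hT c'
    (hsum hc) D hD ⟨fun l α hα => hsum (hind.1 l α hα), fun l l' hll α hα α' hα' i j hij =>
      hind.2 l l' hll α hα α' hα' i j hij, fun s α hα hs b hb => Subsingleton.elim _ _⟩
    (by
      intro l α hα I hI y hy
      let em : (Fin n ⊕ Fin 0) ⊕ Fin (N + 1) ≃ Fin n ⊕ Fin (N + 1) :=
        Equiv.sumCongr (Equiv.sumEmpty (Fin n) (Fin 0)) (Equiv.refl _)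
      obtain ⟨i, hi, h⟩ := hpos l α hα (I.map em.toEmbedding) (by rw [Finset.card_map, hI]) y hy
      obtain ⟨i', hi', rfl⟩ := Finset.mem_map.1 hi
      refine ⟨i', hi', ?_⟩
      rcases i' with (i' | i') | a
      · exact h
      · exact i'.elim0
      · exact h)
    Γ hΓ F hF P hP hPD
  refine ⟨W, hFW, fun t ht htD w hw hf r Z y j0 hyj0 hy x s hxy hxZ S T1 hST => ?_⟩
  have hcard : n.choose 2 + 0 * 2 ^ 0 + 1 = n.choose 2 + 1 := by omega
  have h := hcrit t ht htD (Sum.elim w f0) (hsum hw) (by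
      obtain ⟨f, hf1, hf2⟩ := hf
      refine ⟨fun l => f (Fin.cast hcard l), fun l l' h => ?_, fun l => hf2 _⟩
      have h1 := hf1 h
      simpa using h1) r Z ⊥ f0 (fun j => j.elim0) y j0 hyj0 hy
    (Sum.elim x f0) s (fun j => j.elim0) (fun i => hxy i) (fun j => j.elim0) hxZ
    ⟨fun j => j.elim0, fun a ha => by
      rw [Finset.prod_of_isEmpty, Finset.prod_of_isEmpty]⟩
    (S.map ⟨Sum.inl, Sum.inl_injective⟩) T1 (by
      let g' : (S.map ⟨Sum.inl, Sum.inl_injective⟩ : Finset (Fin n ⊕ Fin 0)) ⊕ T1 → S ⊕ T1 :=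
        Sum.map (fun j => ⟨(Equiv.sumEmpty (Fin n) (Fin 0)) j, by
          obtain ⟨i, hi, h⟩ := Finset.mem_map.1 j.2
          rw [← h]
          exact hi⟩) id
      have hg : Function.Injective g' := by
        refine Function.Injective.sumMap ?_ Function.injective_id
        intro a b h
        have h1 := congrArg Subtype.val h
        exact Subtype.ext ((Equiv.sumEmpty (Fin n) (Fin 0)).injective h1)
      have h5 := hST.comp g' hg
      convert h5 using 1
      funext j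
      rcases j with ⟨(j | j), hj⟩ | j
      · rfl
      · exact j.elim0
      · rfl)
  rw [Finset.card_map] at h
  have h0 : Module.finrank ℤ (⊥ : Submodule ℤ (Fin 0 → ℤ)) = 0 := finrank_bot ℤ _
  omega

end Pool.Agent.Q57.ZP
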