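import Pool.Agent.Q57.ZP.HodC
import Pool.Agent.Q57.ZP.EllU

/-!
The local criterion for total spaces, in terms of places only; families over an elliptic curve
(helper file).
-/

set_option autoImplicit false

namespace Pool.Agent.Q57.ZP

open H294ZP UpperHalfPlane MvPolynomial Pool.Agent.W282.ZP Pool.Agent.Y910.Z
open Pool.Agent.TH526.ZL (spec)
open Pool.Agent.Results.MP_a325a5_ag.FinitelyGeneratedFields

/-- The criterion, in terms of places. -/
theorem tot_crit_places (K : Subfield ℂ) (κ : Type) [Finite κ] (N n k m T : ℕ)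
    (G : κ → MvPolynomial (Fin (N + 1)) (Polynomial K)) (hG : ∀ l, ∃ e, (G l).IsHomogeneous e)
    (A B : Fin n ⊕ Fin k → MvPolynomial (Fin (N + 1)) (Polynomial K)) (δ : Fin n ⊕ Fin k → ℕ)
    (hA : ∀ i, (A i).IsHomogeneous (δ i)) (hB : ∀ i, (B i).IsHomogeneous (δ i))
    (R : Fin n → Polynomial (Polynomial K)) (hR : ∀ i, (R i).Monic)
    (hT : ∀ i u w, ((R i).coeff u).coeff w ≠ 0 → u ≤ T ∧ w ≤ T)
    (α : Fin (n.choose 2 + k * 2 ^ k + 1) → ℂ) (hα : ∀ l, IsAlgebraic K (α l))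
    (hpos : ∀ l, GenPos (α l) m G A B)
    (e : Fin (n.choose 2 + k * 2 ^ k + 1) → Fin n ⊕ Fin k → ℕ) (he : ∀ l i, 0 < e l i)
    (hsq : ∀ l l', l ≠ l' → ∀ i j : Fin n, i ≠ j → ∀ q, 0 < q → q ≤ T ^ 8 →
      ¬ IsSquare (q * (e l (Sum.inl i) * e l (Sum.inl j) *
        (e l' (Sum.inl i) * e l' (Sum.inl j)))))
    (hlin : ∀ (s : Finset (Fin (n.choose 2 + k * 2 ^ k + 1))) (b : Fin k → ℤ), k ≤ s.card →
      (∀ l ∈ s, ∑ j, b j * (e l (Sum.inr j) : ℤ) = 0) → b = 0) :
    ∃ W : Finset ℂ, (∀ z ∈ W, IsAlgebraic K z) ∧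
      ∀ V : Fin (n.choose 2 + k * 2 ^ k + 1) → ValuationSubring ℂ, (∀ l, ∀ z ∈ W, z ∈ V l) →
      ∀ t : ℂ, IsAlgebraic K t → (∀ l, (V l).valuation (t - α l) < 1) →
      ∀ π : Fin (n.choose 2 + k * 2 ^ k + 1) → ℂ, (∀ l, IsAlgebraic K (π l) ∧ π l ≠ 0 ∧
        (V l).valuation (π l) < 1 ∧ ∀ l', π l ∈ V l') →
      ∀ lam : Fin n ⊕ Fin k → ℂ, (∀ i, IsAlgebraic K (lam i) ∧ ∀ l, lam i ∈ V l) →
      (∀ l i, ∃ a b : ℂ, IsAlgebraic K a ∧ IsAlgebraic K b ∧ (∀ l', a ∈ V l' ∧ b ∈ V l') ∧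
        (V l).valuation a = 1 ∧ (V l).valuation b = 1 ∧ a * lam i = b * π l ^ e l i) →
      ∀ U : Set ℂ, (∀ z ∈ U, IsAlgebraic K z ∧ ∀ l, z ∈ V l) →
      ∀ (r : ℕ) (Z : SpecialVariety (algebraMap (Algebra.adjoin ℤ U) ℂ) n r)
        (Ms : Submodule ℤ (Fin k → ℤ)) (η : Fin k → ℂ), (∀ j, IntUnit U (η j)) →
        ∀ (y : Fin (N + 1) → ℂ) (j0 : Fin (N + 1)), y j0 = 1 → OnB t G y →
        ∀ (x : Fin n ⊕ Fin k → ℂ) (s : Fin n → ℂ), (∀ j, x (Sum.inr j) ≠ 0) →
        (∀ i, valueAt (R i) (s i) (x (Sum.inl i)) = 0 ∧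
          lam (Sum.inl i) * eval₂ (evalAt K t) y (B (Sum.inl i)) * s i =
            eval₂ (evalAt K t) y (A (Sum.inl i))) →
        (∀ j, lam (Sum.inr j) * eval₂ (evalAt K t) y (B (Sum.inr j)) *
          x (Sum.inr j) = eval₂ (evalAt K t) y (A (Sum.inr j))) →
        (fun i => x (Sum.inl i)) ∈ Z.locus → (fun j => x (Sum.inr j)) ∈ coset Ms η →
        ∀ (S : Finset (Fin n ⊕ Fin k)) (T1 : Finset (Fin (N + 1))),
        AlgebraicIndependent K (Sum.elim (fun i : S => x i) (fun a : T1 => y a)) →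
        S.card + T1.card + n + Module.finrank ℤ Ms ≤ r + m := by
  classical
  let kk := algebraicClosure K ℂ
  have hcl : IsAlgClosure K kk := inferInstance
  have hac : IsAlgClosed kk := hcl.isAlgClosed
  have hc0k : CharZero kk := inferInstance
  let φ : Polynomial K →+* Polynomial kk := Polynomial.mapRingHom (algebraMap K kk)
  have hev : ∀ (t : kk), (algebraMap kk ℂ).comp ((Polynomial.evalRingHom t).comp φ) =
      evalAt K (algebraMap kk ℂ t) := by
    intro t
    refine Polynomial.ringHom_ext (fun a => ?_) ?_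
    · simp only [φ, evalAt, RingHom.comp_apply, Polynomial.coe_mapRingHom, Polynomial.map_C,
        Polynomial.coe_evalRingHom, Polynomial.eval_C, AlgHom.toRingHom_eq_coe, RingHom.coe_coe,
        Polynomial.aeval_C]
      rfl
    · simp only [φ, evalAt, RingHom.comp_apply, Polynomial.coe_mapRingHom, Polynomial.map_X,
        Polynomial.coe_evalRingHom, Polynomial.eval_X, AlgHom.toRingHom_eq_coe, RingHom.coe_coe,
        Polynomial.aeval_X]
  have hspec : ∀ (t : kk) (P : MvPolynomial (Fin (N + 1)) (Polynomial K)) (y : Fin (N + 1) → ℂ),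
      aeval y (spec t (MvPolynomial.map φ P)) =
        eval₂ (evalAt K (algebraMap kk ℂ t)) y P := by
    intro t P y
    rw [spec, MvPolynomial.map_map, aeval_def, eval₂_map, hev]
  have hmemk : ∀ z : ℂ, IsAlgebraic K z → ∃ z' : kk, algebraMap kk ℂ z' = z := fun z hz =>
    ⟨⟨z, mem_algebraicClosure_iff'.2 hz.isIntegral⟩, rfl⟩
  choose ρt hρt using fun l => hmemk _ (hα l)
  let AX : (Fin n ⊕ Fin k) ⊕ Fin (N + 1) → MvPolynomial (Fin (N + 1)) (Polynomial kk) :=
    Sum.elim (fun i => MvPolynomial.map φ (A i)) (fun a => X a)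
  let BX : (Fin n ⊕ Fin k) ⊕ Fin (N + 1) → MvPolynomial (Fin (N + 1)) (Polynomial kk) :=
    Sum.elim (fun i => MvPolynomial.map φ (B i)) (fun _ => 1)
  let cX : (Fin n ⊕ Fin k) ⊕ Fin (N + 1) → Polynomial kk := fun _ => 1
  obtain ⟨W₀, hW₀, -, hρW₀, hnear⟩ := nearR (k := kk) (m := m)
    (M := n.choose 2 + k * 2 ^ k + 1)
    (fun i => MvPolynomial.map φ (G i)) AX BX (fun i => (R i).map φ) cX ρt
    (fun _ => one_ne_zero)
    (fun l I hI y h1 h2 => by
      by_contra h0
      obtain ⟨i, hi, h3⟩ := hpos l I hI y ⟨h0, fun i => by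
        have h4 := h1 i
        rw [hspec, hρt] at h4
        exact h4⟩
      apply h3
      have h4 := h2 i hi
      rcases i with i | a
      · simp only [AX, BX, Sum.elim_inl] at h4
        rw [hspec, hspec, hρt] at h4
        exact h4
      · simp only [AX, BX, Sum.elim_inr, spec, MvPolynomial.map_X, map_one, mul_one,
          aeval_X] at h4
        exact h4)
    (∅ : Set kk) Set.finite_empty
  refine ⟨hW₀.toFinset.image (algebraMap kk ℂ), ?_, ?_⟩
  · intro z hz
    obtain ⟨z', -, rfl⟩ := Finset.mem_image.1 hz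
    exact mem_algebraicClosure_iff.1 z'.2
  intro V hVW tC htC htV πC hπC lamC hlamC hab U hU r Z Ms η hη y j0 hyj0 hy x s hx0 hxy hxy2 hxZ
    hC S T1 hST
  obtain ⟨t, ht⟩ := hmemk _ htC
  choose π' hπ' using fun l => hmemk _ (hπC l).1
  choose lam' hlam' using fun i => hmemk _ (hlamC i).1
  choose aC bC haA hbA habV hva hvb habeq using hab
  choose a' ha' using fun l i => hmemk _ (haA l i)
  choose b' hb' using fun l i => hmemk _ (hbA l i)
  -- the ring
  let Λ : Subring kk :=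
    { carrier := {z | ∀ l, algebraMap kk ℂ z ∈ V l}
      mul_mem' := fun {a b} ha hb l => by
        rw [map_mul]
        exact (V l).mul_mem _ _ (ha l) (hb l)
      one_mem' := fun l => by
        rw [map_one]
        exact (V l).one_mem
      add_mem' := fun {a b} ha hb l => by
        rw [map_add]
        exact (V l).add_mem _ _ (ha l) (hb l)
      zero_mem' := fun l => by
        rw [map_zero]
        exact (V l).zero_mem
      neg_mem' := fun {a} ha l => by
        rw [map_neg]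
        exact (V l).neg_mem _ (ha l) }
  have hmemΛ : ∀ z : kk, z ∈ Λ ↔ ∀ l, algebraMap kk ℂ z ∈ V l := fun z => Iff.rfl
  have hWΛ : W₀ ⊆ (Λ : Set kk) := by
    intro z hz l
    exact hVW l _ (Finset.mem_image_of_mem _ ((Set.Finite.mem_toFinset hW₀).2 hz))
  have hρΛ : ∀ l, ρt l ∈ Λ := fun l => hWΛ (hρW₀ l)
  have htΛ : t ∈ Λ := by
    intro l
    have h1 : algebraMap kk ℂ t = (tC - α l) + algebraMap kk ℂ (ρt l) := by
      rw [ht, hρt]
      ring
    rw [h1]
    exact (V l).add_mem _ _ ((ValuationSubring.valuation_le_one_iff _ _).1 (htV l).le) (hρΛ l l)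
  let t' : Λ := ⟨t, htΛ⟩
  let r' : Fin (n.choose 2 + k * 2 ^ k + 1) → Λ := fun l => ⟨ρt l, hρΛ l⟩
  let πΛ : Fin (n.choose 2 + k * 2 ^ k + 1) → Λ := fun l => ⟨π' l, fun l' => by
    rw [hπ']
    exact (hπC l).2.2.2 l'⟩
  let lamΛ : Fin n ⊕ Fin k → Λ := fun i => ⟨lam' i, fun l' => by
    rw [hlam']
    exact (hlamC i).2 l'⟩
  let aΛ : Fin (n.choose 2 + k * 2 ^ k + 1) → Fin n ⊕ Fin k → Λ := fun l i => ⟨a' l i, fun l' => by
    rw [ha']
    exact (habV l i l').1⟩
  let bΛ : Fin (n.choose 2 + k * 2 ^ k + 1) → Fin n ⊕ Fin k → Λ := fun l i => ⟨b' l i, fun l' => by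
    rw [hb']
    exact (habV l i l').2⟩
  -- the prime ideals
  let fV : ∀ l, Λ →+* V l := fun l =>
    ((algebraMap kk ℂ).comp Λ.subtype).codRestrict (V l).toSubring (fun z => z.2 l)
  let 𝔭 : Fin (n.choose 2 + k * 2 ^ k + 1) → Ideal Λ := fun l =>
    (IsLocalRing.maximalIdeal (V l)).comap (fV l)
  have h𝔭 : ∀ l, (𝔭 l).IsPrime := fun l => Ideal.comap_isPrime _ _
  have hmem𝔭 : ∀ l (z : Λ), z ∈ 𝔭 l ↔ (V l).valuation (algebraMap kk ℂ (z : kk)) < 1 := by
    intro l z
    rw [Ideal.mem_comap]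
    exact ValuationSubring.valuation_lt_one_iff (V l) (fV l z)
  have hmem : ∀ l, t' - r' l ∈ 𝔭 l := by
    intro l
    rw [hmem𝔭]
    have h1 : algebraMap kk ℂ ((t' - r' l : Λ) : kk) = tC - α l := by
      rw [← ht, ← hρt, ← map_sub]
      rfl
    rw [h1]
    exact htV l
  obtain ⟨G', A', B', R', c', hG', hA', hB', hR', hc', hunit, hN⟩ := hnear Λ hWΛ
  have hsub : Function.Injective Λ.subtype := Subtype.val_injective
  have hsub1 : Function.Injective (Polynomial.mapRingHom Λ.subtype) :=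
    Polynomial.map_injective _ hsub
  have hsub2 : Function.Injective (MvPolynomial.map (σ := Fin (N + 1))
      (Polynomial.mapRingHom Λ.subtype)) := MvPolynomial.map_injective _ hsub1
  have hA'X : ∀ a, A' (Sum.inr a) = X a := by
    intro a
    apply hsub2
    rw [hA', MvPolynomial.map_X]
    rfl
  have hB'X : ∀ a, B' (Sum.inr a) = 1 := by
    intro a
    apply hsub2
    rw [hB', map_one]
    rfl
  let i1 : Algebra Λ ℂ := ((algebraMap kk ℂ).comp Λ.subtype).toAlgebra
  have hmapΛ : ∀ z : Λ, algebraMap Λ ℂ z = algebraMap kk ℂ (z : kk) := fun z => rfl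
  have htower : IsScalarTower Λ kk ℂ := IsScalarTower.of_algebraMap_eq fun z => rfl
  have hinjC : Function.Injective (algebraMap Λ ℂ) := by
    intro a b h
    exact hsub ((algebraMap kk ℂ).injective h)
  -- values
  have hval : ∀ (P : MvPolynomial (Fin (N + 1)) (Polynomial K))
      (P' : MvPolynomial (Fin (N + 1)) (Polynomial Λ)),
      MvPolynomial.map (Polynomial.mapRingHom Λ.subtype) P' = MvPolynomial.map φ P →
      ∀ y : Fin (N + 1) → ℂ, aeval y (spec t' P') = eval₂ (evalAt K tC) y P := by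
    intro P P' hP y
    rw [← ht, ← hspec t P y, ← hP]
    have h1 := map_spec P' _ rfl t'
    change _ = aeval y (spec (t' : kk) _)
    rw [← h1, aeval_def, aeval_def, eval₂_map]
    rfl
  have hUΛ : ∀ z ∈ U, z ∈ (algebraMap Λ ℂ).range := by
    intro z hz
    obtain ⟨z', hz'⟩ := hmemk z (hU z hz).1
    refine ⟨⟨z', fun l => ?_⟩, hz'⟩
    rw [hz']
    exact (hU z hz).2 l
  have hintU : ∀ z, IsIntegral (Algebra.adjoin ℤ U) z → IsIntegral Λ z := fun z hz =>
    int_up hinjC U hUΛ hz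
  have hSTk : AlgebraicIndependent kk (Sum.elim (fun i : S => x i) (fun a : T1 => y a)) :=
    hST.extendScalars kk
  have hSk : AlgebraicIndependent kk (fun i : S => x i) := by
    have h1 := hSTk.comp (Sum.inl : S → S ⊕ T1) Sum.inl_injective
    exact h1
  have hSΛ : AlgebraicIndependent Λ (fun i : S => x i) := hSk.restrictScalars hsub
  have hvu : ∀ l (z : Λ), (V l).valuation (algebraMap kk ℂ (z : kk)) = 1 → z ∉ 𝔭 l := by
    intro l z hz h
    rw [hmem𝔭, hz] at h
    exact lt_irrefl _ h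
  refine criterionH (Λ := Λ) (F := kk) (m := m)
    (fun i => spec t' (G' i)) ?_ (fun i => spec t' (A' i)) (fun i => spec t' (B' i)) ?_ ?_ δ ?_ ?_
    R' ?_ (T := T) ?_ lamΛ 𝔭 h𝔭 ?_ ?_ πΛ ?_ ?_ e he ?_ hsq hlin Z.cls
    (fun i i' => ((Z.mat i).det * (Z.mat i').det).toNat) x s Ms η ?_ ?_
    (fun i j l hi hj => rel_of_locus Z hxZ i j l hi hj) ?_ hx0 ?_ (fun j => (hη j).1)
    (fun j => hintU _ (hη j).2.1) (fun j => hintU _ (hη j).2.2) hC.2
    y j0 hyj0 ?_ ?_ ?_ S T1 hSΛ ?_ hSk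
  · intro i
    obtain ⟨e, he⟩ := hG i
    exact ⟨e, (hom_lift _ (hG' i) hsub1 (he.map φ)).map _⟩
  · intro a
    simp only [hA'X, spec, MvPolynomial.map_X]
  · intro a
    simp only [hB'X, spec, map_one]
  · intro i
    exact (hom_lift _ (hA' (Sum.inl i)) hsub1 ((hA i).map φ)).map _
  · intro i
    exact (hom_lift _ (hB' (Sum.inl i)) hsub1 ((hB i).map φ)).map _
  · intro i
    refine Polynomial.monic_of_injective hsub1 ?_
    rw [hR' i]
    exact (hR i).map _
  · intro i u w h0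
    refine hT i u w fun h1 => h0 ?_
    apply hsub
    have h2 := congrArg (fun P => (P.coeff u).coeff w) (hR' i)
    simp only [Polynomial.coeff_map, Polynomial.coe_mapRingHom, φ] at h2
    rw [h2, h1, map_zero, map_zero]
  · intro l F₁ _ φ₁ hker I hI y' hy0 hyG
    refine (hN l (r' l) t' rfl).1 F₁ φ₁ ?_ I hI y' hy0 hyG
    have h1 := hmem l
    rw [← hker, RingHom.mem_ker] at h1
    exact h1
  · intro l i u w h0 h1
    exact (h𝔭 l).ne_top (Ideal.eq_top_of_isUnit_mem _ h1 (hunit i u w h0))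
  · intro l
    rw [hmem𝔭]
    show (V l).valuation (algebraMap kk ℂ (π' l)) < 1
    rw [hπ']
    exact (hπC l).2.2.1
  · intro l
    show algebraMap kk ℂ (π' l) ≠ 0
    rw [hπ']
    exact (hπC l).2.1
  · intro l i
    refine ⟨aΛ l i, bΛ l i, hvu l _ ?_, hvu l _ ?_, ?_⟩
    · show (V l).valuation (algebraMap kk ℂ (a' l i)) = 1
      rw [ha']
      exact hva l i
    · show (V l).valuation (algebraMap kk ℂ (b' l i)) = 1
      rw [hb']
      exact hvb l i
    · apply hinjC
      rw [map_mul, map_mul, map_pow]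
      show algebraMap kk ℂ (a' l i) * algebraMap kk ℂ (lam' i) =
        algebraMap kk ℂ (b' l i) * algebraMap kk ℂ (π' l) ^ e l i
      rw [ha', hb', hπ', hlam']
      exact habeq l i
  · intro i i'
    have := mul_pos (Z.det_pos i) (Z.det_pos i')
    omega
  · intro i hi
    obtain ⟨z, hz⟩ := hxZ
    have e3 : x (Sum.inl i) = Z.const i := (hz i).1 hi
    rw [e3]
    rcases Z.allowed i with ⟨τ, hτ, hc⟩ | h
    · rw [hc]
      exact (singular_modulus_integral τ hτ).tower_top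
    · exact hintU _ h
  · intro i
    have h1 := (hxy i).1
    rw [valueAt] at h1
    have h2 : (R' i).map (Polynomial.mapRingHom Λ.subtype) = (R i).map φ := hR' i
    have h3 : ((Polynomial.aeval (x (Sum.inl i)) : Polynomial kk →ₐ[kk] ℂ).toRingHom).comp φ =
        (Polynomial.aeval (x (Sum.inl i)) : Polynomial K →ₐ[K] ℂ).toRingHom := by
      ext z
      · simp [φ]
      · simp [φ]
    have h4 : ((Polynomial.aeval (x (Sum.inl i)) : Polynomial kk →ₐ[kk] ℂ).toRingHom).comp
        (Polynomial.mapRingHom Λ.subtype) =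
        (Polynomial.aeval (x (Sum.inl i)) : Polynomial Λ →ₐ[Λ] ℂ).toRingHom := by
      refine Polynomial.ringHom_ext (fun a => ?_) ?_
      · simp only [RingHom.comp_apply, Polynomial.coe_mapRingHom, Polynomial.map_C,
          AlgHom.toRingHom_eq_coe, RingHom.coe_coe, Polynomial.aeval_C]
        rfl
      · simp
    rw [← h3, ← Polynomial.eval₂_map, ← h2, Polynomial.eval₂_map, h4] at h1
    exact h1
  · intro j
    have h1 : IsIntegral Λ (η j) := hintU _ (hη j).2.1
    have h2 : IsIntegral kk (η j) := h1.tower_top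
    have h3 : IsAlgebraic K (η j) := h2.isAlgebraic.restrictScalars K
    exact ⟨⟨η j, mem_algebraicClosure_iff.2 h3⟩, rfl⟩
  · intro i
    rw [hval _ _ (hG' i)]
    exact hy.2 i
  · intro i
    rw [hval _ _ (hA' (Sum.inl (Sum.inl i))), hval _ _ (hB' (Sum.inl (Sum.inl i)))]
    show algebraMap kk ℂ (lam' (Sum.inl i)) * _ * _ = _
    rw [hlam']
    exact (hxy i).2
  · intro j
    rw [hval _ _ (hA' (Sum.inl (Sum.inr j))), hval _ _ (hB' (Sum.inl (Sum.inr j)))]
    show algebraMap kk ℂ (lam' (Sum.inr j)) * _ * _ = _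
    rw [hlam']
    exact hxy2 j
  · intro l
    have h0 : π' l ≠ 0 := by
      intro h0
      apply (hπC l).2.1
      rw [← hπ', h0, map_zero]
    have h1 := algInd_smul hSTk (Sum.elim (fun _ : S => (1 : kk)) (fun _ : T1 => (π' l)⁻¹)) (by
      rintro (i | a)
      · exact one_ne_zero
      · exact inv_ne_zero h0)
    have h2 := h1.restrictScalars hsub
    convert h2 using 1
    funext i
    rcases i with i | a
    · simp only [Sum.elim_inl, map_one, one_mul]
    · simp only [Sum.elim_inr, map_inv₀]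
      rfl

end Pool.Agent.Q57.ZP
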