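import Pool.Agent.Q57.ZP.HodE

/-!
The local criterion for total spaces of families over an elliptic curve (helper file).
-/

set_option autoImplicit false

namespace Pool.Agent.Q57.ZP

open H294ZP UpperHalfPlane MvPolynomial Pool.Agent.W282.ZP Pool.Agent.Y910.Z
  Pool.Agent.Y199.SG Pool.Agent.Y199.SG.ZPZ
open Pool.Agent.Results.MP_a325a5_ag.FinitelyGeneratedFields

/-- The criterion over an elliptic curve. -/
theorem tot_crit_ell (K : Subfield ℂ) (κ : Type) [Finite κ] (N n k m T : ℕ)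
    (G : κ → MvPolynomial (Fin (N + 1)) (Polynomial K)) (hG : ∀ l, ∃ e, (G l).IsHomogeneous e)
    (A B : Fin n ⊕ Fin k → MvPolynomial (Fin (N + 1)) (Polynomial K)) (δ : Fin n ⊕ Fin k → ℕ)
    (hA : ∀ i, (A i).IsHomogeneous (δ i)) (hB : ∀ i, (B i).IsHomogeneous (δ i))
    (R : Fin n → Polynomial (Polynomial K)) (hR : ∀ i, (R i).Monic)
    (hT : ∀ i u w, ((R i).coeff u).coeff w ≠ 0 → u ≤ T ∧ w ≤ T)
    (a b : ℂ) (u v : MvPolynomial (Fin 2) ℂ)
    (hu : ∀ d, IsAlgebraic K (u.coeff d)) (hv : ∀ d, IsAlgebraic K (v.coeff d))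
    (Q : Fin (n.choose 2 + k * 2 ^ k + 1) → Fin 2 → ℂ) (hQa : ∀ l i, IsAlgebraic K (Q l i))
    (hvQ : ∀ l, eval (Q l) v ≠ 0)
    (c : Fin n ⊕ Fin k → MvPolynomial (Fin 2) ℂ)
    (e : Fin (n.choose 2 + k * 2 ^ k + 1) → Fin n ⊕ Fin k → ℕ)
    (hord : ∀ l i, HasOrder K a b (Q l) (c i) (e l i)) (he : ∀ l i, 0 < e l i)
    (hsq : ∀ l l', l ≠ l' → ∀ i j : Fin n, i ≠ j → ∀ q, 0 < q → q ≤ T ^ 8 →
      ¬ IsSquare (q * (e l (Sum.inl i) * e l (Sum.inl j) *
        (e l' (Sum.inl i) * e l' (Sum.inl j)))))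
    (hlin : ∀ (s : Finset (Fin (n.choose 2 + k * 2 ^ k + 1))) (b : Fin k → ℤ), k ≤ s.card →
      (∀ l ∈ s, ∑ j, b j * (e l (Sum.inr j) : ℤ) = 0) → b = 0)
    (hpos : ∀ l, GenPos (value u v (Q l)) m G A B)
    (F : Finset ℂ) (hF : ∀ z ∈ F, IsAlgebraic K z) (H : Finset (MvPolynomial (Fin 2) ℂ))
    (hHa : ∀ h ∈ H, ∀ d, IsAlgebraic K (h.coeff d)) (hHQ : ∀ l, ∀ h ∈ H, eval (Q l) h ≠ 0) :
    ∃ W₁ : Finset ℂ, ∀ P ∈ Curve a b, (∀ i, IsAlgebraic K (P i)) → (∀ l, loc (Q l) P ≠ 0) →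
      (∀ l, ∃ V : ValuationSubring ℂ, (∀ z ∈ W₁, z ∈ V) ∧ ∀ i, V.valuation (P i - Q l i) < 1) →
      ∀ w : Fin n ⊕ Fin k → ℂ, (∀ i, IntUnit (gensE F H P) (w i)) →
      ∀ (r : ℕ) (Z : SpecialVariety (algebraMap (Algebra.adjoin ℤ (gensE F H P)) ℂ) n r)
        (Ms : Submodule ℤ (Fin k → ℤ)) (η : Fin k → ℂ), (∀ j, IntUnit (gensE F H P) (η j)) →
        ∀ (y : Fin (N + 1) → ℂ) (j0 : Fin (N + 1)), y j0 = 1 → OnB (value u v P) G y →
        ∀ (x : Fin n ⊕ Fin k → ℂ) (s : Fin n → ℂ), (∀ j, x (Sum.inr j) ≠ 0) →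
        (∀ i, valueAt (R i) (s i) (x (Sum.inl i)) = 0 ∧
          w (Sum.inl i) * eval P (c (Sum.inl i)) *
            eval₂ (evalAt K (value u v P)) y (B (Sum.inl i)) * s i =
            eval₂ (evalAt K (value u v P)) y (A (Sum.inl i))) →
        (∀ j, w (Sum.inr j) * eval P (c (Sum.inr j)) *
          eval₂ (evalAt K (value u v P)) y (B (Sum.inr j)) *
          x (Sum.inr j) = eval₂ (evalAt K (value u v P)) y (A (Sum.inr j))) →
        (fun i => x (Sum.inl i)) ∈ Z.locus → (fun j => x (Sum.inr j)) ∈ coset Ms η →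
        ∀ (S : Finset (Fin n ⊕ Fin k)) (T1 : Finset (Fin (N + 1))),
        AlgebraicIndependent K (Sum.elim (fun i : S => x i) (fun a : T1 => y a)) →
        S.card + T1.card + n + Module.finrank ℤ Ms ≤ r + m := by
  classical
  have hmem : ∀ z : ℂ, IsAlgebraic K z → z ∈ algebraicClosure K ℂ := fun z hz =>
    mem_algebraicClosure_iff'.2 hz.isIntegral
  have hmem' : ∀ z : ℂ, z ∈ algebraicClosure K ℂ → IsAlgebraic K z := fun z hz =>
    (mem_algebraicClosure_iff'.1 hz).isAlgebraic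
  have hinvalg : ∀ z : ℂ, IsAlgebraic K z → IsAlgebraic K z⁻¹ := fun z hz =>
    hmem' _ (inv_mem (hmem _ hz))
  have halgv : ∀ P : Fin 2 → ℂ, (∀ i, IsAlgebraic K (P i)) → IsAlgebraic K (value u v P) :=
    fun P hP => hmem' _ (div_mem (hmem _ (alg_evalK K u P hu hP)) (hmem _ (alg_evalK K v P hv hP)))
  obtain ⟨W₀, hW₀a, hcrit⟩ := tot_crit_places K κ N n k m T G hG A B δ hA hB R hR hT
    (fun l => value u v (Q l)) (fun l => halgv _ (hQa l)) hpos e he hsq hlin
  choose g h hg hh hg0 hh0 hgh using hord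
  -- the finite set of numbers
  let S₀ : Finset ℂ := (Finset.univ.biUnion fun l => numsE F H (Q l) ∪ {(eval (Q l) v)⁻¹}) ∪
      (u.support.image fun d => u.coeff d) ∪ (v.support.image fun d => v.coeff d) ∪
    Finset.univ.biUnion fun l => Finset.univ.biUnion fun i =>
      ((g l i).support.image fun d => (g l i).coeff d) ∪
      ((h l i).support.image fun d => (h l i).coeff d) ∪
      {(eval (Q l) (g l i))⁻¹, (eval (Q l) (h l i))⁻¹}
  refine ⟨W₀ ∪ S₀, fun P hP hPa hloc hnear w hw r Z Ms η hη y j0 hyj0 hy x s hx0 hxy hxy2 hxZ hC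
    S T1 hST => ?_⟩
  choose V hVW hVn using hnear
  have hVS : ∀ l, ∀ z ∈ S₀, z ∈ V l := fun l z hz => hVW l z (Finset.mem_union_right _ hz)
  have hSl : ∀ l, ∀ z ∈ numsE F H (Q l) ∪ {(eval (Q l) v)⁻¹}, ∀ l', z ∈ V l' := by
    intro l z hz l'
    exact hVS l' z (Finset.mem_union_left _ (Finset.mem_union_left _ (Finset.mem_union_left _
      (Finset.mem_biUnion.2 ⟨l, Finset.mem_univ _, hz⟩))))
  have hcoef : ∀ (l' : Fin (n.choose 2 + k * 2 ^ k + 1)) (q : MvPolynomial (Fin 2) ℂ),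
      (∀ d ∈ q.support, q.coeff d ∈ S₀) → ∀ d, q.coeff d ∈ V l' := by
    intro l' q hq d
    by_cases h2 : d ∈ q.support
    · exact hVS l' _ (hq d h2)
    · rw [MvPolynomial.notMem_support_iff.1 h2]
      exact zero_mem _
  have huV : ∀ l' d, u.coeff d ∈ V l' := fun l' => hcoef l' u fun d hd =>
    Finset.mem_union_left _ (Finset.mem_union_left _ (Finset.mem_union_right _
      (Finset.mem_image_of_mem _ hd)))
  have hvV : ∀ l' d, v.coeff d ∈ V l' := fun l' => hcoef l' v fun d hd =>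
    Finset.mem_union_left _ (Finset.mem_union_right _ (Finset.mem_image_of_mem _ hd))
  have hSgh : ∀ l i, ∀ z ∈ ((g l i).support.image fun d => (g l i).coeff d) ∪
      ((h l i).support.image fun d => (h l i).coeff d) ∪
      {(eval (Q l) (g l i))⁻¹, (eval (Q l) (h l i))⁻¹}, z ∈ S₀ := fun l i z hz =>
    Finset.mem_union_right _ (Finset.mem_biUnion.2 ⟨l, Finset.mem_univ _,
      Finset.mem_biUnion.2 ⟨i, Finset.mem_univ _, hz⟩⟩)
  have hgV : ∀ l i l' d, (g l i).coeff d ∈ V l' := fun l i l' => hcoef l' _ fun d hd =>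
    hSgh l i _ (Finset.mem_union_left _ (Finset.mem_union_left _ (Finset.mem_image_of_mem _ hd)))
  have hhV : ∀ l i l' d, (h l i).coeff d ∈ V l' := fun l i l' => hcoef l' _ fun d hd =>
    hSgh l i _ (Finset.mem_union_left _ (Finset.mem_union_right _ (Finset.mem_image_of_mem _ hd)))
  have hginv : ∀ l i l', (eval (Q l) (g l i))⁻¹ ∈ V l' := fun l i l' => hVS l' _
    (hSgh l i _ (Finset.mem_union_right _ (Finset.mem_insert_self _ _)))
  have hhinv : ∀ l i l', (eval (Q l) (h l i))⁻¹ ∈ V l' := fun l i l' => hVS l' _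
    (hSgh l i _ (Finset.mem_union_right _ (Finset.mem_insert_of_mem (Finset.mem_singleton_self _))))
  have hQV : ∀ l i l', Q l i ∈ V l' := by
    intro l i l'
    refine hSl l _ (Finset.mem_union_left _ ?_) l'
    simp only [numsE, Finset.mem_union]
    refine Or.inl (Or.inr ?_)
    fin_cases i
    · exact Finset.mem_insert_self _ _
    · exact Finset.mem_insert_of_mem (Finset.mem_singleton_self _)
  have hPV : ∀ i l', P i ∈ V l' := by
    intro i l'
    have h1 : P i = (P i - Q l' i) + Q l' i := by ring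
    rw [h1]
    exact (V l').add_mem _ _ ((ValuationSubring.valuation_le_one_iff _ _).1 (hVn l' i).le)
      (hQV l' i l')
  have hgenV : ∀ l, ∀ x ∈ gensE F H P, x ∈ V l := fun l =>
    gens_near (V l) (hVn l) (fun z hz => hSl l z (Finset.mem_union_left _ hz) l) (hHQ l)
  have hgenalg : ∀ x ∈ gensE F H P, IsAlgebraic K x := by
    rintro x (⟨i, rfl⟩ | hx | ⟨h, hh, rfl⟩)
    · exact hPa i
    · exact hF x hx
    · exact hinvalg _ (alg_evalK K h P (hHa h hh) hPa)
  have hwv : ∀ l i, (V l).valuation (w i) = 1 := fun l i => (hw i).val (V l) (hgenV l)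
  -- units are algebraic
  have hunitalg : ∀ z : ℂ, IsIntegral (Algebra.adjoin ℤ (gensE F H P)) z → IsAlgebraic K z := by
    intro z hz
    have hle : ∀ x ∈ Algebra.adjoin ℤ (gensE F H P), x ∈ algebraicClosure K ℂ := by
      intro x hx
      have h9 : Algebra.adjoin ℤ (gensE F H P) ≤
          subalgebraOfSubring (algebraicClosure K ℂ).toSubalgebra.toSubring :=
        Algebra.adjoin_le fun g hg => hmem _ (hgenalg g hg)
      exact h9 hx
    obtain ⟨p, hp, hpz⟩ := hz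
    have h1 : IsIntegral (algebraicClosure K ℂ) z := by
      let f : Algebra.adjoin ℤ (gensE F H P) →+* algebraicClosure K ℂ :=
        { toFun := fun x => ⟨x.1, hle x.1 x.2⟩
          map_one' := rfl
          map_mul' := fun _ _ => rfl
          map_zero' := rfl
          map_add' := fun _ _ => rfl }
      refine ⟨p.map f, hp.map f, ?_⟩
      rw [Polynomial.eval₂_map]
      exact hpz
    exact h1.isAlgebraic.restrictScalars K
  have hord1 : ∀ l i, (V l).valuation (eval P (c i)) = (V l).valuation (loc (Q l) P) ^ e l i :=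
    fun l i => order_near (V l) (hVn l) (fun i => hQV l i l) hP (g l i) (h l i) (c i) (e l i)
      (hgV l i l) (hhV l i l) (hg0 l i) (hh0 l i) (hginv l i l) (hhinv l i l) (hgh l i)
  have hGu : ∀ l i, (V l).valuation (eval P (g l i)) = 1 := fun l i =>
    (v_unit (V l) (g l i) P (Q l) (hgV l i l) (fun i => hQV l i l) (hVn l) (hg0 l i)
      (hginv l i l)).1
  have hHu : ∀ l i, (V l).valuation (eval P (h l i)) = 1 := fun l i =>
    (v_unit (V l) (h l i) P (Q l) (hhV l i l) (fun i => hQV l i l) (hVn l) (hh0 l i)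
      (hhinv l i l)).1
  have hlocV : ∀ l, (V l).valuation (loc (Q l) P) < 1 := fun l => loc_near (V l) (hVn l)
  have hlocalg : ∀ l, IsAlgebraic K (loc (Q l) P) := by
    intro l
    by_cases h2 : Q l 1 = 0
    · rw [loc, if_pos h2]
      exact hPa 1
    · rw [loc, if_neg h2]
      exact hmem' _ (sub_mem (hmem _ (hPa 0)) (hmem _ (hQa l 0)))
  have hlocmem : ∀ l l', loc (Q l) P ∈ V l' := by
    intro l l'
    by_cases h2 : Q l 1 = 0
    · rw [loc, if_pos h2]
      exact hPV 1 l'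
    · rw [loc, if_neg h2]
      exact sub_mem (hPV 0 l') (hQV l 0 l')
  have l₀ : Fin (n.choose 2 + k * 2 ^ k + 1) := 0
  have hcalg : ∀ i, IsAlgebraic K (eval P (c i)) := by
    intro i
    have h0 : eval P (h l₀ i) ≠ 0 := by
      intro h0
      have h1 := hHu l₀ i
      rw [h0, map_zero] at h1
      exact zero_ne_one h1
    have h1 : eval P (c i) = loc (Q l₀) P ^ e l₀ i * eval P (g l₀ i) / eval P (h l₀ i) := by
      rw [eq_div_iff h0, mul_comm]
      exact hgh l₀ i P hP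
    rw [h1]
    exact hmem' _ (div_mem (mul_mem (pow_mem (hmem _ (hlocalg l₀)) _)
      (hmem _ (alg_evalK K _ P (hg l₀ i) hPa))) (hmem _ (alg_evalK K _ P (hh l₀ i) hPa)))
  refine hcrit V (fun l z hz => hVW l z (Finset.mem_union_left _ hz)) (value u v P)
    (halgv P hPa) (fun l => ?_) (fun l => loc (Q l) P) (fun l => ⟨hlocalg l, hloc l, hlocV l,
      hlocmem l⟩) (fun i => w i * eval P (c i)) (fun i => ⟨?_, fun l => ?_⟩) (fun l i => ?_)
    (gensE F H P) (fun z hz => ⟨hgenalg z hz, fun l => hgenV l z hz⟩) r Z Ms η hη y j0 hyj0 hy x s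
    hx0 hxy hxy2 hxZ hC S T1 hST
  · -- the value of `φ`
    obtain ⟨u1, u2, u3⟩ := v_near (V l) u P (Q l) (huV l) (fun i => hQV l i l) (hVn l)
    obtain ⟨v1, v2, v3⟩ := v_near (V l) v P (Q l) (hvV l) (fun i => hQV l i l) (hVn l)
    obtain ⟨v4, v5⟩ := v_unit (V l) v P (Q l) (hvV l) (fun i => hQV l i l) (hVn l) (hvQ l)
      (hSl l _ (Finset.mem_union_right _ (Finset.mem_singleton_self _)) l)
    have hvP : eval P v ≠ 0 := by
      intro h0
      rw [h0, map_zero] at v4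
      exact zero_ne_one v4
    have hvQl := hvQ l
    have h1 : value u v P - value u v (Q l) =
        ((eval P u - eval (Q l) u) * eval (Q l) v - eval (Q l) u * (eval P v - eval (Q l) v))
          / (eval P v * eval (Q l) v) := by
      rw [value, value]
      field_simp
      ring
    rw [h1, map_div₀, map_mul, v4, v5, mul_one, div_one]
    refine lt_of_le_of_lt (Valuation.map_sub _ _ _) (max_lt ?_ ?_)
    · rw [map_mul, v5, mul_one]
      exact u3
    · rw [map_mul, mul_comm]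
      exact mul_lt_one_of_lt_of_le v3 ((ValuationSubring.valuation_le_one_iff _ _).2 u2)
  · exact hmem' _ (mul_mem (hmem _ (hunitalg _ (hw i).2.1)) (hmem _ (hcalg i)))
  · rw [← ValuationSubring.valuation_le_one_iff, map_mul, hwv, one_mul, hord1]
    exact pow_le_one' (hlocV l).le _
  · refine ⟨eval P (h l i), w i * eval P (g l i), alg_evalK K _ P (hh l i) hPa,
      hmem' _ (mul_mem (hmem _ (hunitalg _ (hw i).2.1)) (hmem _ (alg_evalK K _ P (hg l i) hPa))),
      fun l' => ⟨(v_near (V l') (h l i) P (Q l') (hhV l i l') (fun i => hQV l' i l')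
        (hVn l')).1, ?_⟩, hHu l i, ?_, ?_⟩
    · exact mul_mem ((ValuationSubring.valuation_le_one_iff _ _).1 (hwv l' i).le)
        (v_near (V l') (g l i) P (Q l') (hgV l i l') (fun i => hQV l' i l') (hVn l')).1
    · rw [map_mul, hwv, one_mul]
      exact hGu l i
    · have h1 := hgh l i P hP
      calc eval P (h l i) * (w i * eval P (c i)) = w i * (eval P (h l i) * eval P (c i)) := by ring
        _ = w i * (loc (Q l) P ^ e l i * eval P (g l i)) := by rw [h1]
        _ = _ := by ring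

/-- The pure case of the criterion over an elliptic curve. -/
theorem tot_crit_ell_pure (K : Subfield ℂ) (κ : Type) [Finite κ] (N n m T : ℕ)
    (G : κ → MvPolynomial (Fin (N + 1)) (Polynomial K)) (hG : ∀ l, ∃ e, (G l).IsHomogeneous e)
    (A B : Fin n → MvPolynomial (Fin (N + 1)) (Polynomial K)) (δ : Fin n → ℕ)
    (hA : ∀ i, (A i).IsHomogeneous (δ i)) (hB : ∀ i, (B i).IsHomogeneous (δ i))
    (R : Fin n → Polynomial (Polynomial K)) (hR : ∀ i, (R i).Monic)
    (hT : ∀ i u w, ((R i).coeff u).coeff w ≠ 0 → u ≤ T ∧ w ≤ T)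
    (a b : ℂ) (u v : MvPolynomial (Fin 2) ℂ)
    (hu : ∀ d, IsAlgebraic K (u.coeff d)) (hv : ∀ d, IsAlgebraic K (v.coeff d))
    (Q : Fin (n.choose 2 + 1) → Fin 2 → ℂ) (hQa : ∀ l i, IsAlgebraic K (Q l i))
    (hvQ : ∀ l, eval (Q l) v ≠ 0)
    (c : Fin n → MvPolynomial (Fin 2) ℂ) (e : Fin (n.choose 2 + 1) → Fin n → ℕ)
    (hord : ∀ l i, HasOrder K a b (Q l) (c i) (e l i)) (he : ∀ l i, 0 < e l i)
    (hsq : ∀ l l', l ≠ l' → ∀ i j : Fin n, i ≠ j → ∀ q, 0 < q → q ≤ T ^ 8 →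
      ¬ IsSquare (q * (e l i * e l j * (e l' i * e l' j))))
    (hpos : ∀ l, ∀ I : Finset (Fin n ⊕ Fin (N + 1)), I.card = m + 1 →
      ∀ y : Fin (N + 1) → ℂ, OnB (value u v (Q l)) G y →
      ∃ i ∈ I, Sum.elim (fun i => eval₂ (evalAt K (value u v (Q l))) y (A i) *
        eval₂ (evalAt K (value u v (Q l))) y (B i)) y i ≠ 0)
    (F : Finset ℂ) (hF : ∀ z ∈ F, IsAlgebraic K z) (H : Finset (MvPolynomial (Fin 2) ℂ))
    (hHa : ∀ h ∈ H, ∀ d, IsAlgebraic K (h.coeff d)) (hHQ : ∀ l, ∀ h ∈ H, eval (Q l) h ≠ 0) :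
    ∃ W₁ : Finset ℂ, ∀ P ∈ Curve a b, (∀ i, IsAlgebraic K (P i)) → (∀ l, loc (Q l) P ≠ 0) →
      (∀ l, ∃ V : ValuationSubring ℂ, (∀ z ∈ W₁, z ∈ V) ∧ ∀ i, V.valuation (P i - Q l i) < 1) →
      ∀ w : Fin n → ℂ, (∀ i, IntUnit (gensE F H P) (w i)) →
      ∀ (r : ℕ) (Z : SpecialVariety (algebraMap (Algebra.adjoin ℤ (gensE F H P)) ℂ) n r)
        (y : Fin (N + 1) → ℂ) (j0 : Fin (N + 1)), y j0 = 1 → OnB (value u v P) G y →
        ∀ (x : Fin n → ℂ) (s : Fin n → ℂ),
        (∀ i, valueAt (R i) (s i) (x i) = 0 ∧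
          w i * eval P (c i) * eval₂ (evalAt K (value u v P)) y (B i) * s i =
            eval₂ (evalAt K (value u v P)) y (A i)) →
        x ∈ Z.locus →
        ∀ (S : Finset (Fin n)) (T1 : Finset (Fin (N + 1))),
        AlgebraicIndependent K (Sum.elim (fun i : S => x i) (fun a : T1 => y a)) →
        S.card + T1.card + n ≤ r + m := by
  classical
  let f0 : ∀ {β : Sort 1}, Fin 0 → β := fun {β} i => i.elim0
  let A' : Fin n ⊕ Fin 0 → MvPolynomial (Fin (N + 1)) (Polynomial K) := Sum.elim A f0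
  let B' : Fin n ⊕ Fin 0 → MvPolynomial (Fin (N + 1)) (Polynomial K) := Sum.elim B f0
  let c' : Fin n ⊕ Fin 0 → MvPolynomial (Fin 2) ℂ := Sum.elim c f0
  let δ' : Fin n ⊕ Fin 0 → ℕ := Sum.elim δ f0
  have hsum : ∀ {Q : Fin n ⊕ Fin 0 → Prop}, (∀ i, Q (Sum.inl i)) → ∀ i, Q i := by
    intro Q h i
    rcases i with i | i
    · exact h i
    · exact i.elim0
  have hcard : n.choose 2 + 0 * 2 ^ 0 + 1 = n.choose 2 + 1 := by omega
  obtain ⟨W, hcrit⟩ := tot_crit_ell K κ N n 0 m T G hG A' B' δ' (hsum hA) (hsum hB) R hR hT a b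
    u v hu hv (fun l => Q (Fin.cast hcard l)) (fun l => hQa _) (fun l => hvQ _) c'
    (fun l => Sum.elim (e (Fin.cast hcard l)) f0) (fun l => hsum (hord _)) (fun l => hsum (he _))
    (fun l l' hll i j hij => hsq _ _ (fun h => hll (by simpa using h)) i j hij)
    (fun s b hs hb => Subsingleton.elim _ _)
    (by
      intro l I hI y hy
      let em : (Fin n ⊕ Fin 0) ⊕ Fin (N + 1) ≃ Fin n ⊕ Fin (N + 1) :=
        Equiv.sumCongr (Equiv.sumEmpty (Fin n) (Fin 0)) (Equiv.refl _)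
      obtain ⟨i, hi, h⟩ := hpos _ (I.map em.toEmbedding) (by rw [Finset.card_map, hI]) y hy
      obtain ⟨i', hi', rfl⟩ := Finset.mem_map.1 hi
      refine ⟨i', hi', ?_⟩
      rcases i' with (i' | i') | a
      · exact h
      · exact i'.elim0
      · exact h)
    F hF H hHa (fun l => hHQ _)
  refine ⟨W, fun P hP hPa hloc hnear w hw r Z y j0 hyj0 hy x s hxy hxZ S T1 hST => ?_⟩
  have h := hcrit P hP hPa (fun l => hloc _) (fun l => hnear _) (Sum.elim w f0) (hsum hw) r Z ⊥ f0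
    (fun j => j.elim0) y j0 hyj0 hy
    (Sum.elim x f0) s (fun j => j.elim0) (fun i => hxy i) (fun j => j.elim0) hxZ
    ⟨fun j => j.elim0, fun a ha => by
      rw [Finset.prod_of_isEmpty, Finset.prod_of_isEmpty]⟩
    (S.map ⟨Sum.inl, Sum.inl_injective⟩) T1 (by
      let g' : (S.map ⟨Sum.inl, Sum.inl_injective⟩ : Finset (Fin n ⊕ Fin 0)) ⊕ T1 → S ⊕ T1 :=
        Sum.map (fun j => ⟨(Equiv.sumEmpty (Fin n) (Fin 0)) j, by
          obtain ⟨i, hi, h⟩ := Finset.mem_map.1 j.2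
          rw [← h]
          exact hi⟩) id
      have hg : Function.Injective g' := by
        refine Function.Injective.sumMap ?_ Function.injective_id
        intro a b h
        have h1 := congrArg Subtype.val h
        exact Subtype.ext ((Equiv.sumEmpty (Fin n) (Fin 0)).injective h1)
      have h5 := hST.comp g' hg
      convert h5 using 1
      funext j
      rcases j with ⟨(j | j), hj⟩ | j
      · rfl
      · exact j.elim0
      · rfl)
  rw [Finset.card_map] at h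
  have h0 : Module.finrank ℤ (⊥ : Submodule ℤ (Fin 0 → ℤ)) = 0 := finrank_bot ℤ _
  omega

/-- The points at which a local parameter vanishes. -/
theorem loc_finite (a b : ℂ) (Q : Fin 2 → ℂ) :
    {P : Fin 2 → ℂ | P ∈ Curve a b ∧ loc Q P = 0}.Finite := by
  by_cases h1 : Q 1 = 0
  · refine (Pool.Agent.Y199.SG.zero_finite a b).subset ?_
    rintro P ⟨h2, h3⟩
    rw [loc, if_pos h1] at h3
    exact ⟨h2, h3⟩
  · refine (Pool.Agent.Y199.SG.fibre_finite a b (Q 0)).subset ?_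
    rintro P ⟨h2, h3⟩
    rw [loc, if_neg h1] at h3
    exact ⟨h2, sub_eq_zero.1 h3⟩

end Pool.Agent.Q57.ZP
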