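import Pool.Agent.Q57.ZP.Unit
import Pool.Agent.Y152.RP.Main
import Pool.Agent.Y152.RP.PlaceM

/-!
Parameters of bounded degree, radical parameters and roots of unity (helper file).
-/

set_option autoImplicit false

namespace Pool.Agent.Q57.ZP

open Pool.Agent.Y910.Z (Bad)
open Pool.Agent.Y152.BD (Nv DegLE finite_badD)
open Pool.Agent.Y152.RP (Rad arithMain unityMain alg_of_rad exists_placesU)

/-- If the value of the minimal polynomial of `t` at `α` has a large prime factor then `t` is not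
integral relative to `α`. -/
theorem not_bad_of_prime (W : Finset ℂ) {L M : ℕ} (α : Fin M → ℚ) : ∃ D : ℕ, ∀ (t : ℂ)
    (f : Fin L → Fin M) (G : Polynomial ℤ), Irreducible G → Polynomial.aeval t G = 0 →
      (∀ l, ∃ p : ℕ, p.Prime ∧ D < p ∧ (p : ℤ) ∣ Nv G (α (f l))) →
      t ∉ Finset.univ.image (fun l => ((α l : ℚ) : ℂ)) →
      ∀ l, ¬ Bad (W : Set ℂ) t ((α (f l) : ℚ) : ℂ) := by
  classical
  let W' : Set ℂ := (W : Set ℂ) ∪ Set.range (fun l => ((α l : ℚ) : ℂ))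
  obtain ⟨D, hD⟩ := exists_placesU (k := ℂ) (L := L) W' (W.finite_toSet.union (Set.finite_range _)) α
  refine ⟨D, fun t f G hG hGt hp ht l => ?_⟩
  obtain ⟨V, hV1, hV2, -⟩ := hD t f G hG hGt hp Empty (Empty.elim)
    (algebraicIndependent_empty_type_iff.2 (algebraMap ℂ ℂ).injective) l
  rintro ⟨h1, h2⟩
  have ha : ((α (f l) : ℚ) : ℂ) ∈ V := hV2 _ (Or.inr ⟨f l, rfl⟩)
  have hd : t - ((α (f l) : ℚ) : ℂ) ∈ V := (ValuationSubring.valuation_le_one_iff _ _).1 hV1.le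
  have htV : t ∈ V := by
    have h3 := V.toSubring.add_mem hd ha
    rw [sub_add_cancel] at h3
    exact h3
  have hle : Subring.closure (insert t (W : Set ℂ)) ≤ V.toSubring := by
    rw [Subring.closure_le]
    intro x hx
    rcases Set.mem_insert_iff.1 hx with rfl | hx
    · exact htV
    · exact hV2 x (Or.inl hx)
  have h3 : (t - ((α (f l) : ℚ) : ℂ))⁻¹ ∈ V := hle h2
  have h4 := (ValuationSubring.valuation_le_one_iff _ _).2 h3
  rw [map_inv₀] at h4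
  have hV1' : V.valuation (t - ((α (f l) : ℚ) : ℂ)) < 1 := hV1
  have h5 : V.valuation (t - ((α (f l) : ℚ) : ℂ)) ≠ 0 :=
    (Valuation.ne_zero_iff _).2 (sub_ne_zero.2 h1)
  exact absurd ((inv_le_one₀ (zero_lt_iff.2 h5)).1 h4) (not_le.2 hV1')

/-- The three classes of parameters. -/
theorem fin_par (W : Finset ℂ) {L M : ℕ} (D : Fin M → Finset ℂ) (α : Fin M → ℚ)
    (hα : ∀ l, ((α l : ℚ) : ℂ) ∈ D l) (E : Set ℂ)
    (hE : ∀ t, t ∉ ((Finset.univ.biUnion D : Finset ℂ) : Set ℂ) → IsAlgebraic ℤ t →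
      (∃ f : Fin L → Fin M, Function.Injective f ∧ ∀ l, ∃ a ∈ D (f l), ¬ Bad (W : Set ℂ) t a) →
      t ∉ E) :
    (Function.Injective α → ∀ d : ℕ, L + 2 * d ≤ M →
      {t : ℂ | (∃ F : Polynomial ℤ, F ≠ 0 ∧ F.natDegree ≤ d ∧ Polynomial.aeval t F = 0) ∧
        t ∈ E}.Finite) ∧
    ((∀ l, α l ≠ 0) → (∀ l l', l ≠ l' → |α l| ≠ |α l'|) → L + 2 ≤ M →
      {t : ℂ | (∃ N : ℕ, 0 < N ∧ ∃ q : ℚ, t ^ N = (q : ℂ)) ∧ t ∈ E}.Finite) ∧
    ((∀ l, α l ≠ 0 ∧ |α l| ≠ 1) → L ≤ M →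
      {t : ℂ | (∃ N : ℕ, 0 < N ∧ t ^ N = 1) ∧ t ∈ E}.Finite) := by
  classical
  obtain ⟨D₀, hD₀⟩ := not_bad_of_prime (L := L) W α
  have key : ∀ Q : ℂ → Prop, (∀ t, Q t → IsAlgebraic ℤ t) →
      {t : ℂ | Q t ∧ ¬ ∃ f : Fin L → Fin M, Function.Injective f ∧
        ∃ G : Polynomial ℤ, Irreducible G ∧ Polynomial.aeval t G = 0 ∧
        ∀ l, ∃ p : ℕ, p.Prime ∧ D₀ < p ∧ (p : ℤ) ∣ Nv G (α (f l))}.Finite →
      {t : ℂ | Q t ∧ t ∈ E}.Finite := by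
    intro Q hQ hfin
    refine (hfin.union (Finset.univ.biUnion D).finite_toSet).subset ?_
    rintro t ⟨hQt, htE⟩
    by_cases htD : t ∈ ((Finset.univ.biUnion D : Finset ℂ) : Set ℂ)
    · exact Or.inr htD
    left
    refine ⟨hQt, ?_⟩
    rintro ⟨f, hf, G, hG, hGt, hp⟩
    refine hE t htD (hQ t hQt) ⟨f, hf, fun l => ⟨_, hα (f l), hD₀ t f G hG hGt hp ?_ l⟩⟩ htE
    intro h
    obtain ⟨l', -, hl'⟩ := Finset.mem_image.1 h
    apply htD
    rw [← hl']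
    exact Finset.mem_coe.2 (Finset.mem_biUnion.2 ⟨l', Finset.mem_univ _, hα l'⟩)
  refine ⟨fun hinj d hM => ?_, fun h0 hdist hM => ?_, fun hne hM => ?_⟩
  · refine key _ ?_ (finite_badD D₀ d hM α hinj)
    rintro t ⟨F, hF0, -, hFt⟩
    exact ⟨F, hF0, hFt⟩
  · exact key _ (fun t ht => alg_of_rad ht) (arithMain D₀ _ M hM α h0 hdist)
  · refine key _ ?_ (unityMain hM α (fun l => (hne l).1) (fun l => (hne l).2) D₀)
    rintro t ⟨N, hN, ht⟩
    exact alg_of_rad ⟨N, hN, 1, by rw [ht, Rat.cast_one]⟩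

end Pool.Agent.Q57.ZP
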