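import Pool.Agent.Y670.RD.Rid
import Pool.Agent.TH930.GH.Rid

/-!
The values of binary forms with three different linear factors, and of polynomials with two different
roots, have large prime factors (Mahler, Siegel), from the theorem of Ridout (helper file).
-/

set_option autoImplicit false

namespace Pool.Agent.Q57.ZP

open Polynomial Finset Pool.Agent.Y670.RD

/-- a box of pairs of integers is finite -/
theorem finite_box (B : ℝ) :
    {z : ℤ × ℤ | |(z.1 : ℝ)| ≤ B ∧ |(z.2 : ℝ)| ≤ B}.Finite := by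
  refine ((Set.finite_Icc (-⌈B⌉) ⌈B⌉).prod (Set.finite_Icc (-⌈B⌉) ⌈B⌉)).subset ?_
  rintro ⟨x, y⟩ ⟨hx, hy⟩
  have h : ∀ x : ℤ, |(x : ℝ)| ≤ B → x ∈ Set.Icc (-⌈B⌉) ⌈B⌉ := by
    intro x hx
    have h1 := hx.trans (Int.le_ceil B)
    rw [abs_le] at h1
    rw [Set.mem_Icc]
    constructor
    · exact_mod_cast h1.1
    · exact_mod_cast h1.2
  exact ⟨h x hx, h y hy⟩

/-- the theorem of Mahler for squarefree forms -/
theorem mahler_sqf (g : ℤ[X]) (hg : Squarefree (g.map (Int.castRingHom ℚ)))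
    (hd : 3 ≤ g.natDegree) (D : ℕ) :
    {z : ℤ × ℤ | IsCoprime z.1 z.2 ∧ fv g.natDegree g z.1 z.2 ≠ 0 ∧
      ∀ p : ℕ, p.Prime → (p : ℤ) ∣ fv g.natDegree g z.1 z.2 → p ≤ D}.Finite := by
  classical
  set T : Finset ℕ := (Finset.range (D + 1)).filter Nat.Prime with hT
  have hTp : ∀ p ∈ T, p.Prime := fun p hp => (Finset.mem_filter.1 hp).2
  obtain ⟨c, hc, h⟩ := rid_form' g hg (by omega) T hTp (1 / 2) (by norm_num)
  refine (finite_box (max 1 ((1 / c) ^ 2))).subset ?_
  rintro ⟨s, t⟩ ⟨hst, h0, hp⟩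
  have h1 := h s t hst h0
  have hprod := Pool.Agent.TH930.GH.unit_prod T hTp h0 (fun ℓ hℓ hd => by
    rw [hT, Finset.mem_filter, Finset.mem_range]
    exact ⟨by have := hp ℓ hℓ hd; omega, hℓ⟩)
  have habs : (0 : ℝ) < |(fv g.natDegree g s t : ℝ)| := abs_pos.2 (by exact_mod_cast h0)
  rw [hprod, mul_inv_cancel₀ habs.ne'] at h1
  set H : ℝ := max |(s : ℝ)| |(t : ℝ)| with hH
  have hHle : H ≤ max 1 ((1 / c) ^ 2) := by
    rcases le_or_gt H 1 with h2 | h2
    · exact h2.trans (le_max_left _ _)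
    · refine le_trans ?_ (le_max_right _ _)
      have hd' : (3 : ℝ) ≤ g.natDegree := by exact_mod_cast hd
      have h3 : H ^ ((1 : ℝ) / 2) ≤ H ^ ((g.natDegree : ℝ) - 2 - 1 / 2) :=
        Real.rpow_le_rpow_of_exponent_le h2.le (by linarith)
      have h4 : H ^ ((1 : ℝ) / 2) ≤ 1 / c := by
        rw [le_div_iff₀ hc]
        nlinarith
      have h5 : H = (H ^ ((1 : ℝ) / 2)) ^ 2 := by
        rw [← Real.rpow_natCast, ← Real.rpow_mul (by linarith)]
        norm_num
      rw [h5]
      exact pow_le_pow_left₀ (Real.rpow_nonneg (by linarith) _) h4 2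
  exact ⟨(le_max_left _ _).trans hHle, (le_max_right _ _).trans hHle⟩

/-- clearing denominators -/
theorem clear (P : ℚ[X]) :
    ∃ (m : ℤ) (Q : ℤ[X]), m ≠ 0 ∧ Q.map (Int.castRingHom ℚ) = C (m : ℚ) * P := by
  obtain ⟨m, hm, h⟩ := IsLocalization.integerNormalization_spec (nonZeroDivisors ℤ) P
  refine ⟨m, IsLocalization.integerNormalization (nonZeroDivisors ℤ) P,
    nonZeroDivisors.ne_zero hm, ?_⟩
  have h1 : (IsLocalization.integerNormalization (nonZeroDivisors ℤ) P).map
    (Int.castRingHom ℚ) = m • P := h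
  rw [h1, zsmul_eq_mul]
  simp

/-- a squarefree divisor with all the roots -/
theorem exists_sqf (f : ℤ[X]) (hf : f ≠ 0) :
    ∃ (g h : ℤ[X]) (r : ℤ), r ≠ 0 ∧ Squarefree (g.map (Int.castRingHom ℚ)) ∧
      (f.rootSet ℂ).ncard ≤ g.natDegree ∧ C r * f = g * h := by
  classical
  have hinj : Function.Injective (Int.castRingHom ℚ) := Int.cast_injective
  set P := f.map (Int.castRingHom ℚ) with hP
  have hP0 : P ≠ 0 := (Polynomial.map_ne_zero_iff hinj).2 hf
  have hroot : ∀ x : ℂ, x ∈ f.rootSet ℂ → aeval x P = 0 := by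
    intro x hx
    rw [mem_rootSet] at hx
    rw [hP]
    have h1 : aeval x (f.map (algebraMap ℤ ℚ)) = aeval x f := aeval_map_algebraMap ℚ x f
    exact h1.trans hx.2
  set R : Finset ℂ := (f.rootSet_finite ℂ).toFinset with hR
  have hRm : ∀ x ∈ R, aeval x P = 0 := fun x hx => hroot x ((f.rootSet_finite ℂ).mem_toFinset.1 hx)
  have hint : ∀ x ∈ R, IsIntegral ℚ x := fun x hx => by
    have h1 : IsAlgebraic ℚ x := ⟨P, hP0, hRm x hx⟩
    exact h1.isIntegral
  set M : Finset ℚ[X] := R.image (minpoly ℚ) with hM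
  have hirr : ∀ q ∈ M, Irreducible q := by
    intro q hq
    obtain ⟨x, hx, rfl⟩ := Finset.mem_image.1 hq
    exact minpoly.irreducible (hint x hx)
  have hmonic : ∀ q ∈ M, q.Monic := by
    intro q hq
    obtain ⟨x, hx, rfl⟩ := Finset.mem_image.1 hq
    exact minpoly.monic (hint x hx)
  have hcop : (M : Set ℚ[X]).Pairwise fun a b => IsCoprime a b := by
    intro a ha b hb hab
    rw [(hirr a ha).coprime_iff_not_dvd]
    intro h
    exact hab (eq_of_monic_of_associated (hmonic a ha) (hmonic b hb)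
      ((hirr a ha).associated_of_dvd (hirr b hb) h))
  have hdvd : ∏ q ∈ M, q ∣ P := by
    refine Finset.prod_dvd_of_coprime hcop fun q hq => ?_
    obtain ⟨x, hx, rfl⟩ := Finset.mem_image.1 hq
    exact minpoly.dvd ℚ x (hRm x hx)
  have hsq : Squarefree (∏ q ∈ M, q) := by
    refine Finset.squarefree_prod_of_pairwise_isCoprime (fun a ha b hb hab => ?_) fun q hq =>
      (hirr q hq).squarefree
    exact (hcop ha hb hab).isRelPrime
  set Q := ∏ q ∈ M, q with hQ
  have hQ0 : Q ≠ 0 := Finset.prod_ne_zero_iff.2 fun q hq => (hirr q hq).ne_zero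
  have hcard : (f.rootSet ℂ).ncard ≤ Q.natDegree := by
    have h1 : (f.rootSet ℂ).ncard = R.card := by
      rw [hR, Set.ncard_eq_toFinset_card _ (f.rootSet_finite ℂ)]
    have h2 : R ⊆ (Q.aroots ℂ).toFinset := by
      intro x hx
      rw [Multiset.mem_toFinset, mem_aroots]
      refine ⟨hQ0, ?_⟩
      rw [hQ, map_prod]
      exact Finset.prod_eq_zero (Finset.mem_image_of_mem _ hx) (minpoly.aeval ℚ x)
    rw [h1]
    refine (Finset.card_le_card h2).trans ((Multiset.toFinset_card_le _).trans ?_)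
    refine (Polynomial.card_roots' _).trans ?_
    rw [natDegree_map]
  obtain ⟨W, hW⟩ := hdvd
  obtain ⟨m1, g, hm1, hg⟩ := clear Q
  obtain ⟨m2, h, hm2, hh⟩ := clear W
  have hm1' : (m1 : ℚ) ≠ 0 := by exact_mod_cast hm1
  refine ⟨g, h, m1 * m2, mul_ne_zero hm1 hm2, ?_, ?_, ?_⟩
  · rw [hg]
    have h1 : Associated Q (C (m1 : ℚ) * Q) :=
      associated_unit_mul_right Q _ (Polynomial.isUnit_C.2 hm1'.isUnit)
    exact h1.squarefree_iff.1 hsq
  · rw [← natDegree_map_eq_of_injective hinj g, hg, natDegree_C_mul hm1']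
    exact hcard
  · apply Polynomial.map_injective _ hinj
    rw [Polynomial.map_mul, Polynomial.map_mul, hg, hh, map_C]
    have : f.map (Int.castRingHom ℚ) = Q * W := hW
    rw [this]
    simp only [eq_intCast, Int.cast_mul, C_mul]
    ring

theorem fv_C_mul (N : ℕ) (r : ℤ) (f : ℤ[X]) (s t : ℤ) : fv N (C r * f) s t = r * fv N f s t := by
  unfold fv
  rw [mul_sum]
  refine sum_congr rfl fun i _ => ?_
  rw [coeff_C_mul]
  ring

/-- **Mahler**: the values of a binary form with three different linear factors have large prime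
factors, with finitely many exceptions. -/
theorem mahler (f : ℤ[X]) (h3 : 3 ≤ (f.rootSet ℂ).ncard) (D : ℕ) :
    {z : ℤ × ℤ | IsCoprime z.1 z.2 ∧ fv f.natDegree f z.1 z.2 ≠ 0 ∧
      ∀ p : ℕ, p.Prime → (p : ℤ) ∣ fv f.natDegree f z.1 z.2 → p ≤ D}.Finite := by
  classical
  have hf : f ≠ 0 := by
    rintro rfl
    simp at h3
  obtain ⟨g, h, r, hr, hsq, hdeg, hgh⟩ := exists_sqf f hf
  have hg0 : g ≠ 0 := by
    rintro rfl
    rw [zero_mul, mul_eq_zero, C_eq_zero] at hgh
    exact hgh.elim hr hf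
  have hh0 : h ≠ 0 := by
    rintro rfl
    rw [mul_zero, mul_eq_zero, C_eq_zero] at hgh
    exact hgh.elim hr hf
  have hN : f.natDegree = g.natDegree + h.natDegree := by
    rw [← natDegree_mul hg0 hh0, ← hgh, natDegree_C_mul hr]
  refine ((mahler_sqf g hsq (h3.trans hdeg) (D + r.natAbs)).union (finite_box 1)).subset ?_
  rintro ⟨s, t⟩ ⟨hst, h0, hp⟩
  by_cases ht : t = 0
  · right
    subst ht
    have hs : IsUnit s := isCoprime_zero_right.1 hst
    have hs1 : |s| = 1 := Int.isUnit_iff_abs_eq.1 hs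
    have hs2 : |(s : ℝ)| = 1 := by exact_mod_cast hs1
    exact ⟨hs2.le, by simp⟩
  · left
    have key : r * fv f.natDegree f s t = fv g.natDegree g s t * fv h.natDegree h s t := by
      rw [← fv_C_mul, hgh, hN, fv_mul le_rfl le_rfl ht]
    have hne : fv g.natDegree g s t ≠ 0 := by
      intro h1
      rw [h1, zero_mul] at key
      exact (mul_ne_zero hr h0) key
    refine ⟨hst, hne, fun p hpp hpd => ?_⟩
    have h1 : (p : ℤ) ∣ r * fv f.natDegree f s t := key ▸ hpd.mul_right _
    rcases (Nat.prime_iff_prime_int.1 hpp).dvd_or_dvd h1 with h2 | h2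
    · have := Nat.le_of_dvd (Int.natAbs_pos.2 hr) (Int.natCast_dvd.1 h2)
      omega
    · have := hp p hpp h2
      omega

/-- **Siegel, Mahler**: the values of a polynomial with two different roots have large prime factors,
with finitely many exceptions. -/
theorem siegel (f : ℤ[X]) (h2 : 2 ≤ (f.rootSet ℂ).ncard) (D : ℕ) :
    {t : ℤ | f.eval t ≠ 0 ∧ ∀ p : ℕ, p.Prime → (p : ℤ) ∣ f.eval t → p ≤ D}.Finite := by
  classical
  have hf : f ≠ 0 := by
    rintro rfl
    simp at h2
  -- the shift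
  obtain ⟨k, hk⟩ : ∃ k : ℤ, f.eval k ≠ 0 := by
    by_contra hcon
    push Not at hcon
    exact hf (Polynomial.funext fun x => by rw [hcon x, eval_zero])
  set F : ℤ[X] := f.comp (X + C k) with hF
  have hF0 : F.coeff 0 ≠ 0 := by
    rw [coeff_zero_eq_eval_zero, hF, eval_comp, eval_add, eval_X, eval_C, zero_add]
    exact hk
  have hFne : F ≠ 0 := by
    rintro h
    rw [h] at hF0
    simp at hF0
  have hFroot : ∀ x : ℂ, x ∈ f.rootSet ℂ → x - k ∈ F.rootSet ℂ := by
    intro x hx
    rw [mem_rootSet] at hx ⊢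
    refine ⟨hFne, ?_⟩
    rw [hF, aeval_comp]
    simp only [map_add, aeval_X, aeval_C]
    have : x - (k : ℂ) + (algebraMap ℤ ℂ) k = x := by
      simp
    rw [this]
    exact hx.2
  have hFr0 : ∀ x ∈ F.rootSet ℂ, x ≠ 0 := by
    rintro x hx rfl
    rw [mem_rootSet, ← coeff_zero_eq_aeval_zero'] at hx
    exact hF0 (by simpa using hx.2)
  set h : ℤ[X] := X * F.reverse with hh
  have hrev : F.reverse ≠ 0 := by
    rwa [Ne, reverse_eq_zero]
  have hhne : h ≠ 0 := mul_ne_zero X_ne_zero hrev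
  have hdeg : h.natDegree = F.natDegree + 1 := by
    rw [hh, natDegree_mul X_ne_zero hrev, natDegree_X, reverse_natDegree,
      natTrailingDegree_eq_zero_of_constantCoeff_ne_zero (by simpa using hF0)]
    omega
  have hroots : insert (0 : ℂ) ((fun x : ℂ => (x - k)⁻¹) '' f.rootSet ℂ) ⊆ h.rootSet ℂ := by
    intro y hy
    rw [mem_rootSet]
    refine ⟨hhne, ?_⟩
    rw [hh, map_mul, aeval_X]
    rcases hy with rfl | ⟨x, hx, rfl⟩
    · rw [zero_mul]
    · have hx1 := hFroot x hx
      have hx0 := hFr0 _ hx1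
      rw [mem_rootSet] at hx1
      let _ : Invertible (x - (k : ℂ)) := invertibleOfNonzero hx0
      have h4 := (eval₂_reverse_eq_zero_iff (algebraMap ℤ ℂ) (x - k) F).2 hx1.2
      rw [invOf_eq_inv] at h4
      have h5 : aeval ((x - (k : ℂ))⁻¹) F.reverse = 0 := h4
      show _ * aeval ((x - (k : ℂ))⁻¹) F.reverse = 0
      rw [h5, mul_zero]
  have hcard : 3 ≤ (h.rootSet ℂ).ncard := by
    have hinj : Function.Injective (fun x : ℂ => (x - k)⁻¹) := by
      intro x y hxy
      have := inv_injective hxy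
      exact sub_left_injective this
    have h5 : (insert (0 : ℂ) ((fun x : ℂ => (x - k)⁻¹) '' f.rootSet ℂ)).ncard =
        (f.rootSet ℂ).ncard + 1 := by
      rw [Set.ncard_insert_of_notMem _ ((f.rootSet_finite ℂ).image _),
        Set.ncard_image_of_injective _ hinj]
      rintro ⟨x, hx, hx0⟩
      exact hFr0 _ (hFroot x hx) (inv_eq_zero.1 hx0)
    have h6 := Set.ncard_le_ncard hroots (h.rootSet_finite ℂ)
    omega
  have hval : ∀ t : ℤ, fv h.natDegree h 1 (t - k) = f.eval t := by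
    intro t
    have h1 : f.eval t = F.eval (t - k) := by
      rw [hF, eval_comp, eval_add, eval_X, eval_C, sub_add_cancel]
    rw [h1, hdeg, fv, Finset.sum_range_succ', eval_eq_sum_range,
      ← Finset.sum_range_reflect]
    have h0 : h.coeff 0 = 0 := by
      rw [hh, coeff_X_mul_zero]
    rw [h0, zero_mul, zero_mul, add_zero]
    refine sum_congr rfl fun i hi => ?_
    have hi' : i ≤ F.natDegree := by have := mem_range.1 hi; omega
    have e1 : F.natDegree + 1 - 1 - i = F.natDegree - i := by omega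
    have e3 : F.natDegree - (F.natDegree - i) = i := by omega
    have e2 : F.natDegree + 1 - (F.natDegree - i + 1) = i := by omega
    rw [e1, e2, hh, coeff_X_mul, coeff_reverse, revAt_le (by omega), e3, one_pow, mul_one]
  refine Set.Finite.of_finite_image (f := fun t : ℤ => ((1 : ℤ), t - k))
    ((mahler h hcard D).subset ?_) ?_
  · rintro _ ⟨t, ⟨ht0, htp⟩, rfl⟩
    refine ⟨isCoprime_one_left, ?_, ?_⟩
    · rw [hval]
      exact ht0
    · intro p hp hpd
      rw [hval] at hpd
      exact htp p hp hpd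
  · intro x _ y _ hxy
    have := (Prod.mk.inj hxy).2
    omega

end Pool.Agent.Q57.ZP
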