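import Pool.Agent.Q57.ZP.Rid
import Mathlib

/-!
The rational numbers `t`, integral at the large primes, such that the orders of `t - a₁` and `t - a₂`
at all large primes are divisible by `β ≥ 3` are finite in number (from the theorem of Mahler), and
the orders of the values of polynomials at large primes (helper file).
-/

set_option autoImplicit false

namespace Pool.Agent.Q57.ZP

open Polynomial Finset Pool.Agent.Y670.RD

theorem nat_dec {β D M : ℕ} (hβ : 0 < β) (hM : M ≠ 0)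
    (h : ∀ p : ℕ, p.Prime → D < p → β ∣ M.factorization p) :
    ∃ A x : ℕ, A ≠ 0 ∧ M = A * x ^ β ∧ A ≤ (D.factorial) ^ β := by
  classical
  refine ⟨∏ p ∈ M.primeFactors, p ^ (M.factorization p % β),
    ∏ p ∈ M.primeFactors, p ^ (M.factorization p / β), ?_, ?_, ?_⟩
  · exact prod_ne_zero_iff.2 fun p hp => pow_ne_zero _ (Nat.prime_of_mem_primeFactors hp).ne_zero
  · rw [← prod_pow, ← prod_mul_distrib]
    conv_lhs => rw [← Nat.prod_factorization_pow_eq_self hM]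
    rw [Finsupp.prod, Nat.support_factorization]
    refine prod_congr rfl fun p _ => ?_
    rw [← pow_mul, ← pow_add]
    congr 1
    have := Nat.mod_add_div (M.factorization p) β
    rw [mul_comm (M.factorization p / β)]
    exact this.symm
  · rw [← prod_filter_of_ne (p := fun p => p ≤ D)]
    · calc ∏ p ∈ M.primeFactors with p ≤ D, p ^ (M.factorization p % β)
          ≤ ∏ p ∈ M.primeFactors with p ≤ D, p ^ β := by
            refine prod_le_prod' fun p hp => ?_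
            refine Nat.pow_le_pow_right (Nat.prime_of_mem_primeFactors (mem_filter.1 hp).1).pos ?_
            exact (Nat.mod_lt _ hβ).le
        _ ≤ ∏ p ∈ Ico 1 (D + 1), p ^ β := by
            refine prod_le_prod_of_subset_of_one_le' ?_ ?_
            · intro p hp
              rw [mem_filter] at hp
              exact mem_Ico.2 ⟨(Nat.prime_of_mem_primeFactors hp.1).one_lt.le,
                Nat.lt_succ_of_le hp.2⟩
            · intro p hp _
              exact Nat.one_le_pow _ _ (mem_Ico.1 hp).1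
        _ = _ := by
            rw [prod_pow, prod_Ico_id_eq_factorial]
    · intro p hp h1
      by_contra h2
      push Not at h2
      obtain ⟨k, hk⟩ := h p (Nat.prime_of_mem_primeFactors hp) h2
      apply h1
      rw [hk, Nat.mul_mod_right, pow_zero]

/-- A nonzero rational number with no large primes in its denominator, whose order at all large
primes is divisible by `β`, is a bounded integer times a power. -/
theorem rat_dec {β D : ℕ} (hβ : 0 < β) {r : ℚ} (hr : r ≠ 0)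
    (h : ∀ p : ℕ, p.Prime → D < p → ¬ p ∣ r.den ∧ β ∣ r.num.natAbs.factorization p) :
    ∃ A x : ℤ, A ≠ 0 ∧ |A| ≤ ((D.factorial) ^ β : ℕ) ∧ r = A * ((x : ℚ) / r.den) ^ β := by
  have hn : r.num.natAbs ≠ 0 := Int.natAbs_ne_zero.2 (Rat.num_ne_zero.2 hr)
  have hd : r.den ≠ 0 := r.den_nz
  have hM : r.num.natAbs * r.den ^ (β - 1) ≠ 0 := mul_ne_zero hn (pow_ne_zero _ hd)
  obtain ⟨A, x, hA0, hA, hAle⟩ := nat_dec hβ hM (D := D) (by
    intro p hp hpD
    obtain ⟨h1, h2⟩ := h p hp hpD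
    rw [Nat.factorization_mul hn (pow_ne_zero _ hd), Nat.factorization_pow, Finsupp.add_apply,
      Finsupp.smul_apply, Nat.factorization_eq_zero_of_not_dvd h1, smul_zero, add_zero]
    exact h2)
  have hsgn : ((r.num.sign : ℤ) : ℚ) * (r.num.natAbs : ℚ) = (r.num : ℚ) := by
    rw [← Int.cast_natCast, ← Int.cast_mul, Int.sign_mul_natAbs]
  refine ⟨r.num.sign * A, x, ?_, ?_, ?_⟩
  · refine mul_ne_zero ?_ (by exact_mod_cast hA0)
    intro h0
    exact (Rat.num_ne_zero.2 hr) (Int.sign_eq_zero_iff_zero.1 h0)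
  · rw [abs_mul]
    have h1 : |r.num.sign| = 1 := by
      rcases lt_trichotomy r.num 0 with h1 | h1 | h1
      · rw [Int.sign_eq_neg_one_of_neg h1]; rfl
      · exact absurd h1 (Rat.num_ne_zero.2 hr)
      · rw [Int.sign_eq_one_of_pos h1]; rfl
    rw [h1, one_mul, Nat.abs_cast]
    exact_mod_cast hAle
  · have hd' : (r.den : ℚ) ≠ 0 := by exact_mod_cast hd
    have h2 : ((r.num.natAbs : ℚ)) * (r.den : ℚ) ^ (β - 1) = A * (x : ℚ) ^ β := by
      exact_mod_cast hA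
    have h3 : (r.den : ℚ) ^ β = (r.den : ℚ) ^ (β - 1) * r.den := by
      rw [← pow_succ]
      congr 1
      omega
    have h4 : r = r.num / r.den := (Rat.num_div_den r).symm
    rw [div_pow]
    push_cast
    rw [mul_assoc, mul_div_assoc', mul_div_assoc', ← h2, h3]
    conv_lhs => rw [h4, ← hsgn]
    field_simp

/-- The binomial form `A₁ x^β - A₂ y^β` has a large prime factor at coprime integers, with finitely
many exceptions. -/
theorem binom_finite {β : ℕ} (hβ : 3 ≤ β) {A₁ A₂ : ℤ} (h1 : A₁ ≠ 0) (h2 : A₂ ≠ 0) (D : ℕ) :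
    {z : ℤ × ℤ | IsCoprime z.1 z.2 ∧ A₁ * z.1 ^ β - A₂ * z.2 ^ β ≠ 0 ∧
      ∀ p : ℕ, p.Prime → (p : ℤ) ∣ A₁ * z.1 ^ β - A₂ * z.2 ^ β → p ≤ D}.Finite := by
  have hβ0 : β ≠ 0 := by omega
  set g : ℤ[X] := C A₁ * X ^ β - C A₂ with hg
  have hdeg : g.natDegree = β := by
    rw [hg]
    compute_degree!
    rw [if_neg hβ0, sub_zero]
    exact h1
  have hfv : ∀ s t : ℤ, fv g.natDegree g s t = A₁ * s ^ β - A₂ * t ^ β := by
    intro s t
    rw [hdeg, fv, sum_range_succ]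
    have h3 : ∀ i, g.coeff i = (if i = β then A₁ else 0) - (if i = 0 then A₂ else 0) := by
      intro i
      rw [hg, coeff_sub, coeff_C_mul, coeff_X_pow, coeff_C, mul_ite, mul_one, mul_zero]
    rw [h3 β, if_pos rfl, if_neg hβ0, Nat.sub_self, pow_zero, sub_zero, mul_one]
    have h4 : ∑ i ∈ range β, g.coeff i * s ^ i * t ^ (β - i) = - A₂ * t ^ β := by
      rw [sum_eq_single 0]
      · rw [h3 0, if_neg hβ0.symm, if_pos rfl, pow_zero, Nat.sub_zero]
        ring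
      · intro i hi h0
        rw [mem_range] at hi
        rw [h3 i, if_neg (by omega), if_neg h0]
        ring
      · intro h0
        rw [mem_range] at h0
        omega
    rw [h4]
    ring
  have hsq : Squarefree (g.map (Int.castRingHom ℚ)) := by
    have hA1 : (A₁ : ℚ) ≠ 0 := by exact_mod_cast h1
    have hA2 : (A₂ : ℚ) ≠ 0 := by exact_mod_cast h2
    have h3 : g.map (Int.castRingHom ℚ) = C (A₁ : ℚ) * (X ^ β - C ((A₂ : ℚ) / A₁)) := by
      rw [hg]
      rw [Polynomial.map_sub, Polynomial.map_mul, Polynomial.map_C, Polynomial.map_C,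
        Polynomial.map_pow, Polynomial.map_X, mul_sub, ← C_mul, mul_div_cancel₀ _ hA1]
      rfl
    have h4 : (X ^ β - C ((A₂ : ℚ) / A₁)).Separable :=
      separable_X_pow_sub_C _ (by exact_mod_cast hβ0) (div_ne_zero hA2 hA1)
    rw [h3]
    have h6 : Associated (X ^ β - C ((A₂ : ℚ) / A₁)) (C (A₁ : ℚ) * (X ^ β - C ((A₂ : ℚ) / A₁))) :=
      ((associated_isUnit_mul_left_iff (isUnit_C.2 (isUnit_iff_ne_zero.2 hA1))).2
        (Associated.refl _)).symm
    exact (h6.squarefree_iff).1 h4.squarefree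
  have h5 := mahler_sqf g hsq (by omega) D
  refine h5.subset ?_
  rintro ⟨s, t⟩ ⟨h6, h7, h8⟩
  refine ⟨h6, ?_, ?_⟩
  · show fv _ _ s t ≠ 0
    rw [hfv]; exact h7
  · intro p hp hdvd
    change (p : ℤ) ∣ fv _ _ s t at hdvd
    rw [hfv] at hdvd
    exact h8 p hp hdvd

/-- The rational numbers `t`, integral at the large primes, such that the orders of `t - a₁` and
`t - a₂` at the large primes are divisible by `β`. -/
theorem thue_finite {β : ℕ} (hβ : 3 ≤ β) {a₁ a₂ : ℚ} (ha : a₁ ≠ a₂) (D : ℕ) :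
    {t : ℚ | ∀ p : ℕ, p.Prime → D < p → ¬ p ∣ t.den ∧
      β ∣ (t - a₁).num.natAbs.factorization p ∧
      β ∣ (t - a₂).num.natAbs.factorization p}.Finite := by
  classical
  set E : ℕ := D + a₁.den + a₂.den + (a₂ - a₁).num.natAbs with hE
  set B : ℕ := (E.factorial) ^ β with hB
  set Z : ℤ → ℤ → Set (ℤ × ℤ) := fun A₁ A₂ =>
    {z : ℤ × ℤ | IsCoprime z.1 z.2 ∧ A₁ * z.1 ^ β - A₂ * z.2 ^ β ≠ 0 ∧
      ∀ p : ℕ, p.Prime → (p : ℤ) ∣ A₁ * z.1 ^ β - A₂ * z.2 ^ β → p ≤ E} with hZ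
  set I : Finset ℤ := (Finset.Icc (-(B : ℤ)) B).filter fun A => A ≠ 0 with hI
  have hfin : (⋃ A ∈ (I ×ˢ I : Finset (ℤ × ℤ)), (fun z : ℤ × ℤ =>
      (a₁ * (A.2 * z.2 ^ β : ℚ) - a₂ * (A.1 * z.1 ^ β)) / (A.2 * z.2 ^ β - A.1 * z.1 ^ β)) ''
        Z A.1 A.2).Finite := by
    refine Set.Finite.biUnion (Finset.finite_toSet _) ?_
    rintro ⟨A₁, A₂⟩ hA
    rw [Finset.mem_coe, Finset.mem_product] at hA
    exact (binom_finite hβ (mem_filter.1 hA.1).2 (mem_filter.1 hA.2).2 E).image _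
  refine (hfin.union (Set.toFinite {a₁, a₂})).subset ?_
  intro t ht
  by_contra hcon
  rw [Set.mem_union, not_or, Set.mem_insert_iff, Set.mem_singleton_iff, not_or] at hcon
  obtain ⟨hc1, hc2, hc3⟩ := hcon
  have hr1 : t - a₁ ≠ 0 := sub_ne_zero.2 hc2
  have hr2 : t - a₂ ≠ 0 := sub_ne_zero.2 hc3
  have hden : ∀ a : ℚ, a.den ≤ E → ∀ p : ℕ, p.Prime → E < p → ¬ p ∣ (t - a).den := by
    intro a ha p hp hpE hdvd
    have h1 : p ∣ t.den * a.den := hdvd.trans (Rat.sub_den_dvd t a)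
    rcases (hp.dvd_mul).1 h1 with h2 | h2
    · exact (ht p hp (by omega)).1 h2
    · exact absurd (Nat.le_of_dvd a.den_pos h2) (by omega)
  obtain ⟨A₁, x₁, hA1, hA1le, hx1⟩ := rat_dec (β := β) (D := E) (by omega) hr1 (fun p hp hpE =>
    ⟨hden a₁ (by omega) p hp hpE, (ht p hp (by omega)).2.1⟩)
  obtain ⟨A₂, x₂, hA2, hA2le, hx2⟩ := rat_dec (β := β) (D := E) (by omega) hr2 (fun p hp hpE =>
    ⟨hden a₂ (by omega) p hp hpE, (ht p hp (by omega)).2.2⟩)
  set d₁ : ℕ := (t - a₁).den with hd1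
  set d₂ : ℕ := (t - a₂).den with hd2
  have hd10 : (d₁ : ℚ) ≠ 0 := by exact_mod_cast (t - a₁).den_nz
  have hd20 : (d₂ : ℚ) ≠ 0 := by exact_mod_cast (t - a₂).den_nz
  have hA1q : (A₁ : ℚ) ≠ 0 := by exact_mod_cast hA1
  have hA2q : (A₂ : ℚ) ≠ 0 := by exact_mod_cast hA2
  have hβ0 : β ≠ 0 := by omega
  have hx20 : x₂ ≠ 0 := by
    rintro rfl
    apply hr2
    rw [hx2]
    simp [hβ0]
  set X₁ : ℤ := x₁ * d₂ with hX1
  set X₂ : ℤ := x₂ * d₁ with hX2
  have hX20 : X₂ ≠ 0 := mul_ne_zero hx20 (by exact_mod_cast hd10)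
  obtain ⟨g, z₁, z₂, hg0, hcop, hz1, hz2⟩ : ∃ g z₁ z₂ : ℤ, g ≠ 0 ∧ IsCoprime z₁ z₂ ∧
      X₁ = g * z₁ ∧ X₂ = g * z₂ := by
    have h1 : (X₁.gcd X₂ : ℤ) ≠ 0 := by
      intro h0
      have := Int.gcd_eq_zero_iff.1 (by exact_mod_cast h0 : X₁.gcd X₂ = 0)
      exact hX20 this.2
    obtain ⟨z₁, hz1⟩ := Int.gcd_dvd_left X₁ X₂
    obtain ⟨z₂, hz2⟩ := Int.gcd_dvd_right X₁ X₂
    refine ⟨X₁.gcd X₂, z₁, z₂, h1, ?_, hz1, hz2⟩
    have h2 := isCoprime_div_gcd_div_gcd (p := X₁) (q := X₂) hX20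
    have h3 : (gcd X₁ X₂ : ℤ) = (X₁.gcd X₂ : ℤ) := by
      rw [Int.coe_gcd]
    rw [h3] at h2
    have h4 : X₁ / (X₁.gcd X₂ : ℤ) = z₁ := Int.ediv_eq_of_eq_mul_right h1 hz1
    have h5 : X₂ / (X₁.gcd X₂ : ℤ) = z₂ := Int.ediv_eq_of_eq_mul_right h1 hz2
    rw [h4, h5] at h2
    exact h2
  have hgq : (g : ℚ) ≠ 0 := by exact_mod_cast hg0
  have e1 : t - a₁ = A₁ * z₁ ^ β * ((g : ℚ) / (d₁ * d₂)) ^ β := by
    rw [hx1]
    have h1 : (x₁ : ℚ) * d₂ = g * z₁ := by exact_mod_cast hz1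
    have h2 : (x₁ : ℚ) / d₁ = z₁ * (g / (d₁ * d₂)) := by
      field_simp
      linear_combination h1
    rw [h2, mul_pow]
    ring
  have e2 : t - a₂ = A₂ * z₂ ^ β * ((g : ℚ) / (d₁ * d₂)) ^ β := by
    rw [hx2]
    have h1 : (x₂ : ℚ) * d₁ = g * z₂ := by exact_mod_cast hz2
    have h2 : (x₂ : ℚ) / d₂ = z₂ * (g / (d₁ * d₂)) := by
      field_simp
      linear_combination h1
    rw [h2, mul_pow]
    ring
  -- the equation
  have key : (a₂ - a₁) * ((d₁ * d₂ : ℕ) : ℚ) ^ β = g ^ β * (A₁ * z₁ ^ β - A₂ * z₂ ^ β) := by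
    have h1 : a₂ - a₁ = (A₁ * z₁ ^ β - A₂ * z₂ ^ β) * ((g : ℚ) / (d₁ * d₂)) ^ β := by
      linear_combination e1 - e2
    rw [h1]
    push_cast
    rw [div_pow]
    field_simp
  have hδ0 : (a₂ - a₁).num ≠ 0 := Rat.num_ne_zero.2 (sub_ne_zero.2 ha.symm)
  have key2 : (a₂ - a₁).num * ((d₁ * d₂ : ℕ) : ℤ) ^ β =
      (a₂ - a₁).den * (g ^ β * (A₁ * z₁ ^ β - A₂ * z₂ ^ β)) := by
    have h1 : ((a₂ - a₁).num : ℚ) = (a₂ - a₁) * (a₂ - a₁).den := by
      rw [Rat.mul_den_eq_num]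
    have h2 : ((a₂ - a₁).num : ℚ) * ((d₁ * d₂ : ℕ) : ℚ) ^ β =
        (a₂ - a₁).den * (g ^ β * (A₁ * z₁ ^ β - A₂ * z₂ ^ β)) := by
      rw [h1, ← key]
      ring
    exact_mod_cast h2
  have hne : A₁ * z₁ ^ β - A₂ * z₂ ^ β ≠ 0 := by
    intro h0
    rw [h0, mul_zero, mul_zero] at key2
    have h1 : ((d₁ * d₂ : ℕ) : ℤ) ≠ 0 := by
      have : (d₁ * d₂ : ℕ) ≠ 0 := mul_ne_zero (t - a₁).den_nz (t - a₂).den_nz
      exact_mod_cast this
    exact (mul_ne_zero hδ0 (pow_ne_zero _ h1)) key2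
  apply hc1
  have hmemI : ∀ A : ℤ, A ≠ 0 → |A| ≤ (B : ℤ) → A ∈ I := by
    intro A h0 h1
    rw [hI, mem_filter, Finset.mem_Icc]
    exact ⟨abs_le.1 h1, h0⟩
  refine Set.mem_biUnion (x := (A₁, A₂)) (Finset.mem_coe.2 (Finset.mem_product.2
    ⟨hmemI A₁ hA1 hA1le, hmemI A₂ hA2 hA2le⟩)) ⟨(z₁, z₂), ⟨hcop, hne, ?_⟩, ?_⟩
  · intro p hp hdvd
    by_contra hlt
    push Not at hlt
    have hpZ := Nat.prime_iff_prime_int.1 hp
    have h1 : (p : ℤ) ∣ (a₂ - a₁).num * ((d₁ * d₂ : ℕ) : ℤ) ^ β := by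
      rw [key2]
      exact (hdvd.mul_left _).mul_left _
    rcases hpZ.dvd_or_dvd h1 with h2 | h2
    · have h3 := Nat.le_of_dvd (Int.natAbs_pos.2 hδ0) (Int.natCast_dvd.1 h2)
      omega
    · have h3 := hpZ.dvd_of_dvd_pow h2
      have h4 : p ∣ d₁ * d₂ := by exact_mod_cast h3
      rcases hp.dvd_mul.1 h4 with h5 | h5
      · exact hden a₁ (by omega) p hp hlt h5
      · exact hden a₂ (by omega) p hp hlt h5
  · show (a₁ * (A₂ * z₂ ^ β : ℚ) - a₂ * (A₁ * z₁ ^ β)) / (A₂ * z₂ ^ β - A₁ * z₁ ^ β) = t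
    have hneq : (A₂ * z₂ ^ β - A₁ * z₁ ^ β : ℚ) ≠ 0 := by
      intro h0
      apply hne
      have : (A₁ * z₁ ^ β - A₂ * z₂ ^ β : ℚ) = 0 := by linear_combination -h0
      exact_mod_cast this
    rw [div_eq_iff hneq]
    set w : ℚ := ((g : ℚ) / (d₁ * d₂)) ^ β with hw
    have hw0 : w ≠ 0 := pow_ne_zero _ (div_ne_zero hgq (mul_ne_zero hd10 hd20))
    have h3 : (a₁ * (A₂ * z₂ ^ β : ℚ) - a₂ * (A₁ * z₁ ^ β)) * w =
        t * (A₂ * z₂ ^ β - A₁ * z₁ ^ β) * w := by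
      linear_combination (t - a₁) * e2 - (t - a₂) * e1
    exact mul_right_cancel₀ hw0 h3

/-- A nonzero value of a polynomial at `a` and the primes dividing `t - a`. -/
theorem val_eval (H : ℚ[X]) (a : ℚ) (hH : H.eval a ≠ 0) :
    ∃ D : ℕ, ∀ p : ℕ, p.Prime → D < p → ∀ t : ℚ, ¬ p ∣ t.den → (p : ℤ) ∣ (t - a).num →
      H.eval t ≠ 0 ∧ padicValRat p (H.eval t) = 0 := by
  obtain ⟨Q, hQ⟩ : (X - C a) ∣ H - C (H.eval a) := by
    rw [dvd_iff_isRoot]
    simp
  have hHt : ∀ t, H.eval t = H.eval a + (t - a) * Q.eval t := by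
    intro t
    have h1 := congrArg (Polynomial.eval t) hQ
    rw [eval_sub, eval_C, eval_mul, eval_sub, eval_X, eval_C] at h1
    linear_combination h1
  refine ⟨(∑ i ∈ Q.support, (Q.coeff i).den) + (H.eval a).num.natAbs + (H.eval a).den + a.den, ?_⟩
  intro p hp hpD t ht htn
  haveI : Fact p.Prime := ⟨hp⟩
  set v := Rat.padicValuation p with hv
  have hnd : ∀ m : ℕ, m ≠ 0 → m < p → ¬ p ∣ m := fun m hm hlt hdvd =>
    absurd (Nat.le_of_dvd (Nat.pos_of_ne_zero hm) hdvd) (by omega)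
  have hvt : v t ≤ 1 := Rat.padicValuation_le_one_iff.2 ht
  have hva : v a ≤ 1 := Rat.padicValuation_le_one_iff.2 (hnd _ a.den_nz (by omega))
  have hvta : v (t - a) < 1 := by
    have h1 : v (t - a) ≤ 1 := (v.map_sub t a).trans (max_le hvt hva)
    have h2 : v ((t - a).den : ℚ) ≤ 1 := by
      have := Int.padicValuation_le_one p (t - a).den
      rw [← Rat.padicValuation_cast] at this
      exact_mod_cast this
    have h2' : ¬ p ∣ (t - a).den := Rat.padicValuation_le_one_iff.1 h1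
    have h3 : v ((t - a).den : ℚ) = 1 := by
      have h4 : Int.padicValuation p ((t - a).den : ℤ) = 1 :=
        Int.padicValuation_eq_one_iff.2 (fun h => h2' (by exact_mod_cast h))
      rw [← Rat.padicValuation_cast] at h4
      exact_mod_cast h4
    have h4 : v ((t - a).num : ℚ) < 1 := by
      have h5 := Int.padicValuation_lt_one_iff.2 htn
      rw [← Rat.padicValuation_cast] at h5
      exact h5
    rw [← Rat.mul_den_eq_num, map_mul, h3, mul_one] at h4
    exact h4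
  have hvQ : v (Q.eval t) ≤ 1 := by
    rw [eval_eq_sum, Polynomial.sum]
    refine v.map_sum_le fun i hi => ?_
    rw [map_mul, map_pow]
    refine mul_le_one' ?_ (pow_le_one' hvt i)
    refine Rat.padicValuation_le_one_iff.2 (hnd _ (Q.coeff i).den_nz ?_)
    have := single_le_sum (f := fun i => (Q.coeff i).den) (fun _ _ => Nat.zero_le _) hi
    omega
  have hvHa : v (H.eval a) = 1 := by
    have h1 : v ((H.eval a).num : ℚ) = 1 := by
      have h2 : Int.padicValuation p (H.eval a).num = 1 := by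
        refine Int.padicValuation_eq_one_iff.2 fun h => ?_
        exact hnd _ (Int.natAbs_ne_zero.2 (Rat.num_ne_zero.2 hH)) (by omega) (Int.natCast_dvd.1 h)
      rw [← Rat.padicValuation_cast] at h2
      exact h2
    have h3 : v ((H.eval a).den : ℚ) = 1 := by
      have h4 : Int.padicValuation p ((H.eval a).den : ℤ) = 1 :=
        Int.padicValuation_eq_one_iff.2 (fun h => hnd _ (H.eval a).den_nz (by omega)
          (by exact_mod_cast h))
      rw [← Rat.padicValuation_cast] at h4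
      exact_mod_cast h4
    have h5 : v (H.eval a * (H.eval a).den) = 1 := by
      rw [Rat.mul_den_eq_num, h1]
    rw [map_mul, h3, mul_one] at h5
    exact h5
  have h1 : v (H.eval t) = 1 := by
    rw [hHt t]
    have h2 : v ((t - a) * Q.eval t) < v (H.eval a) := by
      rw [hvHa, map_mul]
      calc v (t - a) * v (Q.eval t) ≤ v (t - a) * 1 := by gcongr
        _ < 1 := by rwa [mul_one]
    rw [Valuation.map_add_eq_of_lt_left v h2, hvHa]
  have h0 : H.eval t ≠ 0 := by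
    intro h0
    rw [h0, map_zero] at h1
    exact zero_ne_one h1
  refine ⟨h0, ?_⟩
  have h2 : v (H.eval t) = WithZero.exp (-padicValRat p (H.eval t)) := by
    show (if H.eval t = 0 then 0 else WithZero.exp (-padicValRat p (H.eval t))) = _
    rw [if_neg h0]
  rw [h2, ← WithZero.exp_zero, WithZero.exp_inj] at h1
  omega

/-- The order of a polynomial at a zero and the orders of its values at large primes. -/
theorem order_eval (F : ℚ[X]) (hF : F ≠ 0) (a : ℚ) :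
    ∃ D : ℕ, ∀ p : ℕ, p.Prime → D < p → ∀ t : ℚ, ¬ p ∣ t.den → t ≠ a → (p : ℤ) ∣ (t - a).num →
      F.eval t ≠ 0 ∧ padicValRat p (F.eval t) =
        (F.rootMultiplicity a : ℤ) * (((t - a).num.natAbs.factorization p : ℕ) : ℤ) := by
  obtain ⟨H, hH, hHa⟩ := exists_eq_pow_rootMultiplicity_mul_and_not_dvd F hF a
  have hHa' : H.eval a ≠ 0 := fun h => hHa (dvd_iff_isRoot.2 h)
  obtain ⟨D, hD⟩ := val_eval H a hHa'
  refine ⟨D + a.den, fun p hp hpD t ht hta htn => ?_⟩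
  haveI : Fact p.Prime := ⟨hp⟩
  obtain ⟨h1, h2⟩ := hD p hp (by omega) t ht htn
  have h3 : t - a ≠ 0 := sub_ne_zero.2 hta
  have h4 : F.eval t = (t - a) ^ (F.rootMultiplicity a) * H.eval t := by
    conv_lhs => rw [hH]
    rw [eval_mul, eval_pow, eval_sub, eval_X, eval_C]
  refine ⟨by rw [h4]; exact mul_ne_zero (pow_ne_zero _ h3) h1, ?_⟩
  rw [h4, padicValRat.mul (pow_ne_zero _ h3) h1, padicValRat.pow, h2, add_zero]
  congr 1
  have h5 : ¬ p ∣ (t - a).den := by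
    intro hdvd
    rcases (hp.dvd_mul).1 (hdvd.trans (Rat.sub_den_dvd t a)) with h6 | h6
    · exact ht h6
    · exact absurd (Nat.le_of_dvd a.den_pos h6) (by omega)
  rw [padicValRat_def, padicValNat.eq_zero_of_not_dvd h5, Nat.factorization_def _ hp]
  simp [padicValInt]

end Pool.Agent.Q57.ZP
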