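import Pool.Agent.Results.MP_c95b3b_ag.FinitelyGeneratedFields
import Pool.Agent.Q57.ZP.EllU
import Pool.Agent.Q57.ZP.Tor

/-!
The local criterion for families of subvarieties of tori whose coefficients are multiplied by
arbitrary units of the integral closure of the ring generated by the parameter and a finite set; also
the cosets are by arbitrary points with such coordinates (helper file).
-/

set_option autoImplicit false

namespace Pool.Agent.Q57.ZP

open Pool.Agent.Results.MP_b7926e_nt.NoAtypical (coset idealOf dim)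
open Pool.Agent.Results.MP_c95b3b_ag.FinitelyGeneratedFields
open Pool.Agent.Y910.Z

variable {n m : ℕ}

/-- The criterion. -/
theorem tor_crit_int {M : ℕ} (r N : ℕ) (A : Fin m → Finset (Fin n → ℤ))
    (hA : ∀ j, (A j).Nonempty)
    (c : Fin m → (Fin n → ℤ) → Polynomial ℂ) (hc : ∀ j, ∀ β ∈ A j, c j β ≠ 0)
    (D : Fin M → Finset ℂ) (hgen : InGeneralPosition r N A c D)
    (F B : Finset ℂ) (hB : ∀ l, ∀ a ∈ D l, a ∉ B) :
    ∃ (W : Finset ℂ) (E₀ : Set ℂ), E₀.Finite ∧
      ∀ t, t ∉ E₀ → (∃ f : Fin N → Fin M, Function.Injective f ∧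
        ∀ l, ∃ a ∈ D (f l), ¬ Bad (W : Set ℂ) t a) →
      ∀ w : Fin m → (Fin n → ℤ) → ℂ, (∀ j, ∀ β ∈ A j, IntUnit (gens F B t) (w j β)) →
        NoAtypical r (gens F B t) (twisted A c t w) := by
  classical
  let U : Finset ℂ := Finset.univ.biUnion D
  have hU : ∀ l, ∀ z ∈ D l, z ∈ U := fun l z hz =>
    Finset.mem_biUnion.2 ⟨l, Finset.mem_univ _, hz⟩
  let ρt : Fin U.card → ℂ := fun l => (U.equivFin.symm l : ℂ)
  have hρ : ∀ z ∈ U, ∃ l, ρt l = z := by
    intro z hz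
    refine ⟨U.equivFin ⟨z, hz⟩, ?_⟩
    simp [ρt]
  obtain ⟨W₀, hW₀, -, hnear⟩ := Pool.Agent.Y199.ZF.near (k := ℂ) A c hc ρt ∅ Set.finite_empty
  let Q : Finset ℂ := (U ×ˢ B).image fun q => (q.1 - q.2)⁻¹
  let W : Finset ℂ := (hW₀.toFinset ∪ (U ∪ F)) ∪ (B ∪ Q)
  have hW₀W : ∀ z ∈ W₀, z ∈ (W : Set ℂ) := by
    intro z hz
    simp only [W, Finset.coe_union, Set.mem_union, Finset.mem_coe, Set.Finite.mem_toFinset]
    exact Or.inl (Or.inl hz)
  have hUW : ∀ z ∈ U, z ∈ (W : Set ℂ) := by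
    intro z hz
    simp only [W, Finset.coe_union, Set.mem_union, Finset.mem_coe]
    exact Or.inl (Or.inr (Or.inl hz))
  have hFW : ∀ z ∈ F, z ∈ (W : Set ℂ) := by
    intro z hz
    simp only [W, Finset.coe_union, Set.mem_union, Finset.mem_coe]
    exact Or.inl (Or.inr (Or.inr hz))
  have hBW : ∀ z ∈ B, z ∈ (W : Set ℂ) := by
    intro z hz
    simp only [W, Finset.coe_union, Set.mem_union, Finset.mem_coe]
    exact Or.inr (Or.inl hz)
  have hQW : ∀ a ∈ U, ∀ b ∈ B, (a - b)⁻¹ ∈ (W : Set ℂ) := by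
    intro a ha b hb
    simp only [W, Finset.coe_union, Set.mem_union, Finset.mem_coe]
    exact Or.inr (Or.inr (Finset.mem_image.2 ⟨(a, b), Finset.mem_product.2 ⟨ha, hb⟩, rfl⟩))
  have hroots : (⋃ j, ⋃ β ∈ A j, {t : ℂ | Polynomial.aeval t (c j β) = 0}).Finite := by
    refine Set.finite_iUnion fun j => (A j).finite_toSet.biUnion fun β hβ => ?_
    refine ((c j β).aroots ℂ).toFinset.finite_toSet.subset fun t ht => ?_
    rw [Finset.mem_coe, Multiset.mem_toFinset, Polynomial.mem_aroots]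
    exact ⟨hc j β hβ, ht⟩
  refine ⟨W, (⋃ j, ⋃ β ∈ A j, {t : ℂ | Polynomial.aeval t (c j β) = 0}) ∪ U,
    hroots.union U.finite_toSet, ?_⟩
  intro t ht ⟨f, hf, hV⟩ w hw Λ η hη X hBX hBT hX
  rw [Set.mem_union, not_or] at ht
  obtain ⟨ht1, htU⟩ := ht
  have hc0 : ∀ j, ∀ β ∈ A j, Polynomial.aeval t (c j β) ≠ 0 := fun j β hβ h =>
    ht1 (Set.mem_iUnion.2 ⟨j, Set.mem_biUnion hβ h⟩)
  have hV' : ∀ l, ∃ (V : ValuationSubring ℂ) (a : ℂ), a ∈ D (f l) ∧ V.valuation (t - a) < 1 ∧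
      ∀ z ∈ (W : Set ℂ), z ∈ V := by
    intro l
    obtain ⟨a, ha, hbad⟩ := hV l
    obtain ⟨V, h1, h2, -⟩ := exists_place (k := ℂ) (W : Set ℂ) (hUW a (hU _ a ha)) hbad
      (Empty.elim : Empty → ℂ)
      (algebraicIndependent_empty_type_iff.2 (algebraMap ℂ ℂ).injective)
    exact ⟨V, a, ha, h1, h2⟩
  choose V α hα hV1 hV2 using hV'
  have htV : ∀ l, t ∈ V l := by
    intro l
    have h1 : t - α l ∈ V l := (ValuationSubring.valuation_le_one_iff _ _).1 (hV1 l).le
    have h2 : α l ∈ V l := hV2 l _ (hUW _ (hU _ _ (hα l)))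
    have h3 := (V l).toSubring.add_mem h1 h2
    rw [sub_add_cancel] at h3
    exact h3
  have hgensV : ∀ l, ∀ x ∈ gens F B t, x ∈ V l := by
    intro l x hx
    rcases Set.mem_insert_iff.1 hx with rfl | hx | ⟨b, hb, rfl⟩
    · exact htV l
    · exact hV2 l x (hFW x hx)
    · refine inv_sub_mem (V l) (hV1 l) (fun h => hB _ _ (hα l) (h ▸ hb)) ?_
        (hV2 l _ (hQW _ (hU _ _ (hα l)) _ hb))
      exact (V l).toSubring.sub_mem (hV2 l _ (hUW _ (hU _ _ (hα l)))) (hV2 l _ (hBW _ hb))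
  have hw1 : ∀ l j, ∀ β ∈ A j, (V l).valuation (w j β) = 1 := fun l j β hβ =>
    (hw j β hβ).val (V l) (hgensV l)
  have hunit : ∀ l i, (V l).valuation (η i) = 1 := fun l i =>
    IntUnit.val (S := gens F B t) (hη i) (V l) (hgensV l)
  refine Pool.Agent.Y199.ZF.crit A hA (fun j β => w j β * Polynomial.aeval t (c j β))
    (fun j β hβ => mul_ne_zero (hw j β hβ).1 (hc0 j β hβ)) V
    (fun l => t - α l) (fun l => sub_ne_zero.2 fun h => htU (by
      rw [h]
      exact hU _ _ (hα l))) hV1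
    (fun l => order c (α l)) (fun l j β hβ => ?_) (fun L hL => ?_) Λ η
    (fun i => (hη i).1) hunit X hBX hBT hX
  · obtain ⟨l', hl'⟩ := hρ (α l) (hU _ _ (hα l))
    have h1 := hnear (V l) (fun z hz => hV2 l z (hW₀W z hz)) l' t
      (by rw [hl']; exact hV1 l) j β hβ
    rw [hl'] at h1
    rw [order, zpow_natCast, map_mul, hw1 l j β hβ, one_mul]
    exact h1
  · -- a choice of parameters
    let α' : Fin M → ℂ := fun l => if h : ∃ l', f l' = l then α h.choose else 0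
    have hα' : ∀ l, α' (f l) = α l := by
      intro l
      have h : ∃ l', f l' = f l := ⟨l, rfl⟩
      have h1 : h.choose = l := hf h.choose_spec
      simp only [α', dif_pos h, h1]
    obtain ⟨l, hl, h1⟩ := hgen L hL (Finset.univ.map ⟨f, hf⟩)
      (by rw [Finset.card_map, Finset.card_univ, Fintype.card_fin]) α' (by
        intro l hl
        obtain ⟨l', -, rfl⟩ := Finset.mem_map.1 hl
        have h2 := hα' l'
        change α' (f l') ∈ D (f l')
        rw [h2]
        exact hα l')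
    obtain ⟨l', -, rfl⟩ := Finset.mem_map.1 hl
    refine ⟨l', ?_⟩
    have h2 := hα' l'
    change ∀ w ∈ L, w ∉ Trop A (order c (α' (f l'))) at h1
    rw [h2] at h1
    exact h1

end Pool.Agent.Q57.ZP
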