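import Pool.Agent.Q57.ZP.Fam

/-!
Large prime divisors of their own of at least `L` of the values of `M` coprime binary forms (helper
file).
-/

set_option autoImplicit false

namespace Pool.Agent.Q57.ZP

open Polynomial Finset Pool.Agent.Y670.RD

theorem natDegree_prod' {κ : Type*} (I : Finset κ) (f : κ → ℤ[X]) (hf : ∀ l ∈ I, f l ≠ 0) :
    (∏ l ∈ I, f l).natDegree = ∑ l ∈ I, (f l).natDegree :=
  natDegree_prod I f hf

theorem fv_prod {κ : Type*} [DecidableEq κ] (I : Finset κ) (f : κ → ℤ[X]) (hf : ∀ l ∈ I, f l ≠ 0)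
    {s t : ℤ} (ht : t ≠ 0) :
    fv (∏ l ∈ I, f l).natDegree (∏ l ∈ I, f l) s t = ∏ l ∈ I, fv (f l).natDegree (f l) s t := by
  induction I using Finset.induction_on with
  | empty => simp [fv]
  | insert a I ha ih =>
    have h1 : ∀ l ∈ I, f l ≠ 0 := fun l hl => hf l (mem_insert_of_mem hl)
    rw [prod_insert ha, prod_insert ha, ← ih h1,
      natDegree_mul (hf a (mem_insert_self _ _)) (prod_ne_zero_iff.2 h1), fv_mul le_rfl le_rfl ht]

/-- For all but finitely many pairs of coprime integers at least `L` of the values of `M` pairwise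
coprime binary forms have large prime divisors of their own, if the product of more than `M - L` of
the forms has at least three different linear factors. -/
theorem family_union {ι : Type*} [Fintype ι] {M : ℕ} (L : ℕ) (f : Fin M → ℤ[X])
    (hf0 : ∀ l, f l ≠ 0)
    (hf : ∀ I : Finset (Fin M), M < I.card + L → 3 ≤ ((∏ l ∈ I, f l).rootSet ℂ).ncard)
    (hcop : ∀ l l', l ≠ l' →
      IsCoprime ((f l).map (Int.castRingHom ℚ)) ((f l').map (Int.castRingHom ℚ)))
    (g : ι → ℤ[X]) (hg : ∀ i, g i ≠ 0) (N : ι → ℕ) (hN : ∀ i, (g i).natDegree ≤ N i)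
    (hfg : ∀ l i,
      IsCoprime ((f l).map (Int.castRingHom ℚ)) ((g i).map (Int.castRingHom ℚ))) (D : ℕ) :
    {z : ℤ × ℤ | IsCoprime z.1 z.2 ∧ ¬ ((∀ l, fv (f l).natDegree (f l) z.1 z.2 ≠ 0) ∧
      (∀ i, fv (N i) (g i) z.1 z.2 ≠ 0) ∧ ∃ (S : Finset (Fin M)) (p : Fin M → ℕ), S.card = L ∧
      ∀ l ∈ S, (p l).Prime ∧ D < p l ∧ p l ∣ (fv (f l).natDegree (f l) z.1 z.2).natAbs ∧
        (∀ l', l ≠ l' → ¬ p l ∣ (fv (f l').natDegree (f l') z.1 z.2).natAbs) ∧
        ∀ i, ¬ p l ∣ (fv (N i) (g i) z.1 z.2).natAbs)}.Finite := by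
  classical
  choose! r hr0 hr using fun (l l' : Fin M) (h : l ≠ l') =>
    Pool.Agent.Q41.ZP.bezout (hcop l l' h)
  choose s hs0 hs using fun l i => Pool.Agent.Q41.ZP.bezout (hfg l i)
  set E : ℕ := D + (∑ l, ∑ l', (r l l').natAbs) + (∑ l, ∑ i, (s l i).natAbs) +
    ∑ l, ((f l).leadingCoeff).natAbs with hE
  refine ((((Set.finite_iUnion fun l => finite_fv_zero (f l) (hf0 l) le_rfl).union
    (Set.finite_iUnion fun I : {I : Finset (Fin M) // M < I.card + L} =>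
      mahler (∏ l ∈ I.1, f l) (hf I.1 I.2) E)).union
    (Set.finite_iUnion fun i => finite_fv_zero (g i) (hg i) (hN i))).union (finite_box 1)).subset ?_
  rintro ⟨u, v⟩ ⟨huv, ht⟩
  by_contra hcon
  simp only [Set.mem_union, Set.mem_iUnion, not_or, not_exists] at hcon
  obtain ⟨⟨⟨h1, h2⟩, h3⟩, h4⟩ := hcon
  have h1' : ∀ l, fv (f l).natDegree (f l) u v ≠ 0 := fun l h => h1 l ⟨huv, h⟩
  have h3' : ∀ i, fv (N i) (g i) u v ≠ 0 := fun i h => h3 i ⟨huv, h⟩
  have hv : v ≠ 0 := by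
    rintro rfl
    apply h4
    have hs1 : |u| = 1 := Int.isUnit_iff_abs_eq.1 (isCoprime_zero_right.1 huv)
    have hs2 : |(u : ℝ)| = 1 := by exact_mod_cast hs1
    exact ⟨hs2.le, by simp⟩
  apply ht
  -- the indices with large primes
  set S₀ : Finset (Fin M) := univ.filter fun l => ∃ p : ℕ, p.Prime ∧ E < p ∧
    p ∣ (fv (f l).natDegree (f l) u v).natAbs with hS₀
  have hcard : L ≤ S₀.card := by
    by_contra hlt
    push Not at hlt
    have hc : M < (S₀ᶜ).card + L := by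
      rw [card_compl, Fintype.card_fin]
      have := card_le_univ S₀
      rw [Fintype.card_fin] at this
      omega
    apply h2 ⟨S₀ᶜ, hc⟩
    refine ⟨huv, ?_, ?_⟩
    · show fv _ _ u v ≠ 0
      rw [fv_prod _ _ (fun l _ => hf0 l) hv]
      exact prod_ne_zero_iff.2 fun l _ => h1' l
    · intro p hp hd
      change (p : ℤ) ∣ fv _ _ u v at hd
      rw [fv_prod _ _ (fun l _ => hf0 l) hv] at hd
      obtain ⟨l, hl, hdl⟩ := ((Nat.prime_iff_prime_int.1 hp).dvd_finsetProd_iff _).1 hd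
      by_contra hlt
      rw [mem_compl] at hl
      exact hl (mem_filter.2 ⟨mem_univ _, p, hp, by omega, Int.natCast_dvd.1 hdl⟩)
  obtain ⟨S, hSS, hSc⟩ := exists_subset_card_eq hcard
  have hp : ∀ l, ∃ p : ℕ, l ∈ S → p.Prime ∧ E < p ∧ p ∣ (fv (f l).natDegree (f l) u v).natAbs := by
    intro l
    by_cases hl : l ∈ S
    · obtain ⟨p, hp⟩ := (mem_filter.1 (hSS hl)).2
      exact ⟨p, fun _ => hp⟩
    · exact ⟨0, fun h => absurd h hl⟩
  choose p hp using hp
  refine ⟨h1', h3', S, p, hSc, fun l hl => ?_⟩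
  obtain ⟨hpp, hpE, hpd⟩ := hp l hl
  -- the prime does not divide `v`
  have hpv : ¬ (p l : ℤ) ∣ v := by
    intro h
    have h4 : (p l : ℤ) ∣ (f l).coeff (f l).natDegree * u ^ (f l).natDegree := by
      have h5 := h.trans (fv_mod (f l).natDegree (f l) u v)
      have h6 := dvd_sub (Int.natCast_dvd.2 hpd) h5
      rwa [sub_sub_cancel] at h6
    rcases (Nat.prime_iff_prime_int.1 hpp).dvd_or_dvd h4 with h5 | h5
    · have h6 := Nat.le_of_dvd (Int.natAbs_pos.2 (leadingCoeff_ne_zero.2 (hf0 l)))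
        (Int.natCast_dvd.1 h5)
      have h7 : ((f l).leadingCoeff).natAbs ≤ ∑ l, ((f l).leadingCoeff).natAbs :=
        single_le_sum (f := fun l => ((f l).leadingCoeff).natAbs) (fun _ _ => Nat.zero_le _)
          (mem_univ l)
      change p l ≤ ((f l).leadingCoeff).natAbs at h6
      omega
    · have h6 := (Nat.prime_iff_prime_int.1 hpp).dvd_of_dvd_pow h5
      exact (Nat.prime_iff_prime_int.1 hpp).not_isUnit (huv.isUnit_of_dvd' h6 h)
  obtain ⟨x, hx⟩ : ∃ x : ℤ, (p l : ℤ) ∣ x * v - u := by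
    have hc : IsCoprime (p l : ℤ) v :=
      (Nat.prime_iff_prime_int.1 hpp).irreducible.coprime_iff_not_dvd.2 hpv
    obtain ⟨a, b, hab⟩ := hc
    refine ⟨u * b, -(u * a), ?_⟩
    linear_combination u * hab
  refine ⟨hpp, by omega, hpd, ?_, ?_⟩
  · intro l' hll h
    have e1 := dvd_eval_of_dvd_fv le_rfl hpp hpv hx (Int.natCast_dvd.2 hpd)
    have e2 := dvd_eval_of_dvd_fv le_rfl hpp hpv hx (Int.natCast_dvd.2 h)
    have h4 := hr l l' hll x (p l) e1 e2
    have h5 := Nat.le_of_dvd (Int.natAbs_pos.2 (hr0 l l' hll)) (Int.natCast_dvd.1 h4)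
    have h6 : (r l l').natAbs ≤ ∑ l, ∑ l', (r l l').natAbs :=
      (single_le_sum (f := fun l' => (r l l').natAbs) (fun _ _ => Nat.zero_le _)
        (mem_univ l')).trans
        (single_le_sum (f := fun l => ∑ l', (r l l').natAbs) (fun _ _ => Nat.zero_le _)
          (mem_univ l))
    omega
  · intro i h
    have e1 := dvd_eval_of_dvd_fv le_rfl hpp hpv hx (Int.natCast_dvd.2 hpd)
    have e2 := dvd_eval_of_dvd_fv (hN i) hpp hpv hx (Int.natCast_dvd.2 h)
    have h4 := hs l i x (p l) e1 e2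
    have h5 := Nat.le_of_dvd (Int.natAbs_pos.2 (hs0 l i)) (Int.natCast_dvd.1 h4)
    have h6 : (s l i).natAbs ≤ ∑ l, ∑ i, (s l i).natAbs :=
      (single_le_sum (f := fun i => (s l i).natAbs) (fun _ _ => Nat.zero_le _)
        (mem_univ i)).trans
        (single_le_sum (f := fun l => ∑ i, (s l i).natAbs) (fun _ _ => Nat.zero_le _)
          (mem_univ l))
    omega

/-- Reduction of the product over `Fin M` to `L` factors: the other factors are put into `b`. -/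
theorem prod_reduce {ι : Type*} {M L : ℕ} (u : Fin M → ℕ) (b : ι → ℕ) (a : Fin M → ι → ℕ)
    (S : Finset (Fin M)) (hS : S.card = L) (i : ι) :
    b i * ∏ l, u l ^ a l i = (b i * ∏ l ∈ Sᶜ, u l ^ a l i) *
      ∏ l : Fin L, u (S.orderEmbOfFin hS l) ^ a (S.orderEmbOfFin hS l) i := by
  classical
  have h1 : ∏ l : Fin L, u (S.orderEmbOfFin hS l) ^ a (S.orderEmbOfFin hS l) i =
      ∏ l ∈ S, u l ^ a l i := by
    rw [← Finset.prod_coe_sort S]
    exact Fintype.prod_equiv (S.orderIsoOfFin hS).toEquiv _ _ fun l => rfl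
  rw [h1, mul_assoc, Finset.prod_compl_mul_prod]

/-- The hypotheses for the `L` factors. -/
theorem reduce_hyp {ι : Type*} {M L D : ℕ} {u : Fin M → ℕ} {b : ι → ℕ} {a : Fin M → ι → ℕ}
    {p : Fin M → ℕ} {S : Finset (Fin M)} (hS : S.card = L) (hu : ∀ l, u l ≠ 0)
    (hb : ∀ i, b i ≠ 0) (hp : ∀ l ∈ S, (p l).Prime ∧ D < p l ∧ p l ∣ u l ∧
      (∀ l', l ≠ l' → ¬ p l ∣ u l') ∧ ∀ i, ¬ p l ∣ b i) :
    (∀ l : Fin L, u (S.orderEmbOfFin hS l) ≠ 0) ∧
    (∀ i, b i * ∏ l ∈ Sᶜ, u l ^ a l i ≠ 0) ∧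
    (∀ l : Fin L, (p (S.orderEmbOfFin hS l)).Prime ∧ D < p (S.orderEmbOfFin hS l)) ∧
    (∀ l : Fin L, p (S.orderEmbOfFin hS l) ∣ u (S.orderEmbOfFin hS l)) ∧
    (∀ l l' : Fin L, l ≠ l' → ¬ p (S.orderEmbOfFin hS l) ∣ u (S.orderEmbOfFin hS l')) ∧
    ∀ (l : Fin L) i, ¬ p (S.orderEmbOfFin hS l) ∣ b i * ∏ l ∈ Sᶜ, u l ^ a l i := by
  classical
  have hmem : ∀ l : Fin L, S.orderEmbOfFin hS l ∈ S := fun l => S.orderEmbOfFin_mem hS l
  refine ⟨fun l => hu _, fun i => mul_ne_zero (hb i) (prod_ne_zero_iff.2 fun l _ =>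
    pow_ne_zero _ (hu l)), fun l => ⟨(hp _ (hmem l)).1, (hp _ (hmem l)).2.1⟩,
    fun l => (hp _ (hmem l)).2.2.1, fun l l' hll => (hp _ (hmem l)).2.2.2.1 _
      (fun h => hll ((S.orderEmbOfFin hS).injective h)), fun l i h => ?_⟩
  obtain ⟨hpp, -, -, h1, h2⟩ := hp _ (hmem l)
  rcases (Nat.Prime.dvd_mul hpp).1 h with h3 | h3
  · exact h2 i h3
  · obtain ⟨l', hl', hd⟩ := (hpp.prime.dvd_finsetProd_iff _).1 h3
    refine h1 l' ?_ (hpp.dvd_of_dvd_pow hd)
    rintro rfl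
    exact (mem_compl.1 hl') (hmem l)

end Pool.Agent.Q57.ZP
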